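import Pool.Agent.Lib.Pe46137X.Defs

/-!
Walks of bounded length.
-/

namespace Pool.Agent.Lib.Pe46137X

open Pool.Agent.Lib.Pe46137

variable {W W' : Type} {ρ : W → W → Prop} {ρ' : W' → W' → Prop} {L L' : ℕ} {a b c : W}

theorem JoinedIn.mono (h : JoinedIn ρ L a b) (hL : L ≤ L') : JoinedIn ρ L' a b := by
  obtain ⟨r, hr, h⟩ := h
  exact ⟨r, hr.trans hL, h⟩

theorem JoinedIn.refl (ρ : W → W → Prop) (L : ℕ) (a : W) : JoinedIn ρ L a a :=
  ⟨0, Nat.zero_le _, fun _ => a, rfl, rfl, fun j hj => absurd hj (Nat.not_lt_zero j)⟩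

theorem JoinedIn.single (h : ρ a b) (hL : 1 ≤ L) : JoinedIn ρ L a b :=
  ⟨1, hL, fun j => if j = 0 then a else b, rfl, rfl, fun j hj => by
    have : j = 0 := by omega
    subst this
    simpa using h⟩

theorem JoinedIn.trans (h : JoinedIn ρ L a b) (h' : JoinedIn ρ L' b c) :
    JoinedIn ρ (L + L') a c := by
  obtain ⟨r, hr, w, h0, h1, h2⟩ := h
  obtain ⟨r', hr', w', h0', h1', h2'⟩ := h'
  refine ⟨r + r', by omega, fun j => if j ≤ r then w j else w' (j - r), by simp [h0], ?_, ?_⟩
  · by_cases h : r' = 0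
    · subst h
      simp [h1, ← h1', h0']
    · have : ¬ r + r' ≤ r := by omega
      simp [this, h1']
  · intro j hj
    rcases lt_trichotomy j r with h | h | h
    · have h3 : j ≤ r := h.le
      have h4 : j + 1 ≤ r := h
      simpa [h3, h4] using h2 j h
    · subst h
      have h4 : ¬ j + 1 ≤ j := by omega
      have h5 : j + 1 - j = 1 := by omega
      simp only [le_refl, if_true, h4, if_false, h5]
      rw [h1, ← h0']
      exact h2' 0 (by omega)
    · have h3 : ¬ j ≤ r := by omega
      have h4 : ¬ j + 1 ≤ r := by omega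
      have h5 : j + 1 - r = (j - r) + 1 := by omega
      simp only [h3, h4, if_false, h5]
      exact h2' (j - r) (by omega)

theorem JoinedIn.map (g : W → W') (hg : ∀ a b, ρ a b → ρ' (g a) (g b)) (h : JoinedIn ρ L a b) :
    JoinedIn ρ' L (g a) (g b) := by
  obtain ⟨r, hr, w, h0, h1, h2⟩ := h
  exact ⟨r, hr, fun j => g (w j), by simp [h0], by simp [h1], fun j hj => hg _ _ (h2 j hj)⟩

/-- a shortest walk has distinct vertices -/
theorem JoinedIn.shortest (h : JoinedIn ρ L a b) : ∃ r ≤ L, ∃ w : ℕ → W, w 0 = a ∧ w r = b ∧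
    (∀ j < r, ρ (w j) (w (j + 1))) ∧ Set.InjOn w (Set.Iic r) := by
  classical
  have hex : ∃ r, ∃ w : ℕ → W, w 0 = a ∧ w r = b ∧ ∀ j < r, ρ (w j) (w (j + 1)) := by
    obtain ⟨r, _, w, h⟩ := h
    exact ⟨r, w, h⟩
  obtain ⟨w, h0, h1, h2⟩ := Nat.find_spec hex
  have hmin : ∀ r', r' < Nat.find hex → ¬ ∃ w : ℕ → W, w 0 = a ∧ w r' = b ∧
      ∀ j < r', ρ (w j) (w (j + 1)) := fun r' hr' => Nat.find_min hex hr'
  set r := Nat.find hex with hr
  have hrL : r ≤ L := by
    obtain ⟨r', hr', w', h'⟩ := h
    exact (Nat.find_min' hex ⟨w', h'⟩).trans hr'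
  refine ⟨r, hrL, w, h0, h1, h2, ?_⟩
  have key : ∀ i j, i < j → j ≤ r → w i ≠ w j := by
    intro i j hij hj he
    refine hmin (r - (j - i)) (by omega) ⟨fun l => if l ≤ i then w l else w (l + (j - i)), by
      simp [h0], ?_, ?_⟩
    · by_cases hi : r - (j - i) ≤ i
      · have : r = j := by omega
        have h3 : r - (j - i) = i := by omega
        simp only [h3, le_refl, if_true]
        rw [he, ← this, h1]
      · have h3 : r - (j - i) + (j - i) = r := by omega
        simp only [hi, if_false, h3, h1]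
    · intro l hl
      rcases lt_trichotomy l i with h | h | h
      · have h3 : l ≤ i := h.le
        have h4 : l + 1 ≤ i := h
        simpa [h3, h4] using h2 l (by omega)
      · subst h
        have h4 : ¬ l + 1 ≤ l := by omega
        have h5 : l + 1 + (j - l) = j + 1 := by omega
        simp only [le_refl, if_true, h4, if_false, h5]
        rw [he]
        exact h2 j (by omega)
      · have h3 : ¬ l ≤ i := by omega
        have h4 : ¬ l + 1 ≤ i := by omega
        have h5 : l + 1 + (j - i) = l + (j - i) + 1 := by omega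
        simp only [h3, h4, if_false, h5]
        exact h2 _ (by omega)
  intro i hi j hj he
  rcases lt_trichotomy i j with h | h | h
  · exact absurd he (key i j h hj)
  · exact h
  · exact absurd he.symm (key j i h hi)

theorem JoinedIn.reflTransGen (h : JoinedIn ρ L a b) : Relation.ReflTransGen ρ a b := by
  obtain ⟨r, _, w, h0, h1, h2⟩ := h
  have : ∀ j ≤ r, Relation.ReflTransGen ρ a (w j) := by
    intro j
    induction j with
    | zero => intro _; rw [h0]
    | succ j ih => intro hj; exact (ih (by omega)).tail (h2 j (by omega))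
  rw [← h1]
  exact this r le_rfl

theorem joinedIn_of_reflTransGen (h : Relation.ReflTransGen ρ a b) : ∃ L, JoinedIn ρ L a b := by
  induction h with
  | refl => exact ⟨0, JoinedIn.refl _ _ _⟩
  | tail _ h ih =>
    obtain ⟨L, hL⟩ := ih
    exact ⟨L + 1, hL.trans (JoinedIn.single h le_rfl)⟩

theorem eqvGen_of_joinedIn (h : JoinedIn (fun a b => ρ a b ∨ ρ b a) L a b) :
    Relation.EqvGen ρ a b := by
  have := h.reflTransGen
  clear h
  induction this with
  | refl => exact Relation.EqvGen.refl _
  | tail _ h ih =>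
    rcases h with h | h
    · exact ih.trans _ _ _ (Relation.EqvGen.rel _ _ h)
    · exact ih.trans _ _ _ ((Relation.EqvGen.rel _ _ h).symm _ _)

theorem joinedIn_symm (h : JoinedIn (fun a b => ρ a b ∨ ρ b a) L a b) :
    JoinedIn (fun a b => ρ a b ∨ ρ b a) L b a := by
  obtain ⟨r, hr, w, h0, h1, h2⟩ := h
  refine ⟨r, hr, fun j => w (r - j), by simp [h1], by simp [h0], fun j hj => ?_⟩
  have := h2 (r - (j + 1)) (by omega)
  have h3 : r - (j + 1) + 1 = r - j := by omega
  rw [h3] at this
  exact this.symm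

/-- in a network with finitely many states a connecting walk needs at most as many steps as there
are states -/
theorem joinedIn_of_eqvGen [Fintype W] (h : Relation.EqvGen ρ a b) :
    JoinedIn (fun a b => ρ a b ∨ ρ b a) (Fintype.card W) a b := by
  have h1 : ∃ L, JoinedIn (fun a b => ρ a b ∨ ρ b a) L a b := by
    induction h with
    | rel x y h => exact ⟨1, JoinedIn.single (Or.inl h) le_rfl⟩
    | refl x => exact ⟨0, JoinedIn.refl _ _ _⟩
    | symm x y _ ih => exact ⟨ih.choose, joinedIn_symm ih.choose_spec⟩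
    | trans x y z _ _ ih1 ih2 => exact ⟨_, ih1.choose_spec.trans ih2.choose_spec⟩
  obtain ⟨L, hL⟩ := h1
  obtain ⟨r, _, w, h0, h1, h2, h3⟩ := hL.shortest
  refine ⟨r, ?_, w, h0, h1, h2⟩
  have := Fintype.card_le_of_injective (fun i : Fin (r + 1) => w i) (fun i j hij => by
    have := h3 (show (i : ℕ) ∈ Set.Iic r from Nat.lt_succ_iff.mp i.2)
      (show (j : ℕ) ∈ Set.Iic r from Nat.lt_succ_iff.mp j.2) hij
    exact Fin.ext this)
  rw [Fintype.card_fin] at this
  omega

end Pool.Agent.Lib.Pe46137X
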