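import Mathlib

/-!
The main term and the error term.
-/

namespace Pool.Agent.Lib.Pe46137X

/-- the main term `log ℓ * log n - (log ℓ) ^ 2 / 2` (logarithms to base two) -/
noncomputable def mainTerm (n ℓ : ℕ) : ℝ :=
  Real.logb 2 ℓ * Real.logb 2 n - Real.logb 2 ℓ ^ 2 / 2

/-- the error term `log n + log ℓ * log log n` -/
noncomputable def errTerm (n ℓ : ℕ) : ℝ :=
  Real.logb 2 n + Real.logb 2 ℓ * Real.logb 2 (Real.logb 2 n)

end Pool.Agent.Lib.Pe46137X
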