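import Pool.Agent.Lib.Pe46137X.Walks

/-!
Module Pe46137X.FNet.  Series-parallel translation of a monotone formula into a monotone switching
network with few states and short accepting walks.

By induction on the formula `F`, with states in a finite type `W` (transport to `Fin m` at the end
with an equivalence): number of states at most `2 ^ (F.depth + 1)`, walk length at most
`(2 * F.depth + 1) * 2 ^ F.andDepth`, connected exactly if `F.Eval G`.
* const true: one state (source = sink).  const false: two states, no contact.  arc: two states,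
  one contact labelled by the arc.
* and: disjoint union (`Sum`), wire from the sink of the first to the source of the second.
  Length `L₁ + L₂ + 1 ≤ (2 (d+1) + 1) * 2 ^ (a+1)`.
* or: disjoint union, wires source-source and sink-sink, source and sink of the first.  Length
  `max L₁ (L₂ + 2) ≤ (2 (d+1) + 1) * 2 ^ a`.
Rejection: exhibit a set of states closed under closed contacts that contains the source and not
the sink.
-/

namespace Pool.Agent.Lib.Pe46137X

open Pool.Agent.Lib.Pe46137

namespace FNetAux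

variable {E : Type}

/-- a set of states closed under all closed contacts -/
theorem eqv_closed {W : Type*} {r : W → W → Prop} (A : Set W) (hA : ∀ v w, r v w → (v ∈ A ↔ w ∈ A))
    {v w : W} (h : Relation.EqvGen r v w) : v ∈ A ↔ w ∈ A := by
  induction h with
  | rel x y h => exact hA x y h
  | refl x => exact Iff.rfl
  | symm x y _ ih => exact ih.symm
  | trans x y z _ _ ih1 ih2 => exact ih1.trans ih2

theorem eqv_iff {W : Type*} {r : W → W → Prop} {v w : W} (h : r v w) (s : W) :
    Relation.EqvGen r s v ↔ Relation.EqvGen r s w :=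
  ⟨fun h' => h'.trans _ _ _ (Relation.EqvGen.rel _ _ h),
    fun h' => h'.trans _ _ _ ((Relation.EqvGen.rel _ _ h).symm _ _)⟩

/-- the network works: monotone, short walks if `f` holds, no connection if `f` fails -/
structure Works {W : Type} (N : SwitchingNetwork E W) (f : Set E → Prop) (L : ℕ) : Prop where
  mono : IsMonotone N
  acc : ∀ G, f G → ConnectsIn N G L
  rej : ∀ G, ¬ f G → ¬ N.Connects G Gᶜ

theorem works_true (L : ℕ) : ∃ N : SwitchingNetwork E Unit, Works N (fun _ => True) L :=
  ⟨⟨(), (), fun _ _ => False, fun _ _ _ => False, fun _ _ _ => False⟩,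
    fun _ _ _ h => h, fun _ _ => JoinedIn.refl _ _ _, fun _ h => absurd trivial h⟩

theorem works_false (L : ℕ) : ∃ N : SwitchingNetwork E Bool, Works N (fun _ => False) L := by
  refine ⟨⟨true, false, fun _ _ => False, fun _ _ _ => False, fun _ _ _ => False⟩,
    fun _ _ _ h => h, fun _ h => h.elim, fun G _ h => ?_⟩
  have := eqv_closed (r := SwitchingNetwork.Closed _ G Gᶜ) {true} (by
    intro v w h
    simp [SwitchingNetwork.Closed] at h) h
  simp at this

theorem works_lit (e : E) {L : ℕ} (hL : 1 ≤ L) :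
    ∃ N : SwitchingNetwork E Bool, Works N (fun G => e ∈ G) L := by
  refine ⟨⟨true, false, fun _ _ => False, fun e' _ _ => e' = e, fun _ _ _ => False⟩,
    fun _ _ _ h => h, fun G h => ?_, fun G hc h => ?_⟩
  · exact JoinedIn.single (Or.inl (Or.inr (Or.inl ⟨e, h, rfl⟩))) hL
  · have := eqv_closed (r := SwitchingNetwork.Closed _ G Gᶜ) {true} (by
      intro v w h
      simp only [SwitchingNetwork.Closed, exists_false, and_false, or_false, false_or] at h
      obtain ⟨e', h1, h2⟩ := h
      exact absurd (h2 ▸ h1) hc) h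
    simp at this

/-- contacts of a disjoint union, with extra permanently closed contacts -/
def sumNet {W W' : Type} (N : SwitchingNetwork E W) (N' : SwitchingNetwork E W')
    (c : W ⊕ W' → W ⊕ W' → Prop) (a b : W ⊕ W') : SwitchingNetwork E (W ⊕ W') where
  source := a
  sink := b
  wire v w := c v w ∨ (∃ x y, v = Sum.inl x ∧ w = Sum.inl y ∧ N.wire x y) ∨
    ∃ x y, v = Sum.inr x ∧ w = Sum.inr y ∧ N'.wire x y
  pos e v w := (∃ x y, v = Sum.inl x ∧ w = Sum.inl y ∧ N.pos e x y) ∨
    ∃ x y, v = Sum.inr x ∧ w = Sum.inr y ∧ N'.pos e x y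
  neg e v w := (∃ x y, v = Sum.inl x ∧ w = Sum.inl y ∧ N.neg e x y) ∨
    ∃ x y, v = Sum.inr x ∧ w = Sum.inr y ∧ N'.neg e x y

variable {W W' : Type} {N : SwitchingNetwork E W} {N' : SwitchingNetwork E W'}
  {c : W ⊕ W' → W ⊕ W' → Prop} {a b : W ⊕ W'} {P F : Set E}

theorem sumNet_source : (sumNet N N' c a b).source = a := rfl

theorem sumNet_sink : (sumNet N N' c a b).sink = b := rfl

theorem sumNet_closed {v w : W ⊕ W'} : (sumNet N N' c a b).Closed P F v w ↔
    c v w ∨ (∃ x y, v = Sum.inl x ∧ w = Sum.inl y ∧ N.Closed P F x y) ∨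
      ∃ x y, v = Sum.inr x ∧ w = Sum.inr y ∧ N'.Closed P F x y := by
  constructor
  · rintro ((h | ⟨x, y, h1, h2, h3⟩ | ⟨x, y, h1, h2, h3⟩) |
      ⟨e, he, ⟨x, y, h1, h2, h3⟩ | ⟨x, y, h1, h2, h3⟩⟩ |
      ⟨e, he, ⟨x, y, h1, h2, h3⟩ | ⟨x, y, h1, h2, h3⟩⟩)
    · exact Or.inl h
    · exact Or.inr (Or.inl ⟨x, y, h1, h2, Or.inl h3⟩)
    · exact Or.inr (Or.inr ⟨x, y, h1, h2, Or.inl h3⟩)
    · exact Or.inr (Or.inl ⟨x, y, h1, h2, Or.inr (Or.inl ⟨e, he, h3⟩)⟩)
    · exact Or.inr (Or.inr ⟨x, y, h1, h2, Or.inr (Or.inl ⟨e, he, h3⟩)⟩)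
    · exact Or.inr (Or.inl ⟨x, y, h1, h2, Or.inr (Or.inr ⟨e, he, h3⟩)⟩)
    · exact Or.inr (Or.inr ⟨x, y, h1, h2, Or.inr (Or.inr ⟨e, he, h3⟩)⟩)
  · rintro (h | ⟨x, y, h1, h2, h3⟩ | ⟨x, y, h1, h2, h3⟩)
    · exact Or.inl (Or.inl h)
    · rcases h3 with h3 | ⟨e, he, h3⟩ | ⟨e, he, h3⟩
      · exact Or.inl (Or.inr (Or.inl ⟨x, y, h1, h2, h3⟩))
      · exact Or.inr (Or.inl ⟨e, he, Or.inl ⟨x, y, h1, h2, h3⟩⟩)
      · exact Or.inr (Or.inr ⟨e, he, Or.inl ⟨x, y, h1, h2, h3⟩⟩)
    · rcases h3 with h3 | ⟨e, he, h3⟩ | ⟨e, he, h3⟩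
      · exact Or.inl (Or.inr (Or.inr ⟨x, y, h1, h2, h3⟩))
      · exact Or.inr (Or.inl ⟨e, he, Or.inr ⟨x, y, h1, h2, h3⟩⟩)
      · exact Or.inr (Or.inr ⟨e, he, Or.inr ⟨x, y, h1, h2, h3⟩⟩)

theorem sumNet_monotone (h : IsMonotone N) (h' : IsMonotone N') :
    IsMonotone (sumNet N N' c a b) := by
  rintro e v w (⟨x, y, _, _, h3⟩ | ⟨x, y, _, _, h3⟩)
  · exact h e _ _ h3
  · exact h' e _ _ h3

/-- steps through closed contacts in either direction -/
def Step {W : Type} (N : SwitchingNetwork E W) (G : Set E) (v w : W) : Prop :=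
  N.Closed G Gᶜ v w ∨ N.Closed G Gᶜ w v

theorem sumNet_inl {G : Set E} {L : ℕ} {x y : W} (h : JoinedIn (Step N G) L x y) :
    JoinedIn (Step (sumNet N N' c a b) G) L (Sum.inl x) (Sum.inl y) :=
  JoinedIn.map Sum.inl (fun v w h => by
    rcases h with h | h
    · exact Or.inl (sumNet_closed.mpr (Or.inr (Or.inl ⟨v, w, rfl, rfl, h⟩)))
    · exact Or.inr (sumNet_closed.mpr (Or.inr (Or.inl ⟨w, v, rfl, rfl, h⟩)))) h

theorem sumNet_inr {G : Set E} {L : ℕ} {x y : W'} (h : JoinedIn (Step N' G) L x y) :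
    JoinedIn (Step (sumNet N N' c a b) G) L (Sum.inr x) (Sum.inr y) :=
  JoinedIn.map Sum.inr (fun v w h => by
    rcases h with h | h
    · exact Or.inl (sumNet_closed.mpr (Or.inr (Or.inr ⟨v, w, rfl, rfl, h⟩)))
    · exact Or.inr (sumNet_closed.mpr (Or.inr (Or.inr ⟨w, v, rfl, rfl, h⟩)))) h

theorem works_or {f g : Set E → Prop} {L L' M : ℕ} (hf : Works N f L) (hg : Works N' g L')
    (h1 : L ≤ M) (h2 : L' + 2 ≤ M) :
    ∃ N'' : SwitchingNetwork E (W ⊕ W'), Works N'' (fun G => f G ∨ g G) M := by
  refine ⟨sumNet N N' (fun v w =>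
    (v = Sum.inl N.source ∧ w = Sum.inr N'.source) ∨ (v = Sum.inl N.sink ∧ w = Sum.inr N'.sink))
    (Sum.inl N.source) (Sum.inl N.sink), sumNet_monotone hf.mono hg.mono, fun G h => ?_,
    fun G hc h => ?_⟩
  · rcases h with h | h
    · exact (sumNet_inl (hf.acc G h)).mono h1
    · have e1 := sumNet_inr (N := N) (N' := N') (c := fun v w =>
        (v = Sum.inl N.source ∧ w = Sum.inr N'.source) ∨ (v = Sum.inl N.sink ∧
          w = Sum.inr N'.sink)) (a := Sum.inl N.source) (b := Sum.inl N.sink)
        (hg.acc G h)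
      have e0 : JoinedIn (Step (sumNet N N' (fun v w =>
        (v = Sum.inl N.source ∧ w = Sum.inr N'.source) ∨ (v = Sum.inl N.sink ∧
          w = Sum.inr N'.sink)) (Sum.inl N.source) (Sum.inl N.sink)) G) 1
          (Sum.inl N.source) (Sum.inr N'.source) :=
        JoinedIn.single (Or.inl (sumNet_closed.mpr (Or.inl (Or.inl ⟨rfl, rfl⟩)))) le_rfl
      have e2 : JoinedIn (Step (sumNet N N' (fun v w =>
        (v = Sum.inl N.source ∧ w = Sum.inr N'.source) ∨ (v = Sum.inl N.sink ∧
          w = Sum.inr N'.sink)) (Sum.inl N.source) (Sum.inl N.sink)) G) 1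
          (Sum.inr N'.sink) (Sum.inl N.sink) :=
        JoinedIn.single (Or.inr (sumNet_closed.mpr (Or.inl (Or.inr ⟨rfl, rfl⟩)))) le_rfl
      exact ((e0.trans e1).trans e2).mono (by omega)
  · rw [not_or] at hc
    have n1 : ¬ Relation.EqvGen (N.Closed G Gᶜ) N.source N.sink := hf.rej G hc.1
    have n2 : ¬ Relation.EqvGen (N'.Closed G Gᶜ) N'.source N'.sink := hg.rej G hc.2
    have := eqv_closed {v | (∃ x, v = Sum.inl x ∧ Relation.EqvGen (N.Closed G Gᶜ) N.source x) ∨
      (∃ x, v = Sum.inr x ∧ Relation.EqvGen (N'.Closed G Gᶜ) N'.source x)} (fun v w hvw => ?_) h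
    · simp only [sumNet_source, sumNet_sink, Set.mem_ofPred_eq, Sum.inl.injEq, exists_eq_left',
        reduceCtorEq, false_and, exists_false, or_false] at this
      exact n1 (this.mp (Relation.EqvGen.refl _))
    · rw [sumNet_closed] at hvw
      rcases hvw with (⟨rfl, rfl⟩ | ⟨rfl, rfl⟩) | ⟨x, y, rfl, rfl, h⟩ | ⟨x, y, rfl, rfl, h⟩
      · simp [Relation.EqvGen.refl]
      · simp [n1, n2]
      · simp [eqv_iff h]
      · simp [eqv_iff h]

theorem works_and {f g : Set E → Prop} {L L' M : ℕ} (hf : Works N f L) (hg : Works N' g L')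
    (h1 : L + L' + 1 ≤ M) :
    ∃ N'' : SwitchingNetwork E (W ⊕ W'), Works N'' (fun G => f G ∧ g G) M := by
  refine ⟨sumNet N N' (fun v w =>
    (v = Sum.inl N.sink ∧ w = Sum.inr N'.source))
    (Sum.inl N.source) (Sum.inr N'.sink), sumNet_monotone hf.mono hg.mono, fun G h => ?_,
    fun G hc h => ?_⟩
  · obtain ⟨hf', hg'⟩ := h
    have e0 := sumNet_inl (N := N) (N' := N') (c := fun v w =>
      (v = Sum.inl N.sink ∧ w = Sum.inr N'.source)) (a := Sum.inl N.source)
      (b := Sum.inr N'.sink) (hf.acc G hf')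
    have e2 := sumNet_inr (N := N) (N' := N') (c := fun v w =>
      (v = Sum.inl N.sink ∧ w = Sum.inr N'.source)) (a := Sum.inl N.source)
      (b := Sum.inr N'.sink) (hg.acc G hg')
    have e1 : JoinedIn (Step (sumNet N N' (fun v w =>
        (v = Sum.inl N.sink ∧ w = Sum.inr N'.source)) (Sum.inl N.source) (Sum.inr N'.sink)) G) 1
          (Sum.inl N.sink) (Sum.inr N'.source) :=
        JoinedIn.single (Or.inl (sumNet_closed.mpr (Or.inl ⟨rfl, rfl⟩))) le_rfl
    exact ((e0.trans e1).trans e2).mono (by omega)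
  · by_cases hf' : f G
    · have hng : ¬ g G := fun h => hc ⟨hf', h⟩
      have n2 : ¬ Relation.EqvGen (N'.Closed G Gᶜ) N'.source N'.sink := hg.rej G hng
      have := eqv_closed {v | (∃ x, v = Sum.inl x) ∨
        (∃ x, v = Sum.inr x ∧ Relation.EqvGen (N'.Closed G Gᶜ) N'.source x)} (fun v w hvw => ?_) h
      · simp only [sumNet_source, sumNet_sink, Set.mem_ofPred_eq, Sum.inl.injEq, exists_eq',
          reduceCtorEq, false_and,
          exists_false, or_false, true_iff, false_or, Sum.inr.injEq, exists_eq_left'] at this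
        exact n2 this
      · rw [sumNet_closed] at hvw
        rcases hvw with ⟨rfl, rfl⟩ | ⟨x, y, rfl, rfl, h⟩ | ⟨x, y, rfl, rfl, h⟩
        · simp [Relation.EqvGen.refl]
        · simp
        · simp [eqv_iff h]
    · have n1 : ¬ Relation.EqvGen (N.Closed G Gᶜ) N.source N.sink := hf.rej G hf'
      have := eqv_closed {v | (∃ x, v = Sum.inl x ∧ Relation.EqvGen (N.Closed G Gᶜ) N.source x)}
        (fun v w hvw => ?_) h
      · simp only [sumNet_source, sumNet_sink, Set.mem_ofPred_eq, Sum.inl.injEq,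
          exists_eq_left', reduceCtorEq, false_and,
          exists_false, iff_false] at this
        exact this (Relation.EqvGen.refl _)
      · rw [sumNet_closed] at hvw
        rcases hvw with ⟨rfl, rfl⟩ | ⟨x, y, rfl, rfl, h⟩ | ⟨x, y, rfl, rfl, h⟩
        · simp [n1]
        · simp [eqv_iff h]
        · simp

/-- transport of a network along a bijection of the states -/
def mapNet {W W' : Type} (e : W ≃ W') (N : SwitchingNetwork E W) : SwitchingNetwork E W' where
  source := e N.source
  sink := e N.sink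
  wire v w := N.wire (e.symm v) (e.symm w)
  pos x v w := N.pos x (e.symm v) (e.symm w)
  neg x v w := N.neg x (e.symm v) (e.symm w)

theorem works_map {f : Set E → Prop} {L : ℕ} (e : W ≃ W') (h : Works N f L) :
    Works (mapNet e N) f L := by
  refine ⟨fun x v w => h.mono x _ _, fun G hG => ?_, fun G hG hc => ?_⟩
  · refine JoinedIn.map e (fun v w h => ?_) (h.acc G hG)
    simpa [mapNet, SwitchingNetwork.Closed] using h
  · refine h.rej G hG ?_
    have := eqv_closed (r := (mapNet e N).Closed G Gᶜ)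
      {w | Relation.EqvGen (N.Closed G Gᶜ) N.source (e.symm w)}
      (fun v w hvw => eqv_iff (show N.Closed G Gᶜ (e.symm v) (e.symm w) from hvw) _) hc
    simpa [mapNet, Relation.EqvGen.refl, SwitchingNetwork.Connects] using this

end FNetAux

open FNetAux in
theorem exists_network {V : Type} (F : Formula V) : ∃ m ≤ 2 ^ (F.depth + 1),
    ∃ N : SwitchingNetwork (V × V) (Fin m), IsMonotone N ∧
      (∀ G, F.Eval G → ConnectsIn N G ((2 * F.depth + 1) * 2 ^ F.andDepth)) ∧
      ∀ G, ¬ F.Eval G → ¬ N.Connects G Gᶜ := by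
  have key : ∃ (W : Type) (_ : Fintype W), Fintype.card W ≤ 2 ^ (F.depth + 1) ∧
      ∃ N : SwitchingNetwork (V × V) W, Works N F.Eval ((2 * F.depth + 1) * 2 ^ F.andDepth) := by
    induction F with
    | const b =>
      cases b with
      | true =>
        obtain ⟨N, hN⟩ := works_true (E := V × V) ((2 * (Formula.const (V := V) true).depth + 1) *
          2 ^ (Formula.const (V := V) true).andDepth)
        refine ⟨Unit, inferInstance, ?_, N, ⟨hN.mono, fun G _ => hN.acc G trivial,
          fun G h => absurd rfl h⟩⟩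
        simp [Formula.depth]
      | false =>
        obtain ⟨N, hN⟩ := works_false (E := V × V)
          ((2 * (Formula.const (V := V) false).depth + 1) *
          2 ^ (Formula.const (V := V) false).andDepth)
        refine ⟨Bool, inferInstance, ?_, N, ⟨hN.mono, fun G h => absurd h (by simp [Formula.Eval]),
          fun G h => hN.rej G id⟩⟩
        simp [Formula.depth]
    | arc u v =>
      obtain ⟨N, hN⟩ := works_lit (E := V × V) (u, v)
        (L := (2 * (Formula.arc u v).depth + 1) * 2 ^ (Formula.arc u v).andDepth)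
        (by simp [Formula.depth, Formula.andDepth])
      refine ⟨Bool, inferInstance, ?_, N, ⟨hN.mono, fun G h => hN.acc G h, fun G h => hN.rej G h⟩⟩
      simp [Formula.depth]
    | and F F' ih ih' =>
      obtain ⟨W, i, hW, N, hN⟩ := ih
      obtain ⟨W', i', hW', N', hN'⟩ := ih'
      have h1 := Nat.pow_le_pow_right (n := 2) (by norm_num)
        (Nat.add_le_add_right (le_max_left F.depth F'.depth) 1)
      have h2 := Nat.pow_le_pow_right (n := 2) (by norm_num)
        (Nat.add_le_add_right (le_max_right F.depth F'.depth) 1)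
      have h3 := Nat.pow_le_pow_right (n := 2) (by norm_num) (le_max_left F.andDepth F'.andDepth)
      have h4 := Nat.pow_le_pow_right (n := 2) (by norm_num) (le_max_right F.andDepth F'.andDepth)
      have h5 : (2 * F.depth + 1) * 2 ^ F.andDepth ≤
          (2 * max F.depth F'.depth + 1) * 2 ^ max F.andDepth F'.andDepth :=
        Nat.mul_le_mul (by omega) h3
      have h6 : (2 * F'.depth + 1) * 2 ^ F'.andDepth ≤
          (2 * max F.depth F'.depth + 1) * 2 ^ max F.andDepth F'.andDepth :=
        Nat.mul_le_mul (by omega) h4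
      have h7 : 1 ≤ 2 ^ max F.andDepth F'.andDepth := Nat.one_le_two_pow
      obtain ⟨N'', hN''⟩ := works_and hN hN'
        (M := (2 * (Formula.and F F').depth + 1) * 2 ^ (Formula.and F F').andDepth) (by
        simp only [Formula.depth, Formula.andDepth]
        rw [pow_succ]
        nlinarith)
      refine ⟨W ⊕ W', inferInstance, ?_, N'', ⟨hN''.mono, fun G h => hN''.acc G h,
        fun G h => hN''.rej G h⟩⟩
      simp only [Formula.depth]
      rw [Fintype.card_sum, pow_succ]
      omega
    | or F F' ih ih' =>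
      obtain ⟨W, i, hW, N, hN⟩ := ih
      obtain ⟨W', i', hW', N', hN'⟩ := ih'
      have h1 := Nat.pow_le_pow_right (n := 2) (by norm_num)
        (Nat.add_le_add_right (le_max_left F.depth F'.depth) 1)
      have h2 := Nat.pow_le_pow_right (n := 2) (by norm_num)
        (Nat.add_le_add_right (le_max_right F.depth F'.depth) 1)
      have h3 := Nat.pow_le_pow_right (n := 2) (by norm_num) (le_max_left F.andDepth F'.andDepth)
      have h4 := Nat.pow_le_pow_right (n := 2) (by norm_num) (le_max_right F.andDepth F'.andDepth)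
      have h5 : (2 * F.depth + 1) * 2 ^ F.andDepth ≤
          (2 * max F.depth F'.depth + 1) * 2 ^ max F.andDepth F'.andDepth :=
        Nat.mul_le_mul (by omega) h3
      have h6 : (2 * F'.depth + 1) * 2 ^ F'.andDepth ≤
          (2 * max F.depth F'.depth + 1) * 2 ^ max F.andDepth F'.andDepth :=
        Nat.mul_le_mul (by omega) h4
      have h7 : 1 ≤ 2 ^ max F.andDepth F'.andDepth := Nat.one_le_two_pow
      obtain ⟨N'', hN''⟩ := works_or hN hN'
        (M := (2 * (Formula.or F F').depth + 1) * 2 ^ (Formula.or F F').andDepth) (by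
        simp only [Formula.depth, Formula.andDepth]
        nlinarith) (by
        simp only [Formula.depth, Formula.andDepth]
        nlinarith)
      refine ⟨W ⊕ W', inferInstance, ?_, N'', ⟨hN''.mono, fun G h => hN''.acc G h,
        fun G h => hN''.rej G h⟩⟩
      simp only [Formula.depth]
      rw [Fintype.card_sum, pow_succ]
      omega
  obtain ⟨W, i, hW, N, hN⟩ := key
  have h := works_map (Fintype.equivFin W) hN
  exact ⟨Fintype.card W, hW, _, h.mono, h.acc, h.rej⟩

end Pool.Agent.Lib.Pe46137X
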