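import Pool.Agent.Lib.Pe46137X.Dual

/-!
Module Pe46137X.FormL.  Lower bound for formulas from a hard family.

Let `X, Y, gP, gY, M, A` be the data of `HardFor`, `B = c * κ * |X| * |Y|`.  Claim, by induction on
the formula `F`: for all `α : X → ℝ` that vanish where `F` rejects `gP P` and all `β : Y → ℝ` that
vanish where `F` accepts `gY y`,
`(∑ P, ∑ y, α P * M P y * β y) ^ 2 ≤ F.leaves * B * (∑ α ^ 2) * (∑ β ^ 2)`.
* const: `α = 0` or `β = 0`.
* arc `e = (u, v)`: `α P ≠ 0` implies `e ∈ gP P`; choose `i P` with `M P y = A (i P) P y` whenever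
  `e ∉ gY y`, in particular whenever `β y ≠ 0`.  So the double sum is
  `∑ P, α P * (∑ y, A (i P) P y * β y)`, and by Cauchy-Schwarz (`Finset.sum_mul_sq_le_sq_mul_sq`) its
  square is at most `(∑ α ^ 2) * ∑ P, (∑ y, A (i P) P y * β y) ^ 2 ≤ (∑ α ^ 2) * ∑ i, ∑ P, (∑ y, A i P
  y * β y) ^ 2 ≤ (∑ α ^ 2) * c * κ |X| |Y| ∑ β ^ 2`.
* or: `α = α₁ + α₂`, `α₁` the part where `F₁` accepts; `∑ α ^ 2 = ∑ α₁ ^ 2 + ∑ α₂ ^ 2`;
  `(x₁ + x₂) ^ 2 ≤ (l₁ + l₂) D (a₁ + a₂)` if `x_i ^ 2 ≤ l_i D a_i` (all nonnegative):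
  Cauchy-Schwarz for two terms.  and: the same with `β`.
Then `α = β = 1`: `∑ P, ∑ y, M P y = |X| |Y|`, so `(|X| |Y|) ^ 2 ≤ F.leaves * c * κ * (|X| |Y|) ^ 2`.
(`κ ≥ 0` follows from the norm inequality if needed: with `R = 1` the left side is nonnegative and
`|X|, |Y| > 0`, if `c > 0`; `c > 0` because `Within` gives an arc when `s ≠ t`, or argue directly.)
-/

namespace Pool.Agent.Lib.Pe46137X

open Pool.Agent.Lib.Pe46137 Finset

namespace FormLAux

/-- Cauchy-Schwarz for two terms -/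
theorem two_terms {x₁ x₂ l₁ l₂ a₁ a₂ D : ℝ} (hl₁ : 0 ≤ l₁) (hl₂ : 0 ≤ l₂) (ha₁ : 0 ≤ a₁)
    (ha₂ : 0 ≤ a₂) (hD : 0 ≤ D) (h₁ : x₁ ^ 2 ≤ l₁ * D * a₁) (h₂ : x₂ ^ 2 ≤ l₂ * D * a₂) :
    (x₁ + x₂) ^ 2 ≤ (l₁ + l₂) * D * (a₁ + a₂) := by
  have h3 : (x₁ * x₂) ^ 2 ≤ (D * (l₁ * a₂ + l₂ * a₁) / 2) ^ 2 := by
    have h4 : (x₁ * x₂) ^ 2 ≤ (l₁ * D * a₁) * (l₂ * D * a₂) := by
      rw [mul_pow]
      exact mul_le_mul h₁ h₂ (sq_nonneg _) (by positivity)
    have h5 : (l₁ * D * a₁) * (l₂ * D * a₂) ≤ (D * (l₁ * a₂ + l₂ * a₁) / 2) ^ 2 := by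
      have h6 : 0 ≤ (D * (l₁ * a₂ - l₂ * a₁) / 2) ^ 2 := sq_nonneg _
      nlinarith [h6]
    exact h4.trans h5
  have h4 : x₁ * x₂ ≤ D * (l₁ * a₂ + l₂ * a₁) / 2 :=
    (abs_le_of_sq_le_sq' h3 (by positivity)).2
  nlinarith [h4, h₁, h₂]

theorem main {V X Y : Type} [Fintype X] [Fintype Y] {c : ℕ} {κ : ℝ} (hκ : 0 ≤ κ)
    (gP : X → Set (V × V)) (gY : Y → Set (V × V)) (M : X → Y → ℝ) (A : Fin c → X → Y → ℝ)
    (hM : ∀ P, ∀ e ∈ gP P, ∃ i, ∀ y, e ∉ gY y → M P y = A i P y)
    (hA : ∀ (i : Fin c) (R : Y → ℝ), ∑ P, (∑ y, A i P y * R y) ^ 2 ≤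
      κ * Fintype.card X * Fintype.card Y * ∑ y, R y ^ 2) (F : Formula V) :
    ∀ (α : X → ℝ) (β : Y → ℝ), (∀ P, ¬ F.Eval (gP P) → α P = 0) →
      (∀ y, F.Eval (gY y) → β y = 0) →
      (∑ P, α P * ∑ y, M P y * β y) ^ 2 ≤
        (F.leaves : ℝ) * ((c : ℝ) * (κ * Fintype.card X * Fintype.card Y) *
          ((∑ P, α P ^ 2) * ∑ y, β y ^ 2)) := by
  classical
  induction F with
  | const b =>
    intro α β hα hβ
    have : (∑ P, α P * ∑ y, M P y * β y) = 0 := by
      by_cases hb : b = true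
      · have : ∀ y, β y = 0 := fun y => hβ y (by simpa [Formula.Eval] using hb)
        simp [this]
      · have : ∀ P, α P = 0 := fun P => hα P (by simpa [Formula.Eval] using hb)
        simp [this]
    rw [this]
    simp [Formula.leaves]
  | arc u v =>
    intro α β hα hβ
    simp only [Formula.Eval] at hα hβ
    simp only [Formula.leaves, Nat.cast_one, one_mul]
    -- choose the index
    by_cases hc : Nonempty (Fin c)
    swap
    · have h0 : ∀ P, α P = 0 := by
        intro P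
        apply hα
        intro h
        obtain ⟨i, _⟩ := hM P _ h
        exact hc ⟨i⟩
      simp [h0]
    obtain ⟨i0⟩ := hc
    have hex : ∀ P, ∃ i : Fin c, (u, v) ∈ gP P → ∀ y, (u, v) ∉ gY y → M P y = A i P y := by
      intro P
      by_cases h : (u, v) ∈ gP P
      · obtain ⟨i, hi⟩ := hM P _ h
        exact ⟨i, fun _ => hi⟩
      · exact ⟨i0, fun h' => absurd h' h⟩
    choose ix hix using hex
    have h1 : (∑ P, α P * ∑ y, M P y * β y) = ∑ P, α P * ∑ y, A (ix P) P y * β y := by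
      refine Finset.sum_congr rfl fun P _ => ?_
      by_cases h : (u, v) ∈ gP P
      · congr 1
        refine Finset.sum_congr rfl fun y _ => ?_
        by_cases hy : (u, v) ∈ gY y
        · rw [hβ y hy]; simp
        · rw [hix P h y hy]
      · rw [hα P h]; simp
    rw [h1]
    have h2 := Finset.sum_mul_sq_le_sq_mul_sq Finset.univ α (fun P => ∑ y, A (ix P) P y * β y)
    refine h2.trans ?_
    have h3 : ∑ P, (∑ y, A (ix P) P y * β y) ^ 2 ≤
        (c : ℝ) * ((κ * Fintype.card X * Fintype.card Y) * ∑ y, β y ^ 2) := by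
      calc ∑ P, (∑ y, A (ix P) P y * β y) ^ 2
          ≤ ∑ P, ∑ i : Fin c, (∑ y, A i P y * β y) ^ 2 := by
            refine Finset.sum_le_sum fun P _ => ?_
            exact Finset.single_le_sum (f := fun i : Fin c => (∑ y, A i P y * β y) ^ 2)
              (fun i _ => sq_nonneg _) (Finset.mem_univ (ix P))
        _ = ∑ i : Fin c, ∑ P, (∑ y, A i P y * β y) ^ 2 := Finset.sum_comm
        _ ≤ ∑ _i : Fin c, (κ * Fintype.card X * Fintype.card Y) * ∑ y, β y ^ 2 :=
            Finset.sum_le_sum fun i _ => hA i β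
        _ = _ := by simp
    calc (∑ P, α P ^ 2) * ∑ P, (∑ y, A (ix P) P y * β y) ^ 2
        ≤ (∑ P, α P ^ 2) *
          ((c : ℝ) * ((κ * Fintype.card X * Fintype.card Y) * ∑ y, β y ^ 2)) :=
          mul_le_mul_of_nonneg_left h3 (Finset.sum_nonneg fun _ _ => sq_nonneg _)
      _ = _ := by ring
  | and F₁ F₂ ih₁ ih₂ =>
    intro α β hα hβ
    simp only [Formula.Eval] at hα hβ
    simp only [Formula.leaves, Nat.cast_add]
    have e1 := ih₁ α (fun y => if F₁.Eval (gY y) then 0 else β y)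
      (fun P h => hα P (fun h' => h h'.1)) (fun y h => by simp [h])
    have e2 := ih₂ α (fun y => if F₁.Eval (gY y) then β y else 0)
      (fun P h => hα P (fun h' => h h'.2)) (fun y h => by
        by_cases h' : F₁.Eval (gY y)
        · simp [h', hβ y ⟨h', h⟩]
        · simp [h'])
    have hs : (∑ P, α P * ∑ y, M P y * β y) =
        (∑ P, α P * ∑ y, M P y * (if F₁.Eval (gY y) then 0 else β y)) +
        (∑ P, α P * ∑ y, M P y * (if F₁.Eval (gY y) then β y else 0)) := by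
      rw [← Finset.sum_add_distrib]
      refine Finset.sum_congr rfl fun P _ => ?_
      rw [← mul_add, ← Finset.sum_add_distrib]
      congr 1
      refine Finset.sum_congr rfl fun y _ => ?_
      split_ifs <;> simp
    have hq : (∑ y, β y ^ 2) = (∑ y, (if F₁.Eval (gY y) then 0 else β y) ^ 2) +
        ∑ y, (if F₁.Eval (gY y) then β y else 0) ^ 2 := by
      rw [← Finset.sum_add_distrib]
      refine Finset.sum_congr rfl fun y _ => ?_
      split_ifs <;> simp
    rw [hs, hq]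
    have := two_terms (D := (c : ℝ) * (κ * Fintype.card X * Fintype.card Y) * ∑ P, α P ^ 2)
      (l₁ := F₁.leaves) (l₂ := F₂.leaves)
      (a₁ := ∑ y, (if F₁.Eval (gY y) then 0 else β y) ^ 2)
      (a₂ := ∑ y, (if F₁.Eval (gY y) then β y else 0) ^ 2)
      (by positivity) (by positivity) (by positivity) (by positivity) (by positivity)
      (e1.trans (le_of_eq (by ring))) (e2.trans (le_of_eq (by ring)))
    refine this.trans (le_of_eq ?_)
    ring
  | or F₁ F₂ ih₁ ih₂ =>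
    intro α β hα hβ
    simp only [Formula.Eval] at hα hβ
    simp only [Formula.leaves, Nat.cast_add]
    have e1 := ih₁ (fun P => if F₁.Eval (gP P) then α P else 0) β
      (fun P h => by simp [h]) (fun y h => hβ y (Or.inl h))
    have e2 := ih₂ (fun P => if F₁.Eval (gP P) then 0 else α P) β
      (fun P h => by
        by_cases h' : F₁.Eval (gP P)
        · simp [h']
        · simp [h', hα P (fun h'' => h''.elim h' h)]) (fun y h => hβ y (Or.inr h))
    have hs : (∑ P, α P * ∑ y, M P y * β y) =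
        (∑ P, (if F₁.Eval (gP P) then α P else 0) * ∑ y, M P y * β y) +
        (∑ P, (if F₁.Eval (gP P) then 0 else α P) * ∑ y, M P y * β y) := by
      rw [← Finset.sum_add_distrib]
      refine Finset.sum_congr rfl fun P _ => ?_
      split_ifs <;> simp
    have hq : (∑ P, α P ^ 2) = (∑ P, (if F₁.Eval (gP P) then α P else 0) ^ 2) +
        ∑ P, (if F₁.Eval (gP P) then 0 else α P) ^ 2 := by
      rw [← Finset.sum_add_distrib]
      refine Finset.sum_congr rfl fun P _ => ?_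
      split_ifs <;> simp
    rw [hs, hq]
    have := two_terms (D := (c : ℝ) * (κ * Fintype.card X * Fintype.card Y) * ∑ y, β y ^ 2)
      (l₁ := F₁.leaves) (l₂ := F₂.leaves)
      (a₁ := ∑ P, (if F₁.Eval (gP P) then α P else 0) ^ 2)
      (a₂ := ∑ P, (if F₁.Eval (gP P) then 0 else α P) ^ 2)
      (by positivity) (by positivity) (by positivity) (by positivity) (by positivity)
      (e1.trans (le_of_eq (by ring))) (e2.trans (le_of_eq (by ring)))
    refine this.trans (le_of_eq ?_)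
    ring

end FormLAux

open FormLAux in
theorem formula_lower {V : Type} {s t : V} {ℓ c : ℕ} {κ : ℝ} (hκ : 0 ≤ κ)
    (h : HardFor s t ℓ c κ) (F : Formula V) (hF : Separates F.Eval s t ℓ) :
    1 ≤ (F.leaves : ℝ) * c * κ := by
  obtain ⟨X, Y, _, _, gP, gY, M, A, hX, hY, hP, hR, hS, hM, hA⟩ := h
  have h1 := main hκ gP gY M A hM hA F (fun _ => 1) (fun _ => 1)
    (fun P h => absurd (hF.1 _ (hP P)) h) (fun y h => absurd h (hF.2 _ (hR y)))
  have hx : (0 : ℝ) < Fintype.card X := by exact_mod_cast Fintype.card_pos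
  have hy : (0 : ℝ) < Fintype.card Y := by exact_mod_cast Fintype.card_pos
  have h2 : (∑ P : X, (1 : ℝ) * ∑ y, M P y * 1) = Fintype.card X * Fintype.card Y := by
    simp [hS]
  rw [h2] at h1
  simp only [one_pow, Finset.sum_const, Finset.card_univ, nsmul_eq_mul, mul_one] at h1
  have h3 : (0 : ℝ) < (Fintype.card X * Fintype.card Y) ^ 2 := by positivity
  have h4 : ((Fintype.card X : ℝ) * Fintype.card Y) ^ 2 * 1 ≤
      ((Fintype.card X : ℝ) * Fintype.card Y) ^ 2 * ((F.leaves : ℝ) * c * κ) := by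
    rw [mul_one]
    refine h1.trans (le_of_eq ?_)
    ring
  exact le_of_mul_le_mul_left h4 h3

end Pool.Agent.Lib.Pe46137X
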