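import Pool.Agent.Lib.Pe46137X.Dual

/-!
Module Pe46137X.NetL.  Lower bound for monotone switching networks from a hard family.

Let `X, Y, gP, gY, M, A` be the data of `HardFor`.  For a state `a` and `y : Y` let `R a y = 1` if
`Relation.EqvGen (N.Closed (gY y) (gY y)ᶜ) N.source a`, else `0`.  `R source = 1`, `R sink = 0`
(rejection).  Fix `P`.  `ConnectsIn N (gP P) L` gives by `JoinedIn.shortest` (Walks.lean) a walk
`w 0, …, w r` of distinct states, `r ≤ L`.
`|Y| = ∑ y, M P y * (R (w 0) y - R (w r) y) = ∑_{j<r} ∑ y, M P y * (R (w j) y - R (w (j+1)) y)`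
(telescoping, `Finset.sum_range_sub'`).  Step `j`: `w j` and `w (j+1)` are joined (in one direction)
by a contact closed on `gP P`: a wire (then `R (w j) y = R (w (j+1)) y` for all `y`), or a contact
labelled by some `e ∈ gP P` (then equal for all `y` with `e ∈ gY y`; no negated contact since `N` is
monotone).  With `i` the index of `e`: `M P y * (R (w j) y - R (w (j+1)) y) =
A i P y * (R (w j) y - R (w (j+1)) y)` for all `y`.  Hence each step contributes at most
`∑ i, (|S i (w j)| + |S i (w (j+1))|)`, `S i a = ∑ y, A i P y * R a y`, and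
`|Y| ≤ 2 * ∑_{j ≤ r} ∑ i, |S i (w j)|`.  Cauchy-Schwarz over the `(r+1) * c` terms and
distinctness of the `w j` : `|Y| ^ 2 ≤ 4 * (L+1) * c * ∑ a, ∑ i, S i a ^ 2`.
Sum over `P` and use the norm inequality with `R = R a`, `∑ y, R a y ^ 2 ≤ |Y|`:
`|X| |Y| ^ 2 ≤ 4 (L+1) c * |W| * c * κ * |X| |Y| * |Y|`.
-/

namespace Pool.Agent.Lib.Pe46137X

open Pool.Agent.Lib.Pe46137 Finset

namespace NetLAux

open Classical in
/-- indicator of the states joined with the source -/
noncomputable def Rf {V W Y : Type} (N : SwitchingNetwork (V × V) W) (gY : Y → Set (V × V)) (a : W) (y : Y) :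
    ℝ :=
  if Relation.EqvGen (N.Closed (gY y) (gY y)ᶜ) N.source a then 1 else 0

theorem Rf_eq {V W Y : Type} (N : SwitchingNetwork (V × V) W) (gY : Y → Set (V × V)) {a b : W} {y : Y}
    (h : N.Closed (gY y) (gY y)ᶜ a b) : Rf N gY a y = Rf N gY b y := by
  unfold Rf
  have : Relation.EqvGen (N.Closed (gY y) (gY y)ᶜ) N.source a ↔
      Relation.EqvGen (N.Closed (gY y) (gY y)ᶜ) N.source b :=
    ⟨fun h' => h'.trans _ _ _ (Relation.EqvGen.rel _ _ h),
      fun h' => h'.trans _ _ _ ((Relation.EqvGen.rel _ _ h).symm _ _)⟩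
  by_cases hb : Relation.EqvGen (N.Closed (gY y) (gY y)ᶜ) N.source b
  · rw [if_pos (this.mpr hb), if_pos hb]
  · rw [if_neg (fun ha => hb (this.mp ha)), if_neg hb]

theorem Rf_sq {V W Y : Type} (N : SwitchingNetwork (V × V) W) (gY : Y → Set (V × V)) (a : W) (y : Y) :
    Rf N gY a y ^ 2 ≤ 1 := by
  unfold Rf
  split_ifs <;> norm_num

theorem step_cases {V W Y : Type} (N : SwitchingNetwork (V × V) W) (hN : IsMonotone N)
    (gY : Y → Set (V × V)) {G : Set (V × V)} {a b : W} (h : N.Closed G Gᶜ a b) :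
    (∀ y, Rf N gY a y = Rf N gY b y) ∨ ∃ e ∈ G, ∀ y, e ∈ gY y → Rf N gY a y = Rf N gY b y := by
  rcases h with h | ⟨e, he, h⟩ | ⟨e, _, h⟩
  · exact Or.inl fun y => Rf_eq N gY (Or.inl h)
  · exact Or.inr ⟨e, he, fun y hy => Rf_eq N gY (Or.inr (Or.inl ⟨e, hy, h⟩))⟩
  · exact absurd h (hN e a b)

theorem step_bound {V Y : Type} [Fintype Y] {c : ℕ} {G : Set (V × V)} {gY : Y → Set (V × V)}
    {M : Y → ℝ} {A : Fin c → Y → ℝ}
    (hA : ∀ e ∈ G, ∃ i, ∀ y, e ∉ gY y → M y = A i y) {u v : Y → ℝ}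
    (h : (∀ y, u y = v y) ∨ ∃ e ∈ G, ∀ y, e ∈ gY y → u y = v y) :
    ∑ y, M y * (u y - v y) ≤ ∑ i, (|∑ y, A i y * u y| + |∑ y, A i y * v y|) := by
  have hnn : ∀ i ∈ (univ : Finset (Fin c)), 0 ≤ |∑ y, A i y * u y| + |∑ y, A i y * v y| := fun i _ => by
    positivity
  rcases h with h | ⟨e, he, h⟩
  · have : ∑ y, M y * (u y - v y) = 0 := by
      apply Finset.sum_eq_zero
      intro y _
      rw [h y, sub_self, mul_zero]
    rw [this]
    exact Finset.sum_nonneg hnn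
  · obtain ⟨i, hi⟩ := hA e he
    have h1 : ∑ y, M y * (u y - v y) = ∑ y, A i y * u y - ∑ y, A i y * v y := by
      rw [← Finset.sum_sub_distrib]
      refine Finset.sum_congr rfl fun y _ => ?_
      by_cases hy : e ∈ gY y
      · rw [h y hy]
        ring
      · rw [hi y hy]
        ring
    rw [h1]
    refine le_trans ?_ (Finset.single_le_sum hnn (Finset.mem_univ i))
    have h2 := le_abs_self (∑ y, A i y * u y)
    have h3 := neg_abs_le (∑ y, A i y * v y)
    linarith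

theorem walk_bound {W : Type} [Fintype W] {c r L : ℕ} (hr : r ≤ L) {w : ℕ → W}
    (hw : Set.InjOn w (Set.Iic r)) (S : Fin c → W → ℝ) {B : ℝ} (hB : 0 ≤ B)
    (h : B ≤ ∑ j ∈ range r, ∑ i, (|S i (w j)| + |S i (w (j + 1))|)) :
    B ^ 2 ≤ 4 * ((L : ℝ) + 1) * c * ∑ a, ∑ i, S i a ^ 2 := by
  classical
  set f : ℕ → ℝ := fun j => ∑ i, |S i (w j)| with hf
  have hfn : ∀ j, 0 ≤ f j := fun j => Finset.sum_nonneg fun i _ => abs_nonneg _
  have h1 : B ≤ 2 * ∑ j ∈ range (r + 1), f j := by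
    have e1 : ∑ j ∈ range r, ∑ i, (|S i (w j)| + |S i (w (j + 1))|) =
        ∑ j ∈ range r, f j + ∑ j ∈ range r, f (j + 1) := by
      rw [← Finset.sum_add_distrib]
      refine Finset.sum_congr rfl fun j _ => ?_
      rw [hf, ← Finset.sum_add_distrib]
    have e2 : ∑ j ∈ range (r + 1), f j = ∑ j ∈ range r, f j + f r := Finset.sum_range_succ _ _
    have e3 : ∑ j ∈ range (r + 1), f j = ∑ j ∈ range r, f (j + 1) + f 0 := Finset.sum_range_succ' _ _
    have := hfn r
    have := hfn 0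
    linarith
  have h2 : (∑ j ∈ range (r + 1), f j) ^ 2 ≤
      (((r + 1 : ℕ) : ℝ) * c) * ∑ j ∈ range (r + 1), ∑ i, S i (w j) ^ 2 := by
    have e1 : ∑ j ∈ range (r + 1), f j =
        ∑ p ∈ range (r + 1) ×ˢ (univ : Finset (Fin c)), |S p.2 (w p.1)| := by
      rw [Finset.sum_product]
    have e2 : ∑ j ∈ range (r + 1), ∑ i, S i (w j) ^ 2 =
        ∑ p ∈ range (r + 1) ×ˢ (univ : Finset (Fin c)), |S p.2 (w p.1)| ^ 2 := by
      rw [Finset.sum_product]
      refine Finset.sum_congr rfl fun j _ => Finset.sum_congr rfl fun i _ => ?_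
      rw [sq_abs]
    rw [e1, e2]
    have := sq_sum_le_card_mul_sum_sq (s := range (r + 1) ×ˢ (univ : Finset (Fin c)))
      (f := fun p => |S p.2 (w p.1)|)
    rw [Finset.card_product, Finset.card_range, Finset.card_univ, Fintype.card_fin, Nat.cast_mul] at this
    exact this
  have h3 : ∑ j ∈ range (r + 1), ∑ i, S i (w j) ^ 2 ≤ ∑ a, ∑ i, S i a ^ 2 := by
    have hinj : Set.InjOn w (range (r + 1) : Set ℕ) := by
      intro a ha b hb hab
      apply hw _ _ hab
      · simpa [Nat.lt_succ_iff] using ha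
      · simpa [Nat.lt_succ_iff] using hb
    rw [← Finset.sum_image (f := fun a => ∑ i, S i a ^ 2) hinj]
    apply Finset.sum_le_sum_of_subset_of_nonneg (Finset.subset_univ _)
    intro a _ _
    exact Finset.sum_nonneg fun i _ => sq_nonneg _
  have h4 : (((r + 1 : ℕ) : ℝ) * c) ≤ ((L : ℝ) + 1) * c := by
    have : ((r + 1 : ℕ) : ℝ) ≤ (L : ℝ) + 1 := by
      exact_mod_cast Nat.succ_le_succ hr
    gcongr
  have h5 : 0 ≤ ∑ j ∈ range (r + 1), ∑ i, S i (w j) ^ 2 :=
    Finset.sum_nonneg fun j _ => Finset.sum_nonneg fun i _ => sq_nonneg _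
  have h6 : 0 ≤ ∑ j ∈ range (r + 1), f j := Finset.sum_nonneg fun j _ => hfn j
  calc B ^ 2 ≤ (2 * ∑ j ∈ range (r + 1), f j) ^ 2 := by gcongr
    _ = 4 * (∑ j ∈ range (r + 1), f j) ^ 2 := by ring
    _ ≤ 4 * ((((r + 1 : ℕ) : ℝ) * c) * ∑ j ∈ range (r + 1), ∑ i, S i (w j) ^ 2) := by gcongr
    _ ≤ 4 * ((((L : ℝ) + 1) * c) * ∑ a, ∑ i, S i a ^ 2) := by gcongr
    _ = 4 * ((L : ℝ) + 1) * c * ∑ a, ∑ i, S i a ^ 2 := by ring

end NetLAux

open NetLAux in
theorem network_lower {V W : Type} [Fintype W] {s t : V} {ℓ c L : ℕ} {κ : ℝ} (hκ : 0 ≤ κ)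
    (h : HardFor s t ℓ c κ) (N : SwitchingNetwork (V × V) W) (hN : IsMonotone N)
    (h1 : ∀ G, Within G s t ℓ → ConnectsIn N G L)
    (h2 : ∀ G, ¬ Reachable G s t → ¬ N.Connects G Gᶜ) :
    1 ≤ 4 * ((L : ℝ) + 1) * (c : ℝ) ^ 2 * Fintype.card W * κ := by
  obtain ⟨X, Y, _, _, gP, gY, M, A, hX, hY0, hP, hY, hM, hA, hnorm⟩ := h
  have hkey : ∀ P : X, ((Fintype.card Y : ℝ)) ^ 2 ≤
      4 * ((L : ℝ) + 1) * c * ∑ a, ∑ i, (∑ y, A i P y * Rf N gY a y) ^ 2 := by
    intro P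
    obtain ⟨r, hr, w, hw0, hwr, hstep, hinj⟩ := (h1 (gP P) (hP P)).shortest
    apply walk_bound hr hinj (fun i a => ∑ y, A i P y * Rf N gY a y) (Nat.cast_nonneg _)
    have e0 : ∀ y, Rf N gY (w 0) y = 1 := by
      intro y
      unfold Rf
      rw [hw0, if_pos (Relation.EqvGen.refl _)]
    have er : ∀ y, Rf N gY (w r) y = 0 := by
      intro y
      unfold Rf
      rw [hwr]
      exact if_neg (h2 (gY y) (hY y))
    have e1 : (Fintype.card Y : ℝ) = ∑ j ∈ range r, ∑ y, M P y * (Rf N gY (w j) y - Rf N gY (w (j + 1)) y) := by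
      rw [Finset.sum_comm, ← hM P]
      refine Finset.sum_congr rfl fun y _ => ?_
      rw [← Finset.mul_sum, Finset.sum_range_sub', e0, er]
      ring
    rw [e1]
    apply Finset.sum_le_sum
    intro j hj
    apply step_bound (hA P)
    rcases hstep j (Finset.mem_range.mp hj) with hc | hc
    · exact step_cases N hN gY hc
    · rcases step_cases N hN gY hc with h | ⟨e, he, h⟩
      · exact Or.inl fun y => (h y).symm
      · exact Or.inr ⟨e, he, fun y hy => (h y hy).symm⟩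
  have hXp : (0 : ℝ) < Fintype.card X := by exact_mod_cast Fintype.card_pos
  have hYp : (0 : ℝ) < Fintype.card Y := by exact_mod_cast Fintype.card_pos
  have hR : ∀ a : W, ∑ y, Rf N gY a y ^ 2 ≤ Fintype.card Y := by
    intro a
    calc ∑ y, Rf N gY a y ^ 2 ≤ ∑ _y : Y, (1 : ℝ) := Finset.sum_le_sum fun y _ => Rf_sq N gY a y
      _ = Fintype.card Y := by simp
  have hsum : (Fintype.card X : ℝ) * (Fintype.card Y : ℝ) ^ 2 ≤
      4 * ((L : ℝ) + 1) * c * (Fintype.card W * (c * (κ * Fintype.card X * Fintype.card Y * Fintype.card Y))) := by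
    calc (Fintype.card X : ℝ) * (Fintype.card Y : ℝ) ^ 2 = ∑ _P : X, (Fintype.card Y : ℝ) ^ 2 := by simp
      _ ≤ ∑ P, 4 * ((L : ℝ) + 1) * c * ∑ a, ∑ i, (∑ y, A i P y * Rf N gY a y) ^ 2 :=
          Finset.sum_le_sum fun P _ => hkey P
      _ = 4 * ((L : ℝ) + 1) * c * ∑ a, ∑ i, ∑ P, (∑ y, A i P y * Rf N gY a y) ^ 2 := by
          rw [← Finset.mul_sum, Finset.sum_comm]
          congr 1
          refine Finset.sum_congr rfl fun a _ => ?_
          rw [Finset.sum_comm]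
      _ ≤ 4 * ((L : ℝ) + 1) * c * ∑ _a : W, ∑ _i : Fin c, (κ * Fintype.card X * Fintype.card Y * Fintype.card Y) := by
          gcongr with a _ i _
          refine (hnorm i (Rf N gY a)).trans ?_
          gcongr
          exact hR a
      _ = 4 * ((L : ℝ) + 1) * c * (Fintype.card W * (c * (κ * Fintype.card X * Fintype.card Y * Fintype.card Y))) := by
          simp
  have hXY : (0 : ℝ) < (Fintype.card X : ℝ) * (Fintype.card Y : ℝ) ^ 2 := by positivity
  have hfin : (Fintype.card X : ℝ) * (Fintype.card Y : ℝ) ^ 2 * 1 ≤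
      (Fintype.card X : ℝ) * (Fintype.card Y : ℝ) ^ 2 *
        (4 * ((L : ℝ) + 1) * (c : ℝ) ^ 2 * Fintype.card W * κ) := by
    rw [mul_one]
    refine hsum.trans (le_of_eq ?_)
    ring
  exact le_of_mul_le_mul_left hfin hXY

end Pool.Agent.Lib.Pe46137X
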