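import Pool.Agent.Lib.Pe46137X.NumDefs

/-!
Module Pe46137X.NumL.  From the explicit lower bound to the main term.  Pure arithmetic, no other
imports.  (Any constant `C` will do.)

`x` is a number with `1 ≤ x` such that for all `k, p` with `2 p + 2 ≤ n`, `4 * 2 ^ k + k + 1 ≤ p`,
`2 ^ k + 1 ≤ ℓ`:  `C(p, k+1) ≤ x * 4 * (2 ^ k + 1) ^ 2 * 16 ^ (k+1) * k! * 2 ^ (k (k-1)/2)`.
Claim: `mainTerm n ℓ - C * errTerm n ℓ ≤ log x`.
* `errTerm ≥ log n ≥ 1` (`n ≥ 2`, `log log n ≥ 0`, `log ℓ ≥ 0`).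
* If `ℓ < 64` (`log ℓ < 6`) then `mainTerm ≤ 6 log n`, and `log x ≥ 0`: any `C ≥ 6` works.
* If `ℓ ≥ 64` let `k = ⌊log ℓ⌋ - 6` (`Nat.log 2 ℓ - 6`), so `ℓ < 2 ^ (k + 7)`, `64 * 2 ^ k ≤ ℓ ≤ n`, and
  `p = n / 4`: `2 p + 2 ≤ n`; `4 * 2 ^ k + k + 1 ≤ 6 * 2 ^ k ≤ n / 10 ≤ p` (`k + 1 ≤ 2 * 2 ^ k`);
  `2 ^ k + 1 ≤ ℓ`.  `C(p, k+1) ≥ (p / (k+1)) ^ (k+1)` (`Nat.pow_le_choose` type lemma:
  `((p + 1 - (k+1)) ^ (k+1) ≤ p.descFactorial (k+1)`, or `(p/(k+1))^(k+1) ≤ choose`), `p ≥ n / 8`.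
  So `log x ≥ (k+1) (log n - 3 - log (k+1)) - 2 - 2 (k + 1) - 4 (k+1) - k log (k+1) - k^2 / 2`
  (`k! ≤ (k+1) ^ k`).  As `log ℓ - 7 < k ≤ log ℓ - 6`: `(k+1) log n ≥ (log ℓ - 6) log n`,
  `k ^ 2 ≤ (log ℓ) ^ 2`, `k + 1 ≤ log ℓ ≤ log n`, `log (k+1) ≤ log log n`.  Hence
  `log x ≥ mainTerm - 6 log n - 2 log ℓ log log n - 9 log ℓ - 2 ≥ mainTerm - 17 errTerm`.
-/

namespace Pool.Agent.Lib.Pe46137X

namespace NumLAux

theorem logb_nonneg_nat {n : ℕ} (h : 1 ≤ n) : 0 ≤ Real.logb 2 n :=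
  Real.logb_nonneg (by norm_num) (by exact_mod_cast h)

theorem one_le_logb {n : ℕ} (h : 2 ≤ n) : 1 ≤ Real.logb 2 n := by
  have h2 : Real.logb 2 2 ≤ Real.logb 2 n :=
    Real.logb_le_logb_of_le (by norm_num) (by norm_num) (by exact_mod_cast h)
  rwa [Real.logb_self_eq_one (by norm_num)] at h2

/-- the lower bound for the binomial coefficient -/
theorem choose_lower {n k : ℕ} (hn : 64 * 2 ^ k ≤ n) :
    ((n : ℝ) / (16 * (k + 1))) ^ (k + 1) ≤ ((n / 4).choose (k + 1) : ℝ) := by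
  have hk : k < 2 ^ k := Nat.lt_two_pow_self
  have h1 : (((n / 4 + 1 - (k + 1) : ℕ) : ℝ) ^ (k + 1)) / ((k + 1).factorial : ℝ) ≤
      ((n / 4).choose (k + 1) : ℝ) := Nat.pow_le_choose (α := ℝ) (k + 1) (n / 4)
  refine le_trans ?_ h1
  have h2 : (n : ℝ) / 16 ≤ ((n / 4 + 1 - (k + 1) : ℕ) : ℝ) := by
    have h3 : n ≤ 16 * (n / 4 + 1 - (k + 1)) := by omega
    have h4 : (n : ℝ) ≤ 16 * ((n / 4 + 1 - (k + 1) : ℕ) : ℝ) := by exact_mod_cast h3
    linarith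
  have h5 : ((k + 1).factorial : ℝ) ≤ ((k : ℝ) + 1) ^ (k + 1) := by
    have := Nat.factorial_le_pow (k + 1)
    exact_mod_cast this
  have h6 : (0 : ℝ) < ((k + 1).factorial : ℝ) := by exact_mod_cast Nat.factorial_pos _
  have h7 : ((n : ℝ) / (16 * (k + 1))) ^ (k + 1) =
      ((n : ℝ) / 16) ^ (k + 1) / ((k : ℝ) + 1) ^ (k + 1) := by
    rw [← div_pow, div_div]
  rw [h7]
  exact div_le_div₀ (by positivity) (pow_le_pow_left₀ (by positivity) h2 _) h6 h5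

/-- the main computation -/
theorem main {n ℓ k : ℕ} {x : ℝ} (hℓn : ℓ ≤ n) (hx : 1 ≤ x) (hk1 : 64 * 2 ^ k ≤ ℓ)
    (hk2 : ℓ < 2 ^ (k + 7))
    (h : ((n / 4).choose (k + 1) : ℝ) ≤
        x * (4 * (2 ^ k + 1) ^ 2 * (16 ^ (k + 1) * k.factorial * 2 ^ (k * (k - 1) / 2)))) :
    mainTerm n ℓ - 18 * errTerm n ℓ ≤ Real.logb 2 x := by
  have hx0 : 0 < x := by linarith
  have hkpow : 1 ≤ 2 ^ k := Nat.one_le_two_pow
  have hn64 : 64 ≤ n := by omega
  have hn0 : (0 : ℝ) < n := by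
    have : 0 < n := by omega
    exact_mod_cast this
  have hℓ0 : (0 : ℝ) < ℓ := by
    have : 0 < ℓ := by omega
    exact_mod_cast this
  have hk0 : (0 : ℝ) < (k : ℝ) + 1 := by positivity
  set N := Real.logb 2 n with hN
  set W := Real.logb 2 ℓ with hW
  set K := Real.logb 2 ((k : ℝ) + 1) with hK
  have hN1 : 1 ≤ N := one_le_logb (by omega)
  have hWN : W ≤ N :=
    Real.logb_le_logb_of_le (by norm_num) hℓ0 (by exact_mod_cast hℓn)
  have hWk1 : (k : ℝ) + 6 ≤ W := by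
    have h1 : Real.logb 2 ((2 : ℝ) ^ (k + 6)) ≤ W := by
      refine Real.logb_le_logb_of_le (by norm_num) (by positivity) ?_
      have : 2 ^ (k + 6) ≤ ℓ := by
        rw [pow_add]; omega
      exact_mod_cast this
    rw [Real.logb_pow, Real.logb_self_eq_one (by norm_num), mul_one] at h1
    push_cast at h1
    exact h1
  have hWk2 : W ≤ (k : ℝ) + 7 := by
    have h1 : W ≤ Real.logb 2 ((2 : ℝ) ^ (k + 7)) := by
      refine Real.logb_le_logb_of_le (by norm_num) hℓ0 ?_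
      exact_mod_cast hk2.le
    rw [Real.logb_pow, Real.logb_self_eq_one (by norm_num), mul_one] at h1
    push_cast at h1
    exact h1
  have hK0 : 0 ≤ K := Real.logb_nonneg (by norm_num) (by
    have : (0 : ℝ) ≤ k := Nat.cast_nonneg k
    linarith)
  have hKLL : K ≤ Real.logb 2 N :=
    Real.logb_le_logb_of_le (by norm_num) hk0 (by linarith)
  -- logarithm of the inequality
  have hA := (choose_lower (le_trans hk1 hℓn)).trans h
  have hB : x * (4 * (2 ^ k + 1) ^ 2 * (16 ^ (k + 1) * (k.factorial : ℝ) * 2 ^ (k * (k - 1) / 2))) ≤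
      x * (4 * (2 ^ (k + 1)) ^ 2 * (16 ^ (k + 1) * ((k : ℝ) + 1) ^ k * 2 ^ (k * (k - 1) / 2))) := by
    have h1 : (1 : ℝ) ≤ 2 ^ k := one_le_pow₀ (by norm_num)
    have h2 : (2 : ℝ) ^ k + 1 ≤ 2 ^ (k + 1) := by rw [pow_succ]; linarith
    have h3 : ((2 : ℝ) ^ k + 1) ^ 2 ≤ (2 ^ (k + 1)) ^ 2 := pow_le_pow_left₀ (by positivity) h2 2
    have h4 : (k.factorial : ℝ) ≤ ((k : ℝ) + 1) ^ k := by
      have h5 : k.factorial ≤ (k + 1) ^ k :=
        (Nat.factorial_le_pow k).trans (Nat.pow_le_pow_left (Nat.le_succ k) k)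
      exact_mod_cast h5
    gcongr
  have hC := hA.trans hB
  have hpos : 0 < ((n : ℝ) / (16 * (k + 1))) ^ (k + 1) := by positivity
  have hD := Real.logb_le_logb_of_le (b := 2) (by norm_num) hpos hC
  have e16 : Real.logb 2 16 = 4 := by
    rw [show (16 : ℝ) = 2 ^ 4 by norm_num, Real.logb_pow, Real.logb_self_eq_one (by norm_num)]
    norm_num
  have e4 : Real.logb 2 4 = 2 := by
    rw [show (4 : ℝ) = 2 ^ 2 by norm_num, Real.logb_pow, Real.logb_self_eq_one (by norm_num)]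
    norm_num
  have e2 : Real.logb 2 2 = 1 := Real.logb_self_eq_one (by norm_num)
  have eL : Real.logb 2 (((n : ℝ) / (16 * (k + 1))) ^ (k + 1)) = ((k : ℝ) + 1) * (N - (4 + K)) := by
    rw [Real.logb_pow, Real.logb_div hn0.ne' (by positivity), Real.logb_mul (by norm_num) hk0.ne',
      e16]
    push_cast
    rfl
  have eR : Real.logb 2 (x * (4 * (2 ^ (k + 1)) ^ 2 *
      (16 ^ (k + 1) * ((k : ℝ) + 1) ^ k * 2 ^ (k * (k - 1) / 2)))) =
      Real.logb 2 x + (2 + 2 * (((k : ℝ) + 1)) + ((((k : ℝ) + 1) * 4 + k * K) +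
        ((k * (k - 1) / 2 : ℕ) : ℝ))) := by
    rw [Real.logb_mul hx0.ne' (by positivity), Real.logb_mul (by positivity) (by positivity),
      Real.logb_mul (by norm_num) (by positivity), Real.logb_mul (by positivity) (by positivity),
      Real.logb_mul (by positivity) (by positivity)]
    simp only [Real.logb_pow, e16, e4, e2]
    push_cast
    ring
  rw [eL, eR] at hD
  have hkk : ((k * (k - 1) / 2 : ℕ) : ℝ) ≤ (k : ℝ) ^ 2 / 2 := by
    have h1 : k * (k - 1) / 2 * 2 ≤ k ^ 2 := by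
      have h2 : k * (k - 1) / 2 * 2 ≤ k * (k - 1) := Nat.div_mul_le_self _ _
      have h3 : k * (k - 1) ≤ k ^ 2 := by
        rw [sq]; exact Nat.mul_le_mul_left _ (Nat.sub_le _ _)
      exact h2.trans h3
    have h4 : ((k * (k - 1) / 2 : ℕ) : ℝ) * 2 ≤ (k : ℝ) ^ 2 := by exact_mod_cast h1
    linarith
  have hkr : (0 : ℝ) ≤ k := Nat.cast_nonneg k
  have hW0 : 0 ≤ W := by linarith
  have hLL0 : 0 ≤ Real.logb 2 N := hK0.trans hKLL
  unfold mainTerm errTerm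
  rw [← hN, ← hW]
  have p1 : (W - 6) * N ≤ ((k : ℝ) + 1) * N := mul_le_mul_of_nonneg_right (by linarith) (by linarith)
  have p2 : (2 * (k : ℝ) + 1) * K ≤ 2 * W * Real.logb 2 N := by
    refine mul_le_mul (by linarith) hKLL hK0 (by linarith)
  have p3 : (k : ℝ) ^ 2 ≤ W ^ 2 := pow_le_pow_left₀ hkr (by linarith) 2
  have p4 : 0 ≤ W * Real.logb 2 N := mul_nonneg hW0 hLL0
  nlinarith [hD, hkk, p1, p2, p3, p4]

end NumLAux

theorem num_lower : ∃ C : ℝ, 0 < C ∧ ∀ (n ℓ : ℕ) (x : ℝ), 2 ≤ n → 1 ≤ ℓ → ℓ ≤ n → 1 ≤ x →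
    (∀ k p : ℕ, 2 * p + 2 ≤ n → 4 * 2 ^ k + k + 1 ≤ p → 2 ^ k + 1 ≤ ℓ →
      (p.choose (k + 1) : ℝ) ≤
        x * (4 * (2 ^ k + 1) ^ 2 * (16 ^ (k + 1) * k.factorial * 2 ^ (k * (k - 1) / 2)))) →
    mainTerm n ℓ - C * errTerm n ℓ ≤ Real.logb 2 x := by
  refine ⟨18, by norm_num, fun n ℓ x hn hℓ hℓn hx h => ?_⟩
  rcases lt_or_ge ℓ 64 with h64 | h64
  · have hN1 : 1 ≤ Real.logb 2 n := NumLAux.one_le_logb hn
    have hW0 : 0 ≤ Real.logb 2 ℓ := NumLAux.logb_nonneg_nat hℓ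
    have hLL0 : 0 ≤ Real.logb 2 (Real.logb 2 n) := Real.logb_nonneg (by norm_num) hN1
    have hW6 : Real.logb 2 ℓ ≤ 6 := by
      have h1 : Real.logb 2 ℓ ≤ Real.logb 2 ((2 : ℝ) ^ 6) := by
        refine Real.logb_le_logb_of_le (by norm_num) (by exact_mod_cast hℓ) ?_
        have : ℓ ≤ 2 ^ 6 := by omega
        exact_mod_cast this
      rw [Real.logb_pow, Real.logb_self_eq_one (by norm_num)] at h1
      norm_num at h1
      exact h1
    have hx0 : 0 ≤ Real.logb 2 x := Real.logb_nonneg (by norm_num) hx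
    unfold mainTerm errTerm
    have p1 : Real.logb 2 ℓ * Real.logb 2 n ≤ 6 * Real.logb 2 n :=
      mul_le_mul_of_nonneg_right hW6 (by linarith)
    have p2 : 0 ≤ Real.logb 2 ℓ * Real.logb 2 (Real.logb 2 n) := mul_nonneg hW0 hLL0
    nlinarith [sq_nonneg (Real.logb 2 (ℓ : ℝ))]
  · set k := Nat.log 2 ℓ - 6 with hk
    have hlog6 : 6 ≤ Nat.log 2 ℓ := by
      have := Nat.log_mono_right (b := 2) h64
      rwa [show Nat.log 2 64 = 6 by decide] at this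
    have hk6 : Nat.log 2 ℓ = k + 6 := by omega
    have h1 : 2 ^ (k + 6) ≤ ℓ := by
      rw [← hk6]; exact Nat.pow_log_le_self 2 (by omega)
    have h2 : ℓ < 2 ^ (k + 7) := by
      have := Nat.lt_pow_succ_log_self (b := 2) (by norm_num) ℓ
      rwa [hk6] at this
    have hk1 : 64 * 2 ^ k ≤ ℓ := by
      rw [pow_add] at h1; omega
    have hklt : k < 2 ^ k := Nat.lt_two_pow_self
    refine NumLAux.main hℓn hx hk1 h2 (h k (n / 4) (by omega) (by omega) (by omega))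

end Pool.Agent.Lib.Pe46137X
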