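import Pool.Agent.Lib.Pe46137X.NumDefs

/-!
Module Pe46137X.NumR.  From the rank bound to the main term for states alone.  Pure arithmetic, no
other imports.  (Any constant `C` will do.)

`x ≥ 1` satisfies, for all `k, p` with `p + 2 ≤ n`, `2 ^ k < p`, `2 ^ k + 1 ≤ ℓ`:
`C(p, 2 ^ k) ≤ x * C(p, 2 ^ k - k - 1)`.  Claim: `log ℓ * (log n - log ℓ) - C * errTerm n ℓ ≤ log x`.
* If `ℓ < 8` the left side without error is `≤ 3 log n`; `log x ≥ 0`.
* If `ℓ ≥ 8` let `k = Nat.log 2 ℓ - 2`, so `4 * 2 ^ k ≤ ℓ < 2 ^ (k + 3)`, and `p = n - 2`: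
  `2 ^ k + 1 ≤ ℓ`, `2 ^ k < p`, even `p - 2 ^ k ≥ n / 4` (`n ≥ 8`, `2 ^ k ≤ n / 4`).  With `m = 2 ^ k`,
  `a = k + 1`: `C(p, m) / C(p, m - a) = ∏_{i<a} (p - m + a - i) / (m - i) ≥ ((p - m) / m) ^ a`
  (`Nat.choose_succ_right_eq` step by step: `C(p, j + 1) * (j + 1) = C(p, j) * (p - j)`).  So
  `log x ≥ (k+1) (log n - 2 - k)`, and with `log ℓ - 3 < k ≤ log ℓ - 2`:
  `(k+1) (log n - 2 - k) ≥ (log ℓ - 2) (log n - log ℓ) ` (the second factor is `≥ 0`) `≥
  log ℓ (log n - log ℓ) - 2 log n`.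
-/

namespace Pool.Agent.Lib.Pe46137X

namespace NumRAux

theorem step {p m j : ℕ} (hj : j + 1 ≤ m) (hm : m ≤ p) :
    (p.choose j : ℝ) * (((p : ℝ) - m) / m) ≤ p.choose (j + 1) := by
  have h1 : ((p.choose (j + 1) : ℕ) : ℝ) * ((j : ℝ) + 1) = (p.choose j : ℝ) * ((p : ℝ) - j) := by
    have h2 := Nat.choose_succ_right_eq p j
    have h3 : ((p.choose (j + 1) * (j + 1) : ℕ) : ℝ) = ((p.choose j * (p - j) : ℕ) : ℝ) := by
      rw [h2]
    push_cast [Nat.cast_sub (show j ≤ p by omega)] at h3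
    exact h3
  have hm0 : (0 : ℝ) < m := by
    have : 0 < m := by omega
    exact_mod_cast this
  have hj0 : (0 : ℝ) < (j : ℝ) + 1 := by positivity
  have hjm : (j : ℝ) + 1 ≤ m := by exact_mod_cast hj
  have hmp : (m : ℝ) ≤ p := by exact_mod_cast hm
  have hc : (0 : ℝ) ≤ p.choose j := by positivity
  have h4 : (p.choose (j + 1) : ℝ) = (p.choose j : ℝ) * (((p : ℝ) - j) / ((j : ℝ) + 1)) := by
    field_simp
    linarith [h1]
  rw [h4]
  apply mul_le_mul_of_nonneg_left _ hc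
  rw [div_le_div_iff₀ hm0 hj0]
  nlinarith

theorem pow_step {p m : ℕ} (hm : m ≤ p) (a : ℕ) (ha : a ≤ m) :
    (p.choose (m - a) : ℝ) * (((p : ℝ) - m) / m) ^ a ≤ p.choose m := by
  induction a with
  | zero => simp
  | succ a ih =>
    have h1 := ih (by omega)
    have h2 := step (p := p) (m := m) (j := m - (a + 1)) (by omega) hm
    have e : m - (a + 1) + 1 = m - a := by omega
    rw [e] at h2
    have hmp : (m : ℝ) ≤ p := by exact_mod_cast hm
    have hr : 0 ≤ ((p : ℝ) - m) / m := div_nonneg (by linarith) (by positivity)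
    calc (p.choose (m - (a + 1)) : ℝ) * (((p : ℝ) - m) / m) ^ (a + 1)
        = ((p.choose (m - (a + 1)) : ℝ) * (((p : ℝ) - m) / m)) * (((p : ℝ) - m) / m) ^ a := by
          rw [pow_succ]; ring
      _ ≤ (p.choose (m - a) : ℝ) * (((p : ℝ) - m) / m) ^ a :=
          mul_le_mul_of_nonneg_right h2 (pow_nonneg hr _)
      _ ≤ _ := h1

end NumRAux

theorem num_rank : ∃ C : ℝ, 0 < C ∧ ∀ (n ℓ : ℕ) (x : ℝ), 2 ≤ n → 1 ≤ ℓ → ℓ ≤ n → 1 ≤ x →
    (∀ k p : ℕ, p + 2 ≤ n → 2 ^ k < p → 2 ^ k + 1 ≤ ℓ →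
      (p.choose (2 ^ k) : ℝ) ≤ x * p.choose (2 ^ k - k - 1)) →
    Real.logb 2 ℓ * (Real.logb 2 n - Real.logb 2 ℓ) - C * errTerm n ℓ ≤ Real.logb 2 x := by
  refine ⟨4, by norm_num, ?_⟩
  intro n ℓ x hn hℓ hℓn hx hyp
  have hnR : (2 : ℝ) ≤ n := by exact_mod_cast hn
  have hℓR : (1 : ℝ) ≤ ℓ := by exact_mod_cast hℓ
  have hℓnR : (ℓ : ℝ) ≤ n := by exact_mod_cast hℓn
  have hlogℓ : 0 ≤ Real.logb 2 ℓ := Real.logb_nonneg (by norm_num) hℓR
  have hlogn : 1 ≤ Real.logb 2 n := by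
    rw [Real.le_logb_iff_rpow_le (by norm_num) (by linarith)]
    simpa using hnR
  have hlogln : Real.logb 2 ℓ ≤ Real.logb 2 n :=
    Real.logb_le_logb_of_le (by norm_num) (by linarith) hℓnR
  have hloglog : 0 ≤ Real.logb 2 (Real.logb 2 n) := Real.logb_nonneg (by norm_num) hlogn
  have hlogx : 0 ≤ Real.logb 2 x := Real.logb_nonneg (by norm_num) hx
  have herr : Real.logb 2 n ≤ errTerm n ℓ := by
    rw [errTerm]
    nlinarith [mul_nonneg hlogℓ hloglog]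
  by_cases h8 : ℓ < 8
  · have h3 : Real.logb 2 ℓ ≤ 3 := by
      rw [Real.logb_le_iff_le_rpow (by norm_num) (by linarith)]
      calc (ℓ : ℝ) ≤ 8 := by exact_mod_cast h8.le
        _ = (2 : ℝ) ^ (3 : ℝ) := by norm_num
    nlinarith
  · push Not at h8
    obtain ⟨k, hk⟩ : ∃ k, Nat.log 2 ℓ = k + 2 := by
      have h1 : 3 ≤ Nat.log 2 ℓ := by
        rw [Nat.le_log_iff_pow_le (by norm_num) (by omega)]
        norm_num
        exact h8
      exact ⟨Nat.log 2 ℓ - 2, by omega⟩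
    have hkl : 2 ^ (k + 2) ≤ ℓ := by
      rw [← hk]
      exact Nat.pow_log_le_self 2 (by omega)
    have hku : ℓ < 2 ^ (k + 3) := by
      have := Nat.lt_pow_succ_log_self (b := 2) (by norm_num) ℓ
      rw [hk] at this
      exact this
    have hpow4 : 2 ^ (k + 2) = 4 * 2 ^ k := by ring
    have hk1 : k + 1 ≤ 2 ^ k := Nat.lt_two_pow_self
    have hmp : 2 ^ k < n - 2 := by omega
    have h1 := hyp k (n - 2) (by omega) hmp (by omega)
    have h2 := NumRAux.pow_step (p := n - 2) (m := 2 ^ k) hmp.le (k + 1) hk1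
    have e : 2 ^ k - k - 1 = 2 ^ k - (k + 1) := by omega
    rw [e] at h1
    have hpos : (0 : ℝ) < (n - 2).choose (2 ^ k - (k + 1)) := by
      have := Nat.choose_pos (show 2 ^ k - (k + 1) ≤ n - 2 by omega)
      exact_mod_cast this
    have h3 : ((((n - 2 : ℕ) : ℝ) - ((2 ^ k : ℕ) : ℝ)) / ((2 ^ k : ℕ) : ℝ)) ^ (k + 1) ≤ x := by
      have h4 := h2.trans h1
      rw [mul_comm x] at h4
      exact le_of_mul_le_mul_left h4 hpos
    have hkR : (4 : ℝ) * 2 ^ k ≤ n := by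
      have : 4 * 2 ^ k ≤ n := by omega
      exact_mod_cast this
    have h8R : (8 : ℝ) ≤ n := by exact_mod_cast (h8.trans hℓn)
    have hcast : ((n - 2 : ℕ) : ℝ) = (n : ℝ) - 2 := by
      rw [Nat.cast_sub hn]
      norm_num
    have h2k : (0 : ℝ) < 2 ^ k := by positivity
    have h5 : (n : ℝ) / 2 ^ (k + 2) ≤
        (((n - 2 : ℕ) : ℝ) - ((2 ^ k : ℕ) : ℝ)) / ((2 ^ k : ℕ) : ℝ) := by
      rw [hcast, Nat.cast_pow, Nat.cast_ofNat, div_le_div_iff₀ (by positivity) h2k, pow_add]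
      nlinarith
    have h6 : ((n : ℝ) / 2 ^ (k + 2)) ^ (k + 1) ≤ x :=
      (pow_le_pow_left₀ (by positivity) h5 _).trans h3
    have h7 : ((k : ℝ) + 1) * (Real.logb 2 n - (k + 2)) ≤ Real.logb 2 x := by
      have h8 : Real.logb 2 (((n : ℝ) / 2 ^ (k + 2)) ^ (k + 1)) ≤ Real.logb 2 x :=
        Real.logb_le_logb_of_le (by norm_num) (by positivity) h6
      rw [Real.logb_pow, Real.logb_div (by linarith) (by positivity), Real.logb_pow,
        Real.logb_self_eq_one (by norm_num)] at h8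
      push_cast at h8
      linarith
    have hlow : (k : ℝ) + 2 ≤ Real.logb 2 ℓ := by
      rw [Real.le_logb_iff_rpow_le (by norm_num) (by linarith)]
      have : ((2 ^ (k + 2) : ℕ) : ℝ) ≤ ℓ := by exact_mod_cast hkl
      have e2 : (2 : ℝ) ^ ((k : ℝ) + 2) = ((2 ^ (k + 2) : ℕ) : ℝ) := by
        have : ((k : ℝ) + 2) = ((k + 2 : ℕ) : ℝ) := by push_cast; ring
        rw [this, Real.rpow_natCast]
        push_cast
        ring
      rw [e2]
      exact this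
    have hup : Real.logb 2 ℓ ≤ (k : ℝ) + 3 := by
      rw [Real.logb_le_iff_le_rpow (by norm_num) (by linarith)]
      have : (ℓ : ℝ) ≤ ((2 ^ (k + 3) : ℕ) : ℝ) := by exact_mod_cast hku.le
      have e2 : (2 : ℝ) ^ ((k : ℝ) + 3) = ((2 ^ (k + 3) : ℕ) : ℝ) := by
        have : ((k : ℝ) + 3) = ((k + 3 : ℕ) : ℝ) := by push_cast; ring
        rw [this, Real.rpow_natCast]
        push_cast
        ring
      rw [e2]
      exact this
    have hk0 : (0 : ℝ) ≤ k := by positivity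
    have h9 : ((k : ℝ) + 1) * (Real.logb 2 n - Real.logb 2 ℓ) ≤
        ((k : ℝ) + 1) * (Real.logb 2 n - (k + 2)) :=
      mul_le_mul_of_nonneg_left (by linarith) (by linarith)
    have h10 : (Real.logb 2 ℓ - 2) * (Real.logb 2 n - Real.logb 2 ℓ) ≤
        ((k : ℝ) + 1) * (Real.logb 2 n - Real.logb 2 ℓ) :=
      mul_le_mul_of_nonneg_right (by linarith) (by linarith)
    nlinarith

end Pool.Agent.Lib.Pe46137X
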