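import Pool.Agent.Lib.Pe46137X.Seeds
import Pool.Agent.Lib.Pe46137X.Walks

/-!
Module Pe46137X.Build.  The formula: random milestones at every scale.  `Seeds.lean` and
`Walks.lean` are black boxes (`JoinedIn.shortest`, `JoinedIn.reflTransGen`).

* `orTree N f`: balanced disjunction of `f 0, …, f (2 ^ N - 1)`: value, depth, conjunction depth by
  induction.
* `bb h x i u v`: level `i` formula from `u` to `v`, milestones `x 0, …, x (h i - 1)`.
* soundness: if `bb h x i u v` holds on `G` then `v` is reachable from `u` (induction on `i`).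
* completeness, induction on `i ≤ K`: let `w 0, …, w r` be a walk of `G`, injective on `[0, r]`, `r < n`,
  such that for all `i' < K` every window `[a, a + om i')` with `a + om i' ≤ n` on which `w` is injective
  contains some `b` with `w b ∈ {x j : j < h i'}` (as in `exists_seeds`).  If `a ≤ b ≤ r` and
  `b - a ≤ lam q i` then `bb h x i (w a) (w b)` holds.  Step `i → i + 1`: if `b - a ≤ lam q i` use the
  disjunct number `0`.  Otherwise `lam q i < b - a ≤ lam q (i+1) = 2 lam q i + 1 - om q i`; the window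
  `[b - lam q i, b - lam q i + om q i)` lies in `[a, b]` and its elements `c` satisfy
  `c - a ≤ lam q i`, `b - c ≤ lam q i`: `b - lam + om - 1 - a ≤ lam` because `b - a ≤ 2 lam + 1 - om`.
* `lam_lower`: `2 ^ i * (4 q - i) ≤ 4 * q * lam q i` for `i ≤ 4 q`, `q ≥ 1`, by induction:
  `lam (i+1) = 2 lam i - lam i / (2q)`, so `2 q * lam (i+1) ≥ (4 q - 1) * lam i` and
  `(4q - i) (4q - 1) ≥ 4 q (4 q - i - 1)`.  Hence `lam q i ≥ 2 ^ (i-1)`, i.e. `2 ^ i ≤ 2 * lam q i`, for
  `i ≤ 2 q`.
* final: `q = Nat.clog 2 n`, `K = Nat.clog 2 ℓ + 1 ≤ q + 1 ≤ 2 q`, so `ℓ ≤ 2 ^ (K - 1) ≤ lam q K`.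
  `h i = hh n q i`, seeds `x τ` from `exists_seeds` with `om = om q`; the formula is
  `orTree (clog 2 (q n + 1)) (fun τ => if τ ≤ q n then bb (hh n q) (x τ) K s t else const false)`.
  A digraph with a walk of at most `ℓ` arcs has one with distinct vertices (`JoinedIn.shortest`), it has
  `r ≤ ℓ` arcs and `r < n`.  (The walk is a function `ℕ → Fin n`, use it as the `v` of
  `exists_seeds`.)
-/

namespace Pool.Agent.Lib.Pe46137X

open Pool.Agent.Lib.Pe46137 Finset

variable {V : Type}

/-- balanced disjunction of `f 0, …, f (2 ^ N - 1)` -/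
def orTree : ℕ → (ℕ → Formula V) → Formula V
  | 0, f => f 0
  | N + 1, f => Formula.or (orTree N f) (orTree N fun j => f (2 ^ N + j))

/-- lengths of walks treated at level `i` -/
def lam (q : ℕ) : ℕ → ℕ
  | 0 => 1
  | i + 1 => 2 * lam q i - lam q i / (2 * q)

/-- length of the windows that must contain a milestone -/
def om (q i : ℕ) : ℕ := lam q i / (2 * q) + 1

/-- number of milestones -/
def hh (n q i : ℕ) : ℕ := (2 * q + 1) * (n / om q i + 1)

open Classical in
/-- the formula of level `i` from `u` to `v` with milestones `x 0, …, x (h i - 1)` -/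
noncomputable def bb (h : ℕ → ℕ) (x : ℕ → V) : ℕ → V → V → Formula V
  | 0, u, v => if u = v then Formula.const true else Formula.arc u v
  | i + 1, u, v => orTree (Nat.clog 2 (h i + 1)) fun j =>
      if j = 0 then bb h x i u v
      else if j ≤ h i then Formula.and (bb h x i u (x (j - 1))) (bb h x i (x (j - 1)) v)
      else Formula.const false

/-- the depth of the formula -/
def dep (n ℓ : ℕ) : ℕ :=
  Nat.clog 2 (Nat.clog 2 n * n + 1) +
    ∑ i ∈ range (Nat.clog 2 ℓ + 1), (Nat.clog 2 (hh n (Nat.clog 2 n) i + 1) + 1)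

namespace BuildAux

theorem orTree_eval (N : ℕ) (f : ℕ → Formula V) (G : Set (V × V)) :
    (orTree N f).Eval G ↔ ∃ j < 2 ^ N, (f j).Eval G := by
  induction N generalizing f with
  | zero =>
    constructor
    · intro h
      exact ⟨0, by norm_num, h⟩
    · rintro ⟨j, hj, h⟩
      have : j = 0 := by simpa using hj
      subst this
      exact h
  | succ N ih =>
    constructor
    · rintro (h | h)
      · obtain ⟨j, hj, h⟩ := (ih f).1 h
        exact ⟨j, by rw [pow_succ]; omega, h⟩
      · obtain ⟨j, hj, h⟩ := (ih _).1 h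
        exact ⟨2 ^ N + j, by rw [pow_succ]; omega, h⟩
    · rintro ⟨j, hj, h⟩
      by_cases hlt : j < 2 ^ N
      · exact Or.inl ((ih f).2 ⟨j, hlt, h⟩)
      · refine Or.inr ((ih _).2 ⟨j - 2 ^ N, ?_, ?_⟩)
        · rw [pow_succ] at hj
          omega
        · have e : 2 ^ N + (j - 2 ^ N) = j := by omega
          rw [e]
          exact h

theorem orTree_depth (N : ℕ) (f : ℕ → Formula V) (D : ℕ) (h : ∀ j, (f j).depth ≤ D) :
    (orTree N f).depth ≤ D + N := by
  induction N generalizing f with
  | zero => exact h 0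
  | succ N ih =>
    have h1 := ih f h
    have h2 := ih (fun j => f (2 ^ N + j)) fun j => h _
    show max _ _ + 1 ≤ _
    have := max_le h1 h2
    omega

theorem orTree_andDepth (N : ℕ) (f : ℕ → Formula V) (D : ℕ) (h : ∀ j, (f j).andDepth ≤ D) :
    (orTree N f).andDepth ≤ D := by
  induction N generalizing f with
  | zero => exact h 0
  | succ N ih =>
    have h1 := ih f h
    have h2 := ih (fun j => f (2 ^ N + j)) fun j => h _
    exact max_le h1 h2

theorem bb_depth (h : ℕ → ℕ) (x : ℕ → V) (i : ℕ) (u v : V) :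
    (bb h x i u v).depth ≤ ∑ i' ∈ range i, (Nat.clog 2 (h i' + 1) + 1) := by
  induction i generalizing u v with
  | zero =>
    unfold bb
    split <;> simp [Formula.depth]
  | succ i ih =>
    rw [sum_range_succ]
    unfold bb
    refine (orTree_depth _ _ (∑ i' ∈ range i, (Nat.clog 2 (h i' + 1) + 1) + 1) ?_).trans (by omega)
    intro j
    split
    · exact (ih u v).trans (Nat.le_succ _)
    · split
      · show max _ _ + 1 ≤ _
        exact Nat.succ_le_succ (max_le (ih _ _) (ih _ _))
      · simp [Formula.depth]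

theorem bb_andDepth (h : ℕ → ℕ) (x : ℕ → V) (i : ℕ) (u v : V) :
    (bb h x i u v).andDepth ≤ i := by
  induction i generalizing u v with
  | zero =>
    unfold bb
    split <;> simp [Formula.andDepth]
  | succ i ih =>
    unfold bb
    refine orTree_andDepth _ _ _ ?_
    intro j
    split
    · exact (ih u v).trans (Nat.le_succ _)
    · split
      · show max _ _ + 1 ≤ _
        exact Nat.succ_le_succ (max_le (ih _ _) (ih _ _))
      · simp [Formula.andDepth]

theorem bb_sound (h : ℕ → ℕ) (x : ℕ → V) (G : Set (V × V)) (i : ℕ) (u v : V)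
    (he : (bb h x i u v).Eval G) : Relation.ReflTransGen (fun a b => (a, b) ∈ G) u v := by
  induction i generalizing u v with
  | zero =>
    unfold bb at he
    split at he
    · rename_i huv
      rw [huv]
    · exact Relation.ReflTransGen.single he
  | succ i ih =>
    unfold bb at he
    obtain ⟨j, _, hj⟩ := (orTree_eval _ _ _).1 he
    split at hj
    · exact ih u v hj
    · split at hj
      · exact (ih _ _ hj.1).trans (ih _ _ hj.2)
      · exact absurd hj (by simp [Formula.Eval])

theorem om_le (q i : ℕ) : om q i ≤ lam q i + 1 := by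
  unfold om
  have := Nat.div_le_self (lam q i) (2 * q)
  omega

theorem bb_complete {n q K : ℕ} (h : ℕ → ℕ) (x : ℕ → V) (G : Set (V × V)) (w : ℕ → V) (r : ℕ)
    (hr : r < n) (hinj : Set.InjOn w (Set.Iic r)) (hstep : ∀ j < r, (w j, w (j + 1)) ∈ G)
    (hwin : ∀ i < K, ∀ a, a + om q i ≤ n → Set.InjOn w (Set.Ico a (a + om q i)) →
      ∃ b, a ≤ b ∧ b < a + om q i ∧ ∃ j < h i, x j = w b) (i : ℕ) (hi : i ≤ K) :
    ∀ a b, a ≤ b → b ≤ r → b - a ≤ lam q i → (bb h x i (w a) (w b)).Eval G := by
  induction i with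
  | zero =>
    intro a b hab hbr hl
    unfold lam at hl
    unfold bb
    by_cases he : w a = w b
    · rw [if_pos he]
      rfl
    · rw [if_neg he]
      have hne : a ≠ b := fun e => he (by rw [e])
      have hb : b = a + 1 := by omega
      subst hb
      exact hstep a (by omega)
  | succ i ih =>
    intro a b hab hbr hl
    have ih' := ih (by omega)
    unfold bb
    rw [orTree_eval]
    by_cases hs : b - a ≤ lam q i
    · exact ⟨0, by positivity, by simpa using ih' a b hab hbr hs⟩
    · have hdl : lam q i / (2 * q) ≤ lam q i := Nat.div_le_self _ _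
      have hl' : b - a ≤ 2 * lam q i - lam q i / (2 * q) := hl
      have ho : om q i = lam q i / (2 * q) + 1 := rfl
      obtain ⟨c, hc1, hc2, j, hj, hjc⟩ := hwin i (by omega) (b - lam q i) (by omega)
        (hinj.mono (by
          intro c hc
          simp only [Set.mem_Ico] at hc
          simp only [Set.mem_Iic]
          omega))
      refine ⟨j + 1, ?_, ?_⟩
      · have := Nat.le_pow_clog (b := 2) (by norm_num) (h i + 1)
        omega
      · have h1 : ¬ (j + 1 = 0) := by omega
        have h2 : j + 1 ≤ h i := hj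
        simp only [h1, if_false, h2, if_true, Nat.add_sub_cancel]
        rw [hjc]
        exact ⟨ih' a c (by omega) (by omega) (by omega), ih' c b (by omega) (by omega) (by omega)⟩

theorem lam_lower {q : ℕ} (hq : 1 ≤ q) (i : ℕ) (hi : i ≤ 4 * q) :
    2 ^ i * (4 * q - i) ≤ 4 * q * lam q i := by
  induction i with
  | zero => simp [lam]
  | succ i ih =>
    have ih' := ih (by omega)
    obtain ⟨d, hd⟩ : ∃ d, 4 * q = i + 1 + d := ⟨4 * q - (i + 1), by omega⟩
    have e1 : 4 * q - i = d + 1 := by omega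
    have e2 : 4 * q - (i + 1) = d := by omega
    rw [e1] at ih'
    rw [e2]
    have hdl : lam q i / (2 * q) ≤ lam q i := Nat.div_le_self _ _
    have hdm : 2 * q * (lam q i / (2 * q)) ≤ lam q i := Nat.mul_div_le _ _
    have hl : lam q (i + 1) + lam q i / (2 * q) = 2 * lam q i := by
      show 2 * lam q i - lam q i / (2 * q) + _ = _
      omega
    set L := lam q i with hL
    set L' := lam q (i + 1) with hL'
    set D := L / (2 * q) with hD
    -- 2 q L' + L ≥ 4 q L
    have h1 : 4 * q * L ≤ 2 * q * L' + L := by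
      have : 2 * q * L' + 2 * q * D = 2 * q * (2 * L) := by rw [← mul_add, hl]
      nlinarith
    -- multiply by 4 q
    have h2 : 4 * q * (4 * q * L) ≤ 4 * q * (2 * q * L') + 4 * q * L := by
      have := Nat.mul_le_mul_left (4 * q) h1
      rw [mul_add] at this
      exact this
    have h3 : (4 * q - 1) * (4 * q * L) ≤ 4 * q * (2 * q * L') := by
      obtain ⟨e, he⟩ : ∃ e, 4 * q = e + 1 := ⟨4 * q - 1, by omega⟩
      have : 4 * q - 1 = e := by omega
      rw [this]
      have h4 : 4 * q * (4 * q * L) = e * (4 * q * L) + 4 * q * L := by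
        nth_rewrite 1 [he]
        ring
      omega
    have h5 : (4 * q - 1) * (2 ^ i * (d + 1)) ≤ 4 * q * (2 * q * L') :=
      (Nat.mul_le_mul_left _ ih').trans h3
    have h6 : 4 * q * (2 ^ i * d) ≤ (4 * q - 1) * (2 ^ i * (d + 1)) := by
      obtain ⟨e, he⟩ : ∃ e, 4 * q = e + 1 := ⟨4 * q - 1, by omega⟩
      have h7 : 4 * q - 1 = e := by omega
      have h8 : d ≤ e := by omega
      rw [h7, he]
      have : (e + 1) * (2 ^ i * d) = 2 ^ i * (e * d + d) := by ring
      rw [this]
      have : e * (2 ^ i * (d + 1)) = 2 ^ i * (e * d + e) := by ring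
      rw [this]
      exact Nat.mul_le_mul_left _ (by omega)
    have h9 : 2 * q * (2 ^ (i + 1) * d) ≤ 2 * q * (4 * q * L') := by
      have e3 : 2 * q * (2 ^ (i + 1) * d) = 4 * q * (2 ^ i * d) := by rw [pow_succ]; ring
      have e4 : 2 * q * (4 * q * L') = 4 * q * (2 * q * L') := by ring
      rw [e3, e4]
      exact h6.trans h5
    exact Nat.le_of_mul_le_mul_left h9 (by omega)

end BuildAux

open BuildAux

theorem two_pow_le_lam {q i : ℕ} (hq : 1 ≤ q) (hi : i ≤ 2 * q) : 2 ^ i ≤ 2 * lam q i := by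
  have h := lam_lower hq i (by omega)
  have h1 : 2 ^ i * (2 * q) ≤ 2 ^ i * (4 * q - i) := Nat.mul_le_mul_left _ (by omega)
  have h2 : 2 * q * 2 ^ i ≤ 2 * q * (2 * lam q i) := by
    calc 2 * q * 2 ^ i = 2 ^ i * (2 * q) := by ring
      _ ≤ 4 * q * lam q i := h1.trans h
      _ = 2 * q * (2 * lam q i) := by ring
  exact Nat.le_of_mul_le_mul_left h2 (by omega)

theorem exists_formula {n ℓ : ℕ} (hn : 2 ≤ n) (s t : Fin n) (h1 : 1 ≤ ℓ) (h2 : ℓ ≤ n) :
    ∃ F : Formula (Fin n), Separates F.Eval s t ℓ ∧ F.andDepth ≤ Nat.clog 2 ℓ + 1 ∧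
      F.depth ≤ dep n ℓ := by
  classical
  set q := Nat.clog 2 n with hq
  set K := Nat.clog 2 ℓ + 1 with hK
  have hq1 : 1 ≤ q := Nat.clog_pos (by norm_num) hn
  have hKq : K ≤ q + 1 := by
    have : Nat.clog 2 ℓ ≤ Nat.clog 2 n := Nat.clog_mono_right 2 h2
    omega
  have hnq : n ≤ 2 ^ q := Nat.le_pow_clog (by norm_num) n
  have hℓ : ℓ ≤ lam q K := by
    have h3 := two_pow_le_lam hq1 (show K ≤ 2 * q by omega)
    have h4 : ℓ ≤ 2 ^ Nat.clog 2 ℓ := Nat.le_pow_clog (by norm_num) ℓ
    rw [hK, pow_succ] at h3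
    rw [← hK] at h3
    omega
  obtain ⟨x, hx⟩ := exists_seeds n q K (by omega) hnq hKq (om q) (hh n q)
    (fun i _ => Nat.le_add_left 1 _) (fun i _ => le_rfl)
  refine ⟨orTree (Nat.clog 2 (q * n + 1)) (fun τ => if hτ : τ < q * n + 1 then
    bb (hh n q) (x ⟨τ, hτ⟩) K s t else Formula.const false), ⟨?_, ?_⟩, ?_, ?_⟩
  · intro G hG
    obtain ⟨r, hr, w, hw0, hwr, hst, hinj⟩ := JoinedIn.shortest hG
    have hrn : r < n := by
      have := Fintype.card_le_of_injective (fun i : Fin (r + 1) => w i) (fun i j hij => by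
        have := hinj (show (i : ℕ) ∈ Set.Iic r from Nat.lt_succ_iff.mp i.2)
          (show (j : ℕ) ∈ Set.Iic r from Nat.lt_succ_iff.mp j.2) hij
        exact Fin.ext this)
      simpa using this
    obtain ⟨τ, hτ⟩ := hx w
    rw [orTree_eval]
    refine ⟨τ, ?_, ?_⟩
    · exact lt_of_lt_of_le τ.2 (Nat.le_pow_clog (by norm_num) _)
    · rw [dif_pos τ.2]
      have := bb_complete (n := n) (q := q) (K := K) (hh n q) (x τ) G w r hrn hinj hst
        (fun i hi a ha hai => hτ i hi a ha hai) K le_rfl 0 r (Nat.zero_le _) le_rfl (by omega)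
      rw [hw0, hwr] at this
      exact this
  · intro G hG he
    apply hG
    obtain ⟨τ, _, hτ⟩ := (orTree_eval _ _ _).1 he
    split at hτ
    · exact bb_sound _ _ _ _ _ _ hτ
    · exact absurd hτ (by simp [Formula.Eval])
  · refine orTree_andDepth _ _ _ fun j => ?_
    split
    · exact bb_andDepth _ _ _ _ _
    · simp [Formula.andDepth]
  · unfold dep
    rw [← hq, ← hK]
    refine (orTree_depth _ _ (∑ i ∈ range K, (Nat.clog 2 (hh n q i + 1) + 1)) fun j => ?_).trans
      (add_comm _ _).le
    split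
    · exact bb_depth _ _ _ _ _
    · simp [Formula.depth]

end Pool.Agent.Lib.Pe46137X
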