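import Pool.Agent.Lib.Pe46137X.NumDefs
import Pool.Agent.Lib.Pe46137X.Build

/-!
Module Pe46137X.NumU.  The depth of the formula.  `Build.lean` is a black box (definitions `lam`,
`om`, `hh`, `dep`, and `two_pow_le_lam`).  (Any constant `C` will do.)

`q = Nat.clog 2 n`, `log n ≤ q ≤ log n + 1 ≤ 2 log n`, `K = Nat.clog 2 ℓ + 1`, `log ℓ + 1 ≤ K ≤ log ℓ + 2`,
`K ≤ q + 1 ≤ 2 q`.
`dep n ℓ = clog (q n + 1) + ∑_{i<K} (1 + clog (hh n q i + 1))`.
* `clog (q n + 1) ≤ log (q n + 1) + 1 ≤ 2 log n + 4` or so.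
* `i < K`: `2 ^ i ≤ 2 lam q i`, so `om q i ≥ lam q i / (2 q) ≥ 2 ^ i / (4 q)` (real division; `om` is
  floor plus one), `n / om q i + 1 ≤ 4 q n / 2 ^ i + 1 ≤ 8 q n / 2 ^ i` (as `2 ^ i ≤ 2 ^ (K-1) ≤ 2 ℓ ≤
  2 n`), `hh + 1 ≤ (2 q + 2) * 8 q n / 2 ^ i ≤ 32 q ^ 2 n / 2 ^ i`, so
  `clog (hh + 1) + 1 ≤ log n - i + 2 log q + 7`.
* Sum over `i < K`: `K log n - K (K-1) / 2 + K (2 log q + 7)`, with `K ≤ log ℓ + 2`,
  `K (K - 1) ≥ (log ℓ + 1) * log ℓ`, `log q ≤ 1 + log log n`:  at most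
  `log ℓ log n + 2 log n - (log ℓ) ^ 2 / 2 + (log ℓ + 2) (2 log log n + 9)`.
  Here `log log n ≤ log n` and `log ℓ ≤ log n`, `1 ≤ log n`.
-/

namespace Pool.Agent.Lib.Pe46137X

namespace NumUAux

theorem logb_nonneg_nat {n : ℕ} (h : 1 ≤ n) : 0 ≤ Real.logb 2 n :=
  Real.logb_nonneg (by norm_num) (by exact_mod_cast h)

theorem one_le_logb {n : ℕ} (h : 2 ≤ n) : 1 ≤ Real.logb 2 n := by
  have h2 : Real.logb 2 2 ≤ Real.logb 2 n :=
    Real.logb_le_logb_of_le (by norm_num) (by norm_num) (by exact_mod_cast h)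
  rwa [Real.logb_self_eq_one (by norm_num)] at h2

theorem two_pow_clog_le {m : ℕ} (hm : 1 ≤ m) : 2 ^ Nat.clog 2 m ≤ 2 * m := by
  rcases Nat.lt_or_ge 1 m with h | h
  · have h1 := Nat.pow_pred_clog_lt_self (b := 2) (by norm_num) h
    have h2 : 0 < Nat.clog 2 m := Nat.clog_pos (by norm_num) h
    obtain ⟨c, hc⟩ : ∃ c, Nat.clog 2 m = c + 1 := ⟨Nat.clog 2 m - 1, by omega⟩
    rw [hc] at h1 ⊢
    rw [Nat.pred_succ] at h1
    rw [pow_succ]; omega
  · have : m = 1 := by omega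
    subst this
    simp

theorem clog_le {m : ℕ} {y : ℝ} (hm : 1 ≤ m) (hy : (m : ℝ) ≤ y) :
    (Nat.clog 2 m : ℝ) ≤ Real.logb 2 y + 1 := by
  have h1 : ((2 : ℝ) ^ Nat.clog 2 m) ≤ 2 * y := by
    have : ((2 ^ Nat.clog 2 m : ℕ) : ℝ) ≤ ((2 * m : ℕ) : ℝ) := by exact_mod_cast two_pow_clog_le hm
    push_cast at this
    linarith
  have hy0 : 0 < y := by
    have : (0 : ℝ) < m := by exact_mod_cast hm
    linarith
  have h2 := Real.logb_le_logb_of_le (b := 2) (by norm_num) (by positivity) h1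
  rw [Real.logb_pow, Real.logb_self_eq_one (by norm_num), Real.logb_mul (by norm_num) hy0.ne',
    Real.logb_self_eq_one (by norm_num)] at h2
  linarith

theorem le_clog {m : ℕ} (hm : 1 ≤ m) : Real.logb 2 m ≤ (Nat.clog 2 m : ℝ) := by
  have h1 : (m : ℝ) ≤ (2 : ℝ) ^ Nat.clog 2 m := by
    exact_mod_cast Nat.le_pow_clog (by norm_num : 1 < 2) m
  have h2 := Real.logb_le_logb_of_le (b := 2) (by norm_num) (by exact_mod_cast hm) h1
  rwa [Real.logb_pow, Real.logb_self_eq_one (by norm_num), mul_one] at h2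

theorem logb_le_self {y : ℝ} (hy : 1 ≤ y) : Real.logb 2 y ≤ y := by
  have h1 : y ≤ (2 : ℝ) ^ (⌊y⌋₊ : ℕ) := by
    have h3 : (⌊y⌋₊ : ℕ) + 1 ≤ 2 ^ (⌊y⌋₊ : ℕ) := Nat.lt_two_pow_self
    have h2 : y ≤ (⌊y⌋₊ : ℝ) + 1 := (Nat.lt_floor_add_one y).le
    have h4 : ((⌊y⌋₊ : ℕ) : ℝ) + 1 ≤ (2 : ℝ) ^ (⌊y⌋₊ : ℕ) := by exact_mod_cast h3
    linarith
  have h2 := Real.logb_le_logb_of_le (b := 2) (by norm_num) (by linarith) h1
  rw [Real.logb_pow, Real.logb_self_eq_one (by norm_num), mul_one] at h2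
  exact h2.trans (Nat.floor_le (by linarith))

/-- one level -/
theorem level {n ℓ i q : ℕ} (hn : 2 ≤ n) (hℓ : 1 ≤ ℓ) (hℓn : ℓ ≤ n) (hq : q = Nat.clog 2 n)
    (hi : i < Nat.clog 2 ℓ + 1) :
    (Nat.clog 2 (hh n q i + 1) : ℝ) + 1 ≤
      Real.logb 2 n - i + (2 * Real.logb 2 q + 7) := by
  have hq1 : 1 ≤ q := by
    rw [hq]; exact Nat.clog_pos (by norm_num) hn
  have hcl : Nat.clog 2 ℓ ≤ q := by
    rw [hq]; exact Nat.clog_mono_right 2 hℓn
  have hlam := two_pow_le_lam (q := q) (i := i) hq1 (by omega)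
  have hqr : (1 : ℝ) ≤ q := by exact_mod_cast hq1
  have hq0 : (0 : ℝ) < q := by linarith
  have hnr : (0 : ℝ) < n := by
    have : 0 < n := by omega
    exact_mod_cast this
  have hp0 : (0 : ℝ) < 2 ^ i := by positivity
  -- om
  have hom : (2 : ℝ) ^ i ≤ 4 * q * (om q i : ℝ) := by
    have h1 : lam q i < (2 * q) * (lam q i / (2 * q) + 1) := by
      have := Nat.lt_mul_div_succ (lam q i) (show 0 < 2 * q by omega)
      exact this
    have h2 : 2 ^ i ≤ 4 * q * om q i := by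
      unfold om
      calc 2 ^ i ≤ 2 * lam q i := hlam
        _ ≤ 2 * ((2 * q) * (lam q i / (2 * q) + 1)) := Nat.mul_le_mul_left 2 h1.le
        _ = 4 * q * (lam q i / (2 * q) + 1) := by ring
    exact_mod_cast h2
  have hom0 : (0 : ℝ) < (om q i : ℝ) := by
    have : 0 < om q i := Nat.succ_pos _
    exact_mod_cast this
  have h2i : (2 : ℝ) ^ i ≤ 2 * n := by
    have h1 : 2 ^ i ≤ 2 * n := by
      calc 2 ^ i ≤ 2 ^ Nat.clog 2 ℓ := Nat.pow_le_pow_right (by norm_num) (by omega)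
        _ ≤ 2 * ℓ := two_pow_clog_le hℓ
        _ ≤ 2 * n := Nat.mul_le_mul_left 2 hℓn
    exact_mod_cast h1
  set A : ℝ := 8 * q * n / 2 ^ i with hA
  have hA1 : 1 ≤ A := by
    rw [hA, le_div_iff₀ hp0, one_mul]
    nlinarith
  have hdiv : ((n / om q i : ℕ) : ℝ) + 1 ≤ A := by
    have h1 : ((n / om q i : ℕ) : ℝ) ≤ (n : ℝ) / om q i := Nat.cast_div_le
    have h2 : (n : ℝ) / om q i ≤ 4 * q * n / 2 ^ i := by
      rw [div_le_div_iff₀ hom0 hp0]
      nlinarith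
    have h3 : (1 : ℝ) ≤ 4 * q * n / 2 ^ i := by
      rw [le_div_iff₀ hp0, one_mul]
      nlinarith
    have h4 : A = 4 * q * n / 2 ^ i + 4 * q * n / 2 ^ i := by
      rw [hA]; ring
    rw [h4]
    linarith
  have hh1 : ((hh n q i + 1 : ℕ) : ℝ) ≤ 4 * q * A := by
    unfold hh
    push_cast
    have h1 : (2 * (q : ℝ) + 1) * (((n / om q i : ℕ) : ℝ) + 1) ≤ (2 * q + 1) * A :=
      mul_le_mul_of_nonneg_left hdiv (by positivity)
    have h2 : (2 * (q : ℝ) + 1) * A + 1 ≤ 4 * q * A := by nlinarith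
    linarith
  have h3 := clog_le (m := hh n q i + 1) (by omega) hh1
  have h5 : Real.logb 2 (4 * q * A) = 5 + 2 * Real.logb 2 q + Real.logb 2 n - i := by
    have e1 : 4 * (q : ℝ) * A = 32 * q ^ 2 * n / 2 ^ i := by rw [hA]; ring
    rw [e1, Real.logb_div (by positivity) (by positivity), Real.logb_mul (by positivity) hnr.ne',
      Real.logb_mul (by norm_num) (by positivity), Real.logb_pow, Real.logb_pow,
      show (32 : ℝ) = 2 ^ 5 by norm_num, Real.logb_pow, Real.logb_self_eq_one (by norm_num)]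
    push_cast
    ring
  rw [h5] at h3
  linarith

end NumUAux

theorem num_upper : ∃ C : ℝ, 0 < C ∧ ∀ n ℓ : ℕ, 2 ≤ n → 1 ≤ ℓ → ℓ ≤ n →
    (dep n ℓ : ℝ) ≤ mainTerm n ℓ + C * errTerm n ℓ := by
  refine ⟨38, by norm_num, fun n ℓ hn hℓ hℓn => ?_⟩
  set N := Real.logb 2 n with hN
  set W := Real.logb 2 ℓ with hW
  set LL := Real.logb 2 N with hLL
  set q := Nat.clog 2 n with hq
  set K := Nat.clog 2 ℓ + 1 with hK
  have hnr : (2 : ℝ) ≤ n := by exact_mod_cast hn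
  have hℓr : (1 : ℝ) ≤ ℓ := by exact_mod_cast hℓ
  have hN1 : 1 ≤ N := NumUAux.one_le_logb hn
  have hW0 : 0 ≤ W := NumUAux.logb_nonneg_nat hℓ
  have hLL0 : 0 ≤ LL := Real.logb_nonneg (by norm_num) hN1
  have hWN : W ≤ N :=
    Real.logb_le_logb_of_le (by norm_num) (by linarith) (by exact_mod_cast hℓn)
  have hLLN : LL ≤ N := NumUAux.logb_le_self hN1
  have hNn : N ≤ n := NumUAux.logb_le_self (by linarith)
  have hq1 : 1 ≤ q := by rw [hq]; exact Nat.clog_pos (by norm_num) hn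
  have hqr : (1 : ℝ) ≤ q := by exact_mod_cast hq1
  have hqN : (q : ℝ) ≤ 2 * N := by
    have := NumUAux.clog_le (m := n) (y := n) (by omega) le_rfl
    linarith
  have hlq : Real.logb 2 q ≤ 1 + LL := by
    have h1 := Real.logb_le_logb_of_le (b := 2) (by norm_num) (by linarith) hqN
    rwa [Real.logb_mul (by norm_num) (by linarith), Real.logb_self_eq_one (by norm_num)] at h1
  have hKW : (K : ℝ) ≤ W + 2 := by
    have := NumUAux.clog_le (m := ℓ) (y := ℓ) hℓ le_rfl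
    rw [hK]; push_cast; linarith
  have hWK : W + 1 ≤ (K : ℝ) := by
    have := NumUAux.le_clog hℓ
    rw [hK]; push_cast; linarith
  -- first term
  have hfirst : (Nat.clog 2 (q * n + 1) : ℝ) ≤ 5 * N := by
    have h1 : ((q * n + 1 : ℕ) : ℝ) ≤ 4 * (n : ℝ) ^ 2 := by
      push_cast
      have h2 : (q : ℝ) * n ≤ 2 * n * n := by
        refine mul_le_mul_of_nonneg_right ?_ (by linarith)
        linarith
      nlinarith
    have h2 := NumUAux.clog_le (m := q * n + 1) (by omega) h1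
    rw [Real.logb_mul (by norm_num) (by positivity), Real.logb_pow,
      show (4 : ℝ) = 2 ^ 2 by norm_num, Real.logb_pow, Real.logb_self_eq_one (by norm_num)] at h2
    push_cast at h2
    linarith
  -- the sum
  have hsum : (∑ i ∈ Finset.range K, ((Nat.clog 2 (hh n q i + 1) : ℝ) + 1)) ≤
      K * N - K * (K - 1) / 2 + K * (2 * LL + 9) := by
    have hterm : ∀ i ∈ Finset.range K, (Nat.clog 2 (hh n q i + 1) : ℝ) + 1 ≤
        (N + (2 * LL + 9)) - i := by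
      intro i hi
      have := NumUAux.level hn hℓ hℓn hq (Finset.mem_range.1 hi)
      linarith
    have hid : ∑ i ∈ Finset.range K, ((i : ℕ) : ℝ) = K * (K - 1) / 2 := by
      have : ∀ m : ℕ, ∑ i ∈ Finset.range m, ((i : ℕ) : ℝ) = m * (m - 1) / 2 := by
        intro m
        induction m with
        | zero => simp
        | succ m ih => rw [Finset.sum_range_succ, ih]; push_cast; ring
      exact this K
    calc (∑ i ∈ Finset.range K, ((Nat.clog 2 (hh n q i + 1) : ℝ) + 1))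
        ≤ ∑ i ∈ Finset.range K, ((N + (2 * LL + 9)) - (i : ℝ)) := Finset.sum_le_sum hterm
      _ = K * N - K * (K - 1) / 2 + K * (2 * LL + 9) := by
          rw [Finset.sum_sub_distrib, hid, Finset.sum_const, Finset.card_range, nsmul_eq_mul]
          ring
  have hdep : (dep n ℓ : ℝ) = (Nat.clog 2 (q * n + 1) : ℝ) +
      ∑ i ∈ Finset.range K, ((Nat.clog 2 (hh n q i + 1) : ℝ) + 1) := by
    unfold dep
    push_cast
    rfl
  rw [hdep]
  unfold mainTerm errTerm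
  rw [← hN, ← hW, ← hLL]
  have p1 : (K : ℝ) * N ≤ (W + 2) * N := mul_le_mul_of_nonneg_right hKW (by linarith)
  have p2 : (W + 1) * W ≤ (K : ℝ) * (K - 1) := by
    refine mul_le_mul hWK (by linarith) hW0 (by linarith)
  have p3 : (K : ℝ) * (2 * LL + 9) ≤ (W + 2) * (2 * LL + 9) :=
    mul_le_mul_of_nonneg_right hKW (by linarith)
  have p4 : 0 ≤ W * LL := mul_nonneg hW0 hLL0
  nlinarith [hfirst, hsum, p1, p2, p3, p4]

end Pool.Agent.Lib.Pe46137X
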