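import Pool.Agent.Lib.Pe46137X.Poly
import Mathlib.LinearAlgebra.Finsupp.LinearCombination

/-!
Module Pe46137X.RankN.  Number of states alone, by a rank argument.  `Peb.lean`, `Poly.lean`,
`Walks.lean` are black boxes (it may be convenient to copy the proof idea of `Poly.psi_eq_aa`).

Setting: `p + 2 ≤ n`, `v : Fin p → Fin n` injective, avoiding `s`, `t`.  For a permutation `π` of
`Fin p` the path runs through `s`, `v (π j)` for the positions `j = 1, …, 2 ^ k`, `t`.  A cut is a set
`C : Finset (Fin p)`; its digraph `gY C` has all arcs that do not leave `{s} ∪ v '' C`.  It has no walk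
from `s` to `t`.
For a state `a` let `R a C = 1` if `a` is connected to the source on `gY C`, else `0`; `R source = 1`,
`R sink = 0`.
Let `D T C = 1` if `C ∩ T = ∅`, else `0` (`T : Finset (Fin p)`).  For `π` put, with `pos = pos k p`,
`M π C = ∑ U ∈ conf k p, (-1) ^ |U| * D (π (pos \ U)) C`.
(1) If `C` is crossed by arc `i` of the path, `i < 2 ^ k` (position `i` is in `C` or `i = 0`, position
`i + 1` is not in `C`), then `M π C = (-1) ^ k * ∑ W ∈ top k p i, D (π (pos \ W)) C`; if position `2 ^ k` is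
in `C` then `M π C = 0`.  Same proof as `psi_eq_aa`: in fact, with `z j = -1` if `π j ∈ C`, else `1`,
`D (π (pos \ U)) C = ∏ j ∈ pos \ U, (1 + z j) / 2`, so
`(∏ j ∈ pos, z j) * psi k z = ∑ U, (-2) ^ |U| * ∏_{pos \ U} z * ∏_{pos \ U} (1 + z)
= ∑ U, (-2) ^ |U| * ∏_{pos \ U} (1 + z) = 2 ^ (2 ^ k) * M π C` (as `z * (1 + z) = 1 + z` for `z = ±1`,
`|pos| = 2 ^ k`), and likewise for `aa`: `(∏_{pos} z) * aa k i z = 2 * (-2) ^ k * ∑ W ∈ top,
∏_{pos \ W} (1 + z) = 2 ^ (2 ^ k) * (-1) ^ k * ∑ W ∈ top, D (π (pos \ W)) C` (`|W| = k + 1`,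
`2 * (-2) ^ k * 2 ^ (2 ^ k - (k + 1)) = (-1) ^ k * 2 ^ (2 ^ k)`).  So (1) follows from `psi_eq_aa`,
`psi_last`.
(2) Let `Z` be the span of the functions `C ↦ D T C * R a C`, `|T| = 2 ^ k - k - 1`, `a` a state;
`finrank Z ≤ C(p, 2 ^ k - k - 1) * |W|`.  `M π ∈ Z`: the path digraph `gP` satisfies `Within .. (2^k+1)`, so
`Relation.EqvGen (N.Closed gP gPᶜ) source sink`; by induction over `EqvGen`, `C ↦ M π C * (R a C - R b C)`
is in `Z` whenever `a`, `b` are joined: a wire gives `0`; a contact labelled by arc `i` of the path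
changes `R` only at cuts crossed by that arc, where (1) applies.  With `a = source`, `b = sink`:
`M π ∈ Z`.
(3) For each `T` with `|T| = 2 ^ k` choose `π_T` with `π_T (pos) = T`.  The functions `M π_T` are linearly
independent: the functional `f ↦ ∑ C ⊆ T, (-1) ^ |C| * f C` sends `D T'` to `1` if `T ⊆ T'`, else `0`
(`Finset.sum_powerset_neg_one_pow_card`), hence `M π_{T'}` to `1` if `T' = T` and `0` otherwise (the
sets `π (pos \ U)`, `U ≠ ∅`, are too small).
So `C(p, 2 ^ k) ≤ finrank Z`.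
-/

namespace Pool.Agent.Lib.Pe46137X

open Pool.Agent.Lib.Pe46137 Finset

namespace RankNAux

/-- indicator of the cuts `C` that miss `T` -/
noncomputable def D {p : ℕ} (T C : Finset (Fin p)) : ℝ := if Disjoint C T then 1 else 0

/-- the signs -/
noncomputable def sg {p : ℕ} (π : Equiv.Perm (Fin p)) (C : Finset (Fin p)) (j : Fin p) : ℝ :=
  if π j ∈ C then -1 else 1

theorem sg_mul {p : ℕ} (π : Equiv.Perm (Fin p)) (C : Finset (Fin p)) (j : Fin p) :
    sg π C j * sg π C j = 1 := by
  unfold sg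
  split_ifs <;> norm_num

theorem sg_mul_one_add {p : ℕ} (π : Equiv.Perm (Fin p)) (C : Finset (Fin p)) (j : Fin p) :
    sg π C j * (1 + sg π C j) = 1 + sg π C j := by
  unfold sg
  split_ifs <;> norm_num

theorem card_pos {k p : ℕ} (hk : 2 ^ k < p) : (pos k p).card = 2 ^ k := by
  have h1 : (pos k p).map Fin.valEmbedding = Finset.Icc 1 (2 ^ k) := by
    ext x
    simp only [pos, Finset.mem_map, Finset.mem_filter, Finset.mem_univ, true_and,
      Fin.valEmbedding_apply, Finset.mem_Icc]
    constructor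
    · rintro ⟨a, ha, rfl⟩
      exact ha
    · intro hx
      exact ⟨⟨x, by omega⟩, hx, rfl⟩
  rw [← Finset.card_map Fin.valEmbedding, h1, Nat.card_Icc, Nat.add_sub_cancel]

theorem key {k p : ℕ} (hk : 2 ^ k < p) (π : Equiv.Perm (Fin p)) (C : Finset (Fin p))
    {V : Finset (Fin p)} (hV : V ⊆ pos k p) :
    (∏ j ∈ pos k p, sg π C j) * ((∏ j ∈ V, sg π C j) * ∏ j ∈ pos k p \ V, (1 + sg π C j)) =
      2 ^ (2 ^ k - V.card) * D ((pos k p \ V).map π.toEmbedding) C := by
  have h1 := Finset.prod_sdiff (f := sg π C) hV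
  have h2 : (∏ j ∈ V, sg π C j) * (∏ j ∈ V, sg π C j) = 1 := by
    rw [← Finset.prod_mul_distrib]
    exact Finset.prod_eq_one fun j _ => sg_mul π C j
  have h3 : (∏ j ∈ pos k p \ V, sg π C j) * (∏ j ∈ pos k p \ V, (1 + sg π C j)) =
      ∏ j ∈ pos k p \ V, (1 + sg π C j) := by
    rw [← Finset.prod_mul_distrib]
    exact Finset.prod_congr rfl fun j _ => sg_mul_one_add π C j
  have h4 : ∏ j ∈ pos k p \ V, (1 + sg π C j) =
      2 ^ (2 ^ k - V.card) * D ((pos k p \ V).map π.toEmbedding) C := by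
    by_cases hd : Disjoint C ((pos k p \ V).map π.toEmbedding)
    · have h5 : ∀ j ∈ pos k p \ V, (1 + sg π C j) = 2 := by
        intro j hj
        have : π j ∉ C := by
          intro hC
          exact Finset.disjoint_left.mp hd hC (Finset.mem_map_of_mem π.toEmbedding hj)
        rw [sg, if_neg this]
        norm_num
      rw [Finset.prod_congr rfl h5, Finset.prod_const, Finset.card_sdiff_of_subset hV, card_pos hk,
        D, if_pos hd, mul_one]
    · rw [D, if_neg hd, mul_zero]
      rw [Finset.not_disjoint_iff] at hd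
      obtain ⟨x, hx, hx'⟩ := hd
      obtain ⟨j, hj, rfl⟩ := Finset.mem_map.mp hx'
      refine Finset.prod_eq_zero hj ?_
      have : π j ∈ C := hx
      rw [sg, if_pos this]
      norm_num
  rw [← h4, ← h1]
  calc (∏ j ∈ pos k p \ V, sg π C j) * (∏ j ∈ V, sg π C j) *
        ((∏ j ∈ V, sg π C j) * ∏ j ∈ pos k p \ V, (1 + sg π C j))
      = ((∏ j ∈ V, sg π C j) * (∏ j ∈ V, sg π C j)) * ((∏ j ∈ pos k p \ V, sg π C j) *
        ∏ j ∈ pos k p \ V, (1 + sg π C j)) := by ring
    _ = _ := by rw [h2, h3, one_mul]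

/-- the matrix -/
noncomputable def MM (k : ℕ) {p : ℕ} (π : Equiv.Perm (Fin p)) (C : Finset (Fin p)) : ℝ :=
  ∑ U ∈ conf k p, (-1) ^ U.card * D ((pos k p \ U).map π.toEmbedding) C

/-- the matrices of the arcs -/
noncomputable def AA (k i : ℕ) {p : ℕ} (π : Equiv.Perm (Fin p)) (C : Finset (Fin p)) : ℝ :=
  (-1) ^ k * ∑ U ∈ top k p i, D ((pos k p \ U).map π.toEmbedding) C

theorem MM_psi {k p : ℕ} (hk : 2 ^ k < p) (π : Equiv.Perm (Fin p)) (C : Finset (Fin p)) :
    (∏ j ∈ pos k p, sg π C j) * psi k (sg π C) = 2 ^ (2 ^ k) * MM k π C := by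
  rw [psi, MM, Finset.mul_sum, Finset.mul_sum]
  refine Finset.sum_congr rfl fun U hU => ?_
  have hV := conf_subset_pos hU
  have hc : U.card ≤ 2 ^ k := by
    rw [← card_pos hk]
    exact Finset.card_le_card hV
  have e1 : (∏ j ∈ pos k p, sg π C j) * ((-2) ^ U.card * (∏ j ∈ U, sg π C j) *
      ∏ j ∈ pos k p \ U, (1 + sg π C j)) = (-2) ^ U.card * ((∏ j ∈ pos k p, sg π C j) *
      ((∏ j ∈ U, sg π C j) * ∏ j ∈ pos k p \ U, (1 + sg π C j))) := by ring
  rw [e1, key hk π C hV]
  have e2 : (2 : ℝ) ^ (2 ^ k) = 2 ^ U.card * 2 ^ (2 ^ k - U.card) := by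
    rw [← pow_add]
    congr 1
    omega
  have e3 : (-2 : ℝ) ^ U.card = (-1) ^ U.card * 2 ^ U.card := by
    rw [← mul_pow]
    norm_num
  rw [e2, e3]
  ring

theorem AA_aa {k p : ℕ} (i : ℕ) (hk : 2 ^ k < p) (π : Equiv.Perm (Fin p)) (C : Finset (Fin p)) :
    (∏ j ∈ pos k p, sg π C j) * aa k i (sg π C) = 2 ^ (2 ^ k) * AA k i π C := by
  have e0 : (∏ j ∈ pos k p, sg π C j) * aa k i (sg π C) = 2 * (-2) ^ k * ∑ W ∈ top k p i,
      (∏ j ∈ pos k p, sg π C j) * ((∏ j ∈ W, sg π C j) * ∏ j ∈ pos k p \ W, (1 + sg π C j)) := by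
    rw [aa, ← Finset.mul_sum]
    ring
  have e1 : 2 ^ (2 ^ k) * AA k i π C = ∑ W ∈ top k p i, (2 ^ (2 ^ k) * (-1) ^ k *
      D ((pos k p \ W).map π.toEmbedding) C) := by
    rw [AA, ← Finset.mul_sum]
    ring
  rw [e0, e1, Finset.mul_sum]
  refine Finset.sum_congr rfl fun W hW => ?_
  have hV := top_subset_pos hW
  have hc := top_card hW
  have hc' : k + 1 ≤ 2 ^ k := by
    rw [← hc, ← card_pos hk]
    exact Finset.card_le_card hV
  rw [key hk π C hV, hc]
  have e2 : (2 : ℝ) ^ (2 ^ k) = 2 ^ (k + 1) * 2 ^ (2 ^ k - (k + 1)) := by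
    rw [← pow_add]
    congr 1
    omega
  have e3 : (-2 : ℝ) ^ k = (-1) ^ k * 2 ^ k := by
    rw [← mul_pow]
    norm_num
  rw [e2, e3]
  ring

/-- the product of the signs is not zero -/
theorem prod_ne {k p : ℕ} (π : Equiv.Perm (Fin p)) (C : Finset (Fin p)) :
    (∏ j ∈ pos k p, sg π C j) ≠ 0 := by
  rw [Finset.prod_ne_zero_iff]
  intro j _ h0
  have := sg_mul π C j
  rw [h0] at this
  norm_num at this

theorem MM_eq_AA {k p i : ℕ} (hk : 2 ^ k < p) (hi : i < 2 ^ k) (π : Equiv.Perm (Fin p))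
    (C : Finset (Fin p)) (h0 : i = 0 ∨ ∀ j : Fin p, j.val = i → π j ∈ C)
    (h1 : ∀ j : Fin p, j.val = i + 1 → π j ∉ C) : MM k π C = AA k i π C := by
  have h := psi_eq_aa hk hi (sg π C)
    (h0.imp id fun h j hj => by rw [sg, if_pos (h j hj)])
    (fun j hj => by rw [sg, if_neg (h1 j hj)])
  have e := MM_psi hk π C
  rw [h, AA_aa i hk π C] at e
  exact (mul_left_cancel₀ (by positivity) e).symm

theorem MM_last {k p : ℕ} (hk : 2 ^ k < p) (π : Equiv.Perm (Fin p))
    (C : Finset (Fin p)) (h : ∀ j : Fin p, j.val = 2 ^ k → π j ∈ C) : MM k π C = 0 := by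
  have h0 := psi_last hk (sg π C) (fun j hj => by rw [sg, if_pos (h j hj)])
  have e := MM_psi hk π C
  rw [h0, mul_zero] at e
  rcases mul_eq_zero.mp e.symm with h2 | h2
  · exact absurd h2 (by positivity)
  · exact h2

/-- the functional -/
theorem functional {p : ℕ} (T T' : Finset (Fin p)) :
    ∑ C ∈ T.powerset, (-1 : ℝ) ^ C.card * D T' C = if T ⊆ T' then 1 else 0 := by
  have h1 : ∑ C ∈ T.powerset, (-1 : ℝ) ^ C.card * D T' C =
      ∑ C ∈ (T \ T').powerset, (-1 : ℝ) ^ C.card := by
    have h2 : (T \ T').powerset = T.powerset.filter fun C => Disjoint C T' := by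
      ext C
      simp only [Finset.mem_powerset, Finset.mem_filter, Finset.subset_sdiff]
    rw [h2, Finset.sum_filter]
    refine Finset.sum_congr rfl fun C _ => ?_
    unfold D
    split_ifs <;> simp
  have h3 := Finset.sum_powerset_neg_one_pow_card (x := T \ T')
  have h4 : ∑ C ∈ (T \ T').powerset, (-1 : ℝ) ^ C.card =
      ((∑ C ∈ (T \ T').powerset, (-1 : ℤ) ^ C.card : ℤ) : ℝ) := by
    push_cast
    rfl
  rw [h1, h4, h3]
  by_cases h5 : T ⊆ T'
  · rw [if_pos (Finset.sdiff_eq_empty_iff_subset.mpr h5), if_pos h5]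
    norm_num
  · rw [if_neg (fun h => h5 (Finset.sdiff_eq_empty_iff_subset.mp h)), if_neg h5]
    norm_num

theorem empty_mem_conf (k p : ℕ) : (∅ : Finset (Fin p)) ∈ conf k p := by
  simp only [conf, Finset.mem_filter, Finset.mem_univ, true_and, Finset.map_empty]
  exact Reach.empty

theorem functional_MM {k p : ℕ} (hk : 2 ^ k < p) (π : Equiv.Perm (Fin p)) (T : Finset (Fin p))
    (hT : T.card = 2 ^ k) :
    ∑ C ∈ T.powerset, (-1 : ℝ) ^ C.card * MM k π C =
      if T = (pos k p).map π.toEmbedding then 1 else 0 := by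
  have h1 : ∑ C ∈ T.powerset, (-1 : ℝ) ^ C.card * MM k π C =
      ∑ U ∈ conf k p, (-1) ^ U.card *
        (if T ⊆ (pos k p \ U).map π.toEmbedding then 1 else 0) := by
    have h2 : ∀ C, (-1 : ℝ) ^ C.card * MM k π C = ∑ U ∈ conf k p, (-1) ^ U.card *
        ((-1 : ℝ) ^ C.card * D ((pos k p \ U).map π.toEmbedding) C) := by
      intro C
      rw [MM, Finset.mul_sum]
      exact Finset.sum_congr rfl fun U _ => by ring
    rw [Finset.sum_congr rfl fun C _ => h2 C, Finset.sum_comm]
    refine Finset.sum_congr rfl fun U _ => ?_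
    rw [← Finset.mul_sum, functional]
  rw [h1, Finset.sum_eq_single_of_mem ∅ (empty_mem_conf k p)]
  · rw [Finset.card_empty, pow_zero, one_mul, Finset.sdiff_empty]
    by_cases h3 : T ⊆ (pos k p).map π.toEmbedding
    · have : T = (pos k p).map π.toEmbedding :=
        Finset.eq_of_subset_of_card_le h3 (by rw [Finset.card_map, card_pos hk, hT])
      rw [if_pos h3, if_pos this]
    · rw [if_neg h3, if_neg]
      rintro h4
      exact h3 h4.le
  · intro U hU hne
    rw [if_neg, mul_zero]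
    intro h3
    have h4 := Finset.card_le_card h3
    have hV := conf_subset_pos hU
    have h5 : 0 < U.card := Finset.card_pos.mpr (Finset.nonempty_iff_ne_empty.mpr hne)
    have h6 : U.card ≤ 2 ^ k := by
      rw [← card_pos hk]
      exact Finset.card_le_card hV
    rw [Finset.card_map, Finset.card_sdiff_of_subset hV, card_pos hk, hT] at h4
    omega

/-- a permutation that maps the positions onto a given set -/
theorem exists_perm {k p : ℕ} (hk : 2 ^ k < p) (T : Finset (Fin p)) (hT : T.card = 2 ^ k) :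
    ∃ π : Equiv.Perm (Fin p), (pos k p).map π.toEmbedding = T := by
  classical
  have e : (pos k p : Finset (Fin p)) ≃ (T : Finset (Fin p)) :=
    Finset.equivOfCardEq (by rw [card_pos hk, hT])
  refine ⟨e.extendSubtype, ?_⟩
  refine Finset.eq_of_subset_of_card_le ?_ (by rw [Finset.card_map, card_pos hk, hT])
  intro x hx
  obtain ⟨j, hj, rfl⟩ := Finset.mem_map.mp hx
  exact e.extendSubtype_mem j hj

/-- the rejected digraphs: all arcs that do not leave `{s} ∪ v '' C` -/
def gY {n p : ℕ} (s : Fin n) (v : Fin p → Fin n) (C : Finset (Fin p)) : Set (Fin n × Fin n) :=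
  {e | ¬ ((e.1 = s ∨ ∃ q ∈ C, v q = e.1) ∧ ¬ (e.2 = s ∨ ∃ q ∈ C, v q = e.2))}

theorem not_reach {n p : ℕ} {s t : Fin n} (hst : s ≠ t) {v : Fin p → Fin n} (hvt : ∀ j, v j ≠ t)
    (C : Finset (Fin p)) : ¬ Reachable (gY s v C) s t := by
  intro h
  have hkey : ∀ x, Relation.ReflTransGen (fun a b => (a, b) ∈ gY s v C) s x →
      (x = s ∨ ∃ q ∈ C, v q = x) := by
    intro x hx
    induction hx with
    | refl => exact Or.inl rfl
    | tail _ h2 ih =>
      by_contra hc
      exact h2 ⟨ih, hc⟩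
  rcases hkey t h with h | ⟨q, _, hq⟩
  · exact hst h.symm
  · exact hvt q hq

/-- vertices of the path -/
def wv (k : ℕ) {n p : ℕ} (s t : Fin n) (v : Fin p → Fin n) (π : Equiv.Perm (Fin p)) (i : ℕ) :
    Fin n :=
  if i = 0 then s else if h : i ≤ 2 ^ k ∧ i < p then v (π ⟨i, h.2⟩) else t

/-- arcs of the path -/
def gP (k : ℕ) {n p : ℕ} (s t : Fin n) (v : Fin p → Fin n) (π : Equiv.Perm (Fin p)) :
    Set (Fin n × Fin n) :=
  {e | ∃ i ≤ 2 ^ k, e = (wv k s t v π i, wv k s t v π (i + 1))}

theorem within_gP (k : ℕ) {n p : ℕ} (s t : Fin n) (v : Fin p → Fin n) (π : Equiv.Perm (Fin p)) :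
    Within (gP k s t v π) s t (2 ^ k + 1) := by
  refine ⟨2 ^ k + 1, le_rfl, wv k s t v π, by simp [wv], ?_, fun j hj => ⟨j, by omega, rfl⟩⟩
  simp only [wv]
  rw [if_neg (Nat.succ_ne_zero _), dif_neg]
  rintro ⟨h, _⟩
  exact absurd h (Nat.not_succ_le_self _)

theorem wv_val {k n p : ℕ} {s t : Fin n} {v : Fin p → Fin n} {π : Equiv.Perm (Fin p)} {i : ℕ}
    {j : Fin p} (hj : j.val = i) (h1 : i ≠ 0) (h2 : i ≤ 2 ^ k) : wv k s t v π i = v (π j) := by
  subst hj
  rw [wv, if_neg h1, dif_pos ⟨h2, j.2⟩]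

theorem cross {k n p : ℕ} {s t : Fin n} {v : Fin p → Fin n} (hk : 2 ^ k < p)
    (hv : Function.Injective v) (hvs : ∀ j, v j ≠ s) (π : Equiv.Perm (Fin p)) (C : Finset (Fin p))
    {i : ℕ} (hi : i ≤ 2 ^ k) (h : (wv k s t v π i, wv k s t v π (i + 1)) ∉ gY s v C) :
    MM k π C = if i < 2 ^ k then AA k i π C else 0 := by
  obtain ⟨h0, h1⟩ := not_not.mp h
  simp only at h0 h1
  have h2 : i ≠ 0 → ∀ j : Fin p, j.val = i → π j ∈ C := by
    intro hi0 j hj
    rw [wv_val hj hi0 hi] at h0
    rcases h0 with h0 | ⟨q, hq, hq'⟩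
    · exact absurd h0 (hvs _)
    · rw [← hv hq']
      exact hq
  split_ifs with hlt
  · refine MM_eq_AA hk hlt π C ?_ ?_
    · by_cases hi0 : i = 0
      · exact Or.inl hi0
      · exact Or.inr (h2 hi0)
    · intro j hj hC
      rw [wv_val hj (Nat.succ_ne_zero i) hlt] at h1
      exact h1 (Or.inr ⟨π j, hC, rfl⟩)
  · have hi' : i = 2 ^ k := le_antisymm hi (not_lt.mp hlt)
    subst hi'
    exact MM_last hk π C (h2 (by positivity))

open Classical in
/-- connected to the source on the rejected digraph -/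
noncomputable def RR {n p : ℕ} {W : Type} (N : SwitchingNetwork (Fin n × Fin n) W) (s : Fin n)
    (v : Fin p → Fin n) (a : W) (C : Finset (Fin p)) : ℝ :=
  if Relation.EqvGen (N.Closed (gY s v C) (gY s v C)ᶜ) N.source a then 1 else 0

theorem RR_eq {n p : ℕ} {W : Type} {N : SwitchingNetwork (Fin n × Fin n) W} {s : Fin n}
    {v : Fin p → Fin n} {a b : W} {C : Finset (Fin p)}
    (h : N.Closed (gY s v C) (gY s v C)ᶜ a b) : RR N s v a C = RR N s v b C := by
  have h0 : Relation.EqvGen (N.Closed (gY s v C) (gY s v C)ᶜ) N.source a ↔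
      Relation.EqvGen (N.Closed (gY s v C) (gY s v C)ᶜ) N.source b :=
    ⟨fun h1 => h1.trans _ _ _ (Relation.EqvGen.rel _ _ h),
      fun h1 => h1.trans _ _ _ ((Relation.EqvGen.rel _ _ h).symm _ _)⟩
  unfold RR
  by_cases h1 : Relation.EqvGen (N.Closed (gY s v C) (gY s v C)ᶜ) N.source a
  · rw [if_pos h1, if_pos (h0.mp h1)]
  · rw [if_neg h1, if_neg (fun h2 => h1 (h0.mpr h2))]

end RankNAux

open RankNAux

theorem states_lower {n p k : ℕ} {s t : Fin n} {W : Type} [Fintype W] (hst : s ≠ t)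
    (hp : p + 2 ≤ n) (hk : 2 ^ k < p) (N : SwitchingNetwork (Fin n × Fin n) W)
    (hN : IsMonotone N) (h : Separates (fun G => N.Connects G Gᶜ) s t (2 ^ k + 1)) :
    p.choose (2 ^ k) ≤ Fintype.card W * p.choose (2 ^ k - k - 1) := by
  classical
  obtain ⟨v, hv, hvs, hvt⟩ : ∃ v : Fin p → Fin n, Function.Injective v ∧ (∀ j, v j ≠ s) ∧
      ∀ j, v j ≠ t := by
    have h1 : (univ \ {s, t} : Finset (Fin n)).card = n - 2 := by
      rw [Finset.card_sdiff_of_subset (Finset.subset_univ _), Finset.card_pair hst,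
        Finset.card_univ, Fintype.card_fin]
    obtain ⟨f⟩ := Function.Embedding.nonempty_of_card_le
      (α := Fin p) (β := (univ \ {s, t} : Finset (Fin n))) (by
        rw [Fintype.card_fin, Fintype.card_coe, h1]
        omega)
    refine ⟨fun j => (f j).1, fun i j hij => f.injective (Subtype.ext hij), fun j hj => ?_,
      fun j hj => ?_⟩
    · have h2 := (f j).2
      simp only at hj
      rw [hj] at h2
      simp at h2
    · have h2 := (f j).2
      simp only at hj
      rw [hj] at h2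
      simp at h2
  set Z : Submodule ℝ (Finset (Fin p) → ℝ) := Submodule.span ℝ (Set.range
    fun q : {T // T ∈ powersetCard (2 ^ k - k - 1) (univ : Finset (Fin p))} × W =>
      fun C : Finset (Fin p) => D q.1.1 C * RR N s v q.2 C) with hZ
  have m1 : ∀ T : Finset (Fin p), T.card = 2 ^ k - k - 1 → ∀ a,
      (fun C => D T C * RR N s v a C) ∈ Z := fun T hT a =>
    Submodule.subset_span ⟨(⟨T, Finset.mem_powersetCard.mpr ⟨Finset.subset_univ _, hT⟩⟩, a), rfl⟩
  have m2 : ∀ (i : ℕ) (π : Equiv.Perm (Fin p)) (a : W),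
      (fun C => AA k i π C * RR N s v a C) ∈ Z := by
    intro i π a
    have e : (fun C => AA k i π C * RR N s v a C) = ∑ U ∈ top k p i, ((-1 : ℝ) ^ k) •
        (fun C => D ((pos k p \ U).map π.toEmbedding) C * RR N s v a C) := by
      funext C
      rw [Finset.sum_apply]
      simp only [Pi.smul_apply, smul_eq_mul]
      rw [AA, ← Finset.mul_sum, ← Finset.sum_mul, mul_assoc]
    rw [e]
    refine Submodule.sum_mem _ fun U hU => Submodule.smul_mem _ _ (m1 _ ?_ a)
    rw [Finset.card_map, Finset.card_sdiff_of_subset (top_subset_pos hU), RankNAux.card_pos hk,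
      top_card hU]
    omega
  have m3 : ∀ (π : Equiv.Perm (Fin p)) (a b : W),
      Relation.EqvGen (N.Closed (gP k s t v π) (gP k s t v π)ᶜ) a b →
      (fun C => MM k π C * (RR N s v a C - RR N s v b C)) ∈ Z := by
    intro π a b hab
    induction hab with
    | rel x y hxy =>
      rcases hxy with hw | ⟨e, ⟨i, hi, rfl⟩, hw⟩ | ⟨e, _, hw⟩
      · have e0 : (fun C => MM k π C * (RR N s v x C - RR N s v y C)) = 0 := by
          funext C
          rw [RR_eq (a := x) (b := y) (Or.inl hw), sub_self, mul_zero]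
          rfl
        rw [e0]
        exact Z.zero_mem
      · by_cases hlt : i < 2 ^ k
        · have e0 : (fun C => MM k π C * (RR N s v x C - RR N s v y C)) =
              (fun C => AA k i π C * RR N s v x C) - (fun C => AA k i π C * RR N s v y C) := by
            funext C
            simp only [Pi.sub_apply]
            by_cases hc : (wv k s t v π i, wv k s t v π (i + 1)) ∈ gY s v C
            · rw [RR_eq (a := x) (b := y) (Or.inr (Or.inl ⟨_, hc, hw⟩)), sub_self, mul_zero,
                sub_self]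
            · rw [cross hk hv hvs π C hi hc, if_pos hlt]
              ring
          rw [e0]
          exact Z.sub_mem (m2 i π x) (m2 i π y)
        · have e0 : (fun C => MM k π C * (RR N s v x C - RR N s v y C)) = 0 := by
            funext C
            by_cases hc : (wv k s t v π i, wv k s t v π (i + 1)) ∈ gY s v C
            · rw [RR_eq (a := x) (b := y) (Or.inr (Or.inl ⟨_, hc, hw⟩)), sub_self, mul_zero]
              rfl
            · rw [cross hk hv hvs π C hi hc, if_neg hlt, zero_mul]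
              rfl
          rw [e0]
          exact Z.zero_mem
      · exact absurd hw (hN _ _ _)
    | refl x =>
      have e0 : (fun C => MM k π C * (RR N s v x C - RR N s v x C)) = 0 := by
        funext C
        rw [sub_self, mul_zero]
        rfl
      rw [e0]
      exact Z.zero_mem
    | symm x y _ ih =>
      have e0 : (fun C => MM k π C * (RR N s v y C - RR N s v x C)) =
          -(fun C => MM k π C * (RR N s v x C - RR N s v y C)) := by
        funext C
        simp only [Pi.neg_apply]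
        ring
      rw [e0]
      exact Z.neg_mem ih
    | trans x y z _ _ ih1 ih2 =>
      have e0 : (fun C => MM k π C * (RR N s v x C - RR N s v z C)) =
          (fun C => MM k π C * (RR N s v x C - RR N s v y C)) +
          (fun C => MM k π C * (RR N s v y C - RR N s v z C)) := by
        funext C
        simp only [Pi.add_apply]
        ring
      rw [e0]
      exact Z.add_mem ih1 ih2
  have m4 : ∀ π : Equiv.Perm (Fin p), MM k π ∈ Z := by
    intro π
    have h1 : N.Connects (gP k s t v π) (gP k s t v π)ᶜ := h.1 _ (within_gP k s t v π)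
    have h2 := m3 π _ _ h1
    have e0 : (fun C => MM k π C * (RR N s v N.source C - RR N s v N.sink C)) = MM k π := by
      funext C
      have h3 : RR N s v N.source C = 1 := if_pos (Relation.EqvGen.refl _)
      have h4 : RR N s v N.sink C = 0 := if_neg (h.2 _ (not_reach hst hvt C))
      rw [h3, h4, sub_zero, mul_one]
    rw [e0] at h2
    exact h2
  choose π hπ using fun T : {T // T ∈ powersetCard (2 ^ k) (univ : Finset (Fin p))} =>
    exists_perm hk T.1 (Finset.mem_powersetCard.mp T.2).2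
  have hb : LinearIndependent ℝ (fun T => (⟨MM k (π T), m4 (π T)⟩ : Z)) := by
    rw [Fintype.linearIndependent_iff]
    intro g hg T
    have h1 : ∀ C, ∑ T', g T' * MM k (π T') C = 0 := by
      intro C
      have := congrFun (congrArg Subtype.val hg) C
      simpa using this
    have h2 : ∑ C ∈ T.1.powerset, (-1 : ℝ) ^ C.card * ∑ T', g T' * MM k (π T') C = 0 :=
      Finset.sum_eq_zero fun C _ => by rw [h1, mul_zero]
    have h3 : ∑ C ∈ T.1.powerset, (-1 : ℝ) ^ C.card * ∑ T', g T' * MM k (π T') C =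
        ∑ T', g T' * if T.1 = T'.1 then 1 else 0 := by
      have h4 : ∀ C, (-1 : ℝ) ^ C.card * ∑ T', g T' * MM k (π T') C =
          ∑ T', g T' * ((-1 : ℝ) ^ C.card * MM k (π T') C) := by
        intro C
        rw [Finset.mul_sum]
        exact Finset.sum_congr rfl fun T' _ => by ring
      rw [Finset.sum_congr rfl fun C _ => h4 C, Finset.sum_comm]
      refine Finset.sum_congr rfl fun T' _ => ?_
      rw [← Finset.mul_sum, functional_MM hk _ _ (Finset.mem_powersetCard.mp T.2).2, hπ]
    rw [h3, Finset.sum_eq_single_of_mem T (Finset.mem_univ _)] at h2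
    · simpa using h2
    · intro T' _ hne
      rw [if_neg (fun h5 => hne (Subtype.ext h5.symm)), mul_zero]
  have h5 := hb.fintype_card_le_finrank
  have h6 : Module.finrank ℝ Z ≤ Fintype.card
      ((powersetCard (2 ^ k - k - 1) (univ : Finset (Fin p)) : Finset (Finset (Fin p))) × W) :=
    finrank_range_le_card (R := ℝ)
      (fun (q : (powersetCard (2 ^ k - k - 1) (univ : Finset (Fin p)) : Finset (Finset (Fin p))) × W)
        (C : Finset (Fin p)) => D q.1.1 C * RR N s v q.2 C)
  rw [Fintype.card_coe, Finset.card_powersetCard, Finset.card_univ, Fintype.card_fin] at h5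
  rw [Fintype.card_prod, Fintype.card_coe, Finset.card_powersetCard, Finset.card_univ,
    Fintype.card_fin] at h6
  calc p.choose (2 ^ k) ≤ _ := h5
    _ ≤ _ := h6
    _ = _ := mul_comm _ _

end Pool.Agent.Lib.Pe46137X
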