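import Pool.Agent.Lib.Pe46137X.Core
import Pool.Agent.Lib.Pe46137X.FormL
import Pool.Agent.Lib.Pe46137X.NetL
import Pool.Agent.Lib.Pe46137X.RankN
import Pool.Agent.Lib.Pe46137X.FNet
import Pool.Agent.Lib.Pe46137X.NumL
import Pool.Agent.Lib.Pe46137X.NumR
import Pool.Agent.Lib.Pe46137X.NumU

/-!
Assembly.
-/

namespace Pool.Agent.Lib.Pe46137X

open Pool.Agent.Lib.Pe46137

theorem leaves_le {V : Type} (F : Formula V) : F.leaves ≤ 2 ^ F.depth := by
  induction F with
  | const b => simp [Formula.leaves]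
  | arc u v => simp [Formula.leaves, Formula.depth]
  | and F F' h h' =>
    simp only [Formula.leaves, Formula.depth]
    have h1 : 2 ^ F.depth ≤ 2 ^ (max F.depth F'.depth) :=
      Nat.pow_le_pow_right (by norm_num) (le_max_left _ _)
    have h2 : 2 ^ F'.depth ≤ 2 ^ (max F.depth F'.depth) :=
      Nat.pow_le_pow_right (by norm_num) (le_max_right _ _)
    rw [pow_succ]
    omega
  | or F F' h h' =>
    simp only [Formula.leaves, Formula.depth]
    have h1 : 2 ^ F.depth ≤ 2 ^ (max F.depth F'.depth) :=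
      Nat.pow_le_pow_right (by norm_num) (le_max_left _ _)
    have h2 : 2 ^ F'.depth ≤ 2 ^ (max F.depth F'.depth) :=
      Nat.pow_le_pow_right (by norm_num) (le_max_right _ _)
    rw [pow_succ]
    omega

theorem kap_nonneg (k p : ℕ) : 0 ≤ kap k p := by
  unfold kap
  positivity

theorem choose_le_of_kap {k p : ℕ} {x y : ℝ} (hp : k + 1 ≤ p) (hx : 0 ≤ x)
    (hy : y ≤ 4 * (2 ^ k + 1) ^ 2) (h : 1 ≤ x * y * kap k p) :
    (p.choose (k + 1) : ℝ) ≤
      x * (4 * (2 ^ k + 1) ^ 2 * (16 ^ (k + 1) * k.factorial * 2 ^ (k * (k - 1) / 2))) := by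
  have hc : (0 : ℝ) < p.choose (k + 1) := by exact_mod_cast Nat.choose_pos hp
  unfold kap at h
  rw [← mul_div_assoc, le_div_iff₀ hc, one_mul] at h
  refine h.trans ?_
  rw [mul_assoc]
  refine mul_le_mul_of_nonneg_left ?_ hx
  exact mul_le_mul_of_nonneg_right hy (by positivity)

theorem within_one {V : Type} {s t : V} {ℓ : ℕ} (h : 1 ≤ ℓ) :
    Within ({(s, t)} : Set (V × V)) s t ℓ := JoinedIn.single (by simp) h

theorem not_reachable_empty {V : Type} {s t : V} (h : s ≠ t) :
    ¬ Reachable (∅ : Set (V × V)) s t := by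
  intro hr
  unfold Reachable at hr
  rcases Relation.ReflTransGen.cases_head hr with h1 | ⟨c, h1, _⟩
  · exact h h1
  · exact h1

theorem leaves_pos {V : Type} {s t : V} {ℓ : ℕ} (hst : s ≠ t) (h : 1 ≤ ℓ) (F : Formula V)
    (hF : Separates F.Eval s t ℓ) : 1 ≤ F.leaves := by
  by_contra hc
  have h0 : F.leaves = 0 := by omega
  have key : ∀ F : Formula V, F.leaves = 0 → ∀ G G', F.Eval G ↔ F.Eval G' := by
    intro F
    induction F with
    | const b => intro _ G G'; exact Iff.rfl
    | arc u v => intro h; simp [Formula.leaves] at h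
    | and F F' h h' =>
      intro h0 G G'
      simp only [Formula.leaves, Nat.add_eq_zero_iff] at h0
      simp only [Formula.Eval, h h0.1 G G', h' h0.2 G G']
    | or F F' h h' =>
      intro h0 G G'
      simp only [Formula.leaves, Nat.add_eq_zero_iff] at h0
      simp only [Formula.Eval, h h0.1 G G', h' h0.2 G G']
  exact hF.2 ∅ (not_reachable_empty hst) ((key F h0 _ _).mp (hF.1 _ (within_one h)))

theorem log_le_two_rpow (x : ℝ) : x ≤ (2 : ℝ) ^ x := by
  rcases le_or_gt x 0 with h | h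
  · exact h.trans (Real.rpow_nonneg (by norm_num) x)
  · have h1 : (⌊x⌋₊ : ℝ) + 1 ≤ (2 : ℝ) ^ ((⌊x⌋₊ : ℕ) : ℝ) := by
      rw [Real.rpow_natCast]
      exact_mod_cast (Nat.lt_two_pow_self (n := ⌊x⌋₊))
    have h2 : (2 : ℝ) ^ ((⌊x⌋₊ : ℕ) : ℝ) ≤ (2 : ℝ) ^ x :=
      Real.rpow_le_rpow_of_exponent_le (by norm_num) (Nat.floor_le h.le)
    have h3 := Nat.lt_floor_add_one x
    linarith

theorem main : ∃ C : ℝ, 0 < C ∧ ∀ (n : ℕ) (s t : Fin n), s ≠ t → ∀ ℓ : ℕ, 1 ≤ ℓ → ℓ ≤ n →
    |Real.logb 2 (formulaSize s t ℓ) - mainTerm n ℓ| ≤ C * errTerm n ℓ ∧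
    |(formulaDepth s t ℓ : ℝ) - mainTerm n ℓ| ≤ C * errTerm n ℓ ∧
    |Real.logb 2 (networkCost s t ℓ) - mainTerm n ℓ| ≤ C * errTerm n ℓ ∧
    Real.logb 2 ℓ * (Real.logb 2 n - Real.logb 2 ℓ) - C * errTerm n ℓ ≤
      Real.logb 2 (networkStates s t ℓ) ∧
    Real.logb 2 (networkStates s t ℓ) ≤ mainTerm n ℓ + C * errTerm n ℓ := by
  obtain ⟨C1, hC1, hL⟩ := num_lower
  obtain ⟨C2, hC2, hR⟩ := num_rank
  obtain ⟨C3, hC3, hU⟩ := num_upper
  refine ⟨C1 + C2 + 5 * C3 + 12, by positivity, fun n s t hst ℓ h1 h2 => ?_⟩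
  have hn : 2 ≤ n := by
    by_contra hc
    have : n = 0 ∨ n = 1 := by omega
    rcases this with rfl | rfl
    · exact s.elim0
    · exact hst (Subsingleton.elim s t)
  have hln : (1 : ℝ) ≤ Real.logb 2 n := by
    rw [Real.le_logb_iff_rpow_le (by norm_num) (by positivity)]
    simpa using (by exact_mod_cast hn : (2 : ℝ) ≤ n)
  have hll : (0 : ℝ) ≤ Real.logb 2 ℓ := Real.logb_nonneg (by norm_num) (by exact_mod_cast h1)
  have hlln : (0 : ℝ) ≤ Real.logb 2 (Real.logb 2 n) := Real.logb_nonneg (by norm_num) hln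
  have hlogle : Real.logb 2 ℓ ≤ Real.logb 2 n :=
    Real.logb_le_logb_of_le (by norm_num) (by exact_mod_cast h1) (by exact_mod_cast h2)
  have hE : Real.logb 2 n ≤ errTerm n ℓ := by
    unfold errTerm
    nlinarith [mul_nonneg hll hlln]
  have hE0 : 0 ≤ errTerm n ℓ := by linarith
  have hE1 : 1 ≤ errTerm n ℓ := by linarith
  -- lower bound for formulas
  have lowF : ∀ F : Formula (Fin n), Separates F.Eval s t ℓ →
      mainTerm n ℓ - C1 * errTerm n ℓ ≤ Real.logb 2 F.leaves := by
    intro F hF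
    refine hL n ℓ F.leaves hn h1 h2 (by exact_mod_cast leaves_pos hst h1 F hF)
      fun k p hp hk hkl => ?_
    have hcore := core (s := s) (t := t) hst hp hk
    have h3 : Separates F.Eval s t (2 ^ k + 1) :=
      ⟨fun G hG => hF.1 G (hG.mono hkl), hF.2⟩
    have h4 := formula_lower (kap_nonneg k p) hcore F h3
    have h5 : (1 : ℝ) ≤ 2 ^ k := one_le_pow₀ (by norm_num)
    refine choose_le_of_kap (y := (2 ^ k + 1 : ℕ)) (by omega) (by positivity) ?_ h4
    push_cast
    nlinarith
  -- lower bound for networks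
  have lowN : ∀ (m L : ℕ) (N : SwitchingNetwork (Fin n × Fin n) (Fin m)), IsMonotone N →
      (∀ G, Within G s t ℓ → ConnectsIn N G L) → (∀ G, ¬ Reachable G s t → ¬ N.Connects G Gᶜ) →
      mainTerm n ℓ - C1 * errTerm n ℓ ≤ Real.logb 2 (2 * (m * L : ℕ)) := by
    intro m L N hN hN1 hN2
    have hm : 1 ≤ m := by
      have := N.source.2
      omega
    have hL1 : 1 ≤ L := by
      by_contra hc
      have h0 : L = 0 := by omega
      obtain ⟨r, hr, w, hw0, hw1, _⟩ := hN1 _ (within_one h1)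
      have hr0 : r = 0 := by omega
      subst hr0
      refine hN2 ∅ (not_reachable_empty hst) ?_
      unfold SwitchingNetwork.Connects
      rw [← hw0, ← hw1]
      exact Relation.EqvGen.refl _
    have hmL : (1 : ℝ) ≤ (m * L : ℕ) := by exact_mod_cast Nat.mul_pos hm hL1
    refine hL n ℓ _ hn h1 h2 (by linarith) fun k p hp hk hkl => ?_
    have hcore := core (s := s) (t := t) hst hp hk
    have h4 := network_lower (kap_nonneg k p) hcore N hN
      (fun G hG => hN1 G (hG.mono hkl)) hN2 (L := L)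
    refine choose_le_of_kap (y := 4 * (2 ^ k + 1) ^ 2) (by omega) (by positivity) le_rfl
      (h4.trans ?_)
    rw [Fintype.card_fin]
    push_cast
    have h5 : (1 : ℝ) ≤ L := by exact_mod_cast hL1
    have h6 : (0 : ℝ) ≤ (2 ^ k + 1) ^ 2 * m * kap k p := by
      have := kap_nonneg k p
      positivity
    nlinarith
  -- upper bounds
  obtain ⟨F, hF, hand, hdep⟩ := exists_formula hn s t h1 h2
  have hU' := hU n ℓ hn h1 h2
  have hdepR : (F.depth : ℝ) ≤ mainTerm n ℓ + C3 * errTerm n ℓ :=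
    le_trans (by exact_mod_cast hdep) hU'
  obtain ⟨m, hm, N, hNmon, hN1, hN2⟩ := exists_network F
  -- sizes
  have hlogpow : ∀ d : ℕ, Real.logb 2 ((2 : ℝ) ^ d) = d := fun d => by
    rw [Real.logb_pow, Real.logb_self_eq_one (by norm_num), mul_one]
  have hC : ∀ c : ℝ, c ≤ C1 + C2 + 5 * C3 + 12 → c * errTerm n ℓ ≤
      (C1 + C2 + 5 * C3 + 12) * errTerm n ℓ := fun c hc => mul_le_mul_of_nonneg_right hc hE0
  have hSne : {m | ∃ F : Formula (Fin n), Separates F.Eval s t ℓ ∧ F.leaves = m}.Nonempty :=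
    ⟨_, F, hF, rfl⟩
  have hDne : {m | ∃ F : Formula (Fin n), Separates F.Eval s t ℓ ∧ F.depth = m}.Nonempty :=
    ⟨_, F, hF, rfl⟩
  have hNsep : Separates (fun G => N.Connects G Gᶜ) s t ℓ :=
    ⟨fun G hG => eqvGen_of_joinedIn (hN1 G (hF.1 G hG)), fun G hG => hN2 G (hF.2 G hG)⟩
  have hSt : {m | ∃ N : SwitchingNetwork (Fin n × Fin n) (Fin m), IsMonotone N ∧
    Separates (fun G => N.Connects G Gᶜ) s t ℓ}.Nonempty := ⟨m, N, hNmon, hNsep⟩
  have hCo : ({c | ∃ (m L : ℕ) (N : SwitchingNetwork (Fin n × Fin n) (Fin m)), IsMonotone N ∧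
    (∀ G, Within G s t ℓ → ConnectsIn N G L) ∧
    (∀ G, ¬ Reachable G s t → ¬ N.Connects G Gᶜ) ∧ m * L = c} : Set ℕ).Nonempty :=
    ⟨_, m, _, N, hNmon, fun G hG => hN1 G (hF.1 G hG), fun G hG => hN2 G (hF.2 G hG), rfl⟩
  obtain ⟨F1, hF1, hF1'⟩ : ∃ F : Formula (Fin n), Separates F.Eval s t ℓ ∧
    F.leaves = formulaSize s t ℓ := Nat.sInf_mem hSne
  obtain ⟨F2, hF2, hF2'⟩ : ∃ F : Formula (Fin n), Separates F.Eval s t ℓ ∧
    F.depth = formulaDepth s t ℓ := Nat.sInf_mem hDne
  obtain ⟨m3, L3, N3, h31, h32, h33, h34⟩ : ∃ (m L : ℕ)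
    (N : SwitchingNetwork (Fin n × Fin n) (Fin m)), IsMonotone N ∧
    (∀ G, Within G s t ℓ → ConnectsIn N G L) ∧
    (∀ G, ¬ Reachable G s t → ¬ N.Connects G Gᶜ) ∧ m * L = networkCost s t ℓ := Nat.sInf_mem hCo
  obtain ⟨N4, h41, h42⟩ : ∃ N : SwitchingNetwork (Fin n × Fin n) (Fin (networkStates s t ℓ)),
    IsMonotone N ∧ Separates (fun G => N.Connects G Gᶜ) s t ℓ := Nat.sInf_mem hSt
  have e1 : (1 : ℝ) ≤ formulaSize s t ℓ := by
    rw [← hF1']
    exact_mod_cast leaves_pos hst h1 F1 hF1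
  refine ⟨?_, ?_, ?_, ?_, ?_⟩
  · rw [abs_le]
    constructor
    · have := lowF F1 hF1
      rw [hF1'] at this
      have := hC C1 (by linarith)
      linarith
    · have h3 : formulaSize s t ℓ ≤ 2 ^ F.depth :=
        (show formulaSize s t ℓ ≤ F.leaves from Nat.sInf_le ⟨F, hF, rfl⟩).trans (leaves_le F)
      have h4 : Real.logb 2 (formulaSize s t ℓ) ≤ F.depth := by
        rw [← hlogpow F.depth]
        exact Real.logb_le_logb_of_le (by norm_num) (by linarith) (by exact_mod_cast h3)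
      have := hC C3 (by linarith)
      linarith
  · rw [abs_le]
    constructor
    · have h3 := lowF F2 hF2
      have h4 : Real.logb 2 F2.leaves ≤ F2.depth := by
        rw [← hlogpow F2.depth]
        refine Real.logb_le_logb_of_le (by norm_num) ?_ (by exact_mod_cast leaves_le F2)
        exact_mod_cast leaves_pos hst h1 F2 hF2
      rw [hF2'] at h4
      have := hC C1 (by linarith)
      linarith
    · have h3 : formulaDepth s t ℓ ≤ F.depth := Nat.sInf_le ⟨F, hF, rfl⟩
      have h4 : (formulaDepth s t ℓ : ℝ) ≤ F.depth := by exact_mod_cast h3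
      have := hC C3 (by linarith)
      linarith
  · have h3 := lowN m3 L3 N3 h31 h32 h33
    have hpos : 0 < m3 * L3 := by
      have hm : 1 ≤ m3 := by
        have := N3.source.2
        omega
      have hL1 : 1 ≤ L3 := by
        by_contra hc
        have h0 : L3 = 0 := by omega
        obtain ⟨r, hr, w, hw0, hw1, _⟩ := h32 _ (within_one h1)
        have hr0 : r = 0 := by omega
        subst hr0
        refine h33 ∅ (not_reachable_empty hst) ?_
        unfold SwitchingNetwork.Connects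
        rw [← hw0, ← hw1]
        exact Relation.EqvGen.refl _
      exact Nat.mul_pos hm hL1
    have hposR : (1 : ℝ) ≤ (m3 * L3 : ℕ) := by exact_mod_cast hpos
    rw [Real.logb_mul (by norm_num) (by positivity), Real.logb_self_eq_one (by norm_num),
      h34] at h3
    rw [abs_le]
    constructor
    · have := hC (C1 + 1) (by linarith)
      nlinarith
    · have h5 : networkCost s t ℓ ≤ 2 ^ (F.depth + 1) * ((2 * F.depth + 1) * 2 ^ F.andDepth) :=
        (show networkCost s t ℓ ≤ m * ((2 * F.depth + 1) * 2 ^ F.andDepth) from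
          Nat.sInf_le ⟨m, _, N, hNmon, fun G hG => hN1 G (hF.1 G hG),
          fun G hG => hN2 G (hF.2 G hG), rfl⟩).trans (Nat.mul_le_mul_right _ hm)
      have h6 : Real.logb 2 (networkCost s t ℓ) ≤ (F.depth + 1) +
          (Real.logb 2 ((2 * F.depth + 1 : ℕ) : ℝ) + F.andDepth) := by
        rw [← h34]
        refine (Real.logb_le_logb_of_le (by norm_num) (by linarith)
          (y := ((2 ^ (F.depth + 1) * ((2 * F.depth + 1) * 2 ^ F.andDepth) : ℕ) : ℝ))
          (by rw [h34]; exact_mod_cast h5)).trans ?_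
        rw [Nat.cast_mul, Nat.cast_mul, Nat.cast_pow, Nat.cast_pow, Nat.cast_ofNat,
          Real.logb_mul (by positivity) (by positivity), Real.logb_mul (by positivity)
          (by positivity), hlogpow, hlogpow]
        push_cast
        linarith
      have h7 : Real.logb 2 (Real.logb 2 n) ≤ Real.logb 2 n := by
        rw [Real.logb_le_iff_le_rpow (by norm_num) (by linarith)]
        exact log_le_two_rpow _
      have h8 : errTerm n ℓ ≤ 2 * Real.logb 2 n ^ 2 := by
        unfold errTerm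
        have : Real.logb 2 ℓ * Real.logb 2 (Real.logb 2 n) ≤ Real.logb 2 n * Real.logb 2 n :=
          mul_le_mul hlogle h7 hlln (by linarith)
        nlinarith
      have h9 : mainTerm n ℓ ≤ Real.logb 2 n ^ 2 := by
        unfold mainTerm
        nlinarith [mul_le_mul_of_nonneg_right hlogle (by linarith : (0 : ℝ) ≤ Real.logb 2 n)]
      have h10 : ((2 * F.depth + 1 : ℕ) : ℝ) ≤ (3 + 4 * C3) * Real.logb 2 n ^ 2 := by
        push_cast
        nlinarith [mul_le_mul_of_nonneg_left h8 hC3.le]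
      have h11 : Real.logb 2 ((2 * F.depth + 1 : ℕ) : ℝ) ≤ (3 + 4 * C3) + 2 * Real.logb 2 n := by
        refine (Real.logb_le_logb_of_le (by norm_num) (by positivity) h10).trans ?_
        rw [Real.logb_mul (by positivity) (by positivity), Real.logb_pow]
        have h12 : Real.logb 2 (3 + 4 * C3) ≤ 3 + 4 * C3 := by
          rw [Real.logb_le_iff_le_rpow (by norm_num) (by positivity)]
          exact log_le_two_rpow _
        push_cast
        linarith
      have h13 : (F.andDepth : ℝ) ≤ Real.logb 2 n + 2 := by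
        have h14 : (F.andDepth : ℝ) ≤ (Nat.clog 2 ℓ : ℝ) + 1 := by exact_mod_cast hand
        have h15 : (Nat.clog 2 ℓ : ℝ) ≤ Real.logb 2 ℓ + 1 := by
          have h16 := Real.natCeil_logb_natCast 2 ℓ
          rw [← h16]
          exact (Nat.ceil_lt_add_one hll).le
        linarith
      have := hC (5 * C3 + 9) (by linarith)
      nlinarith [mul_le_mul_of_nonneg_left hE1 (by positivity : (0 : ℝ) ≤ 3 + 4 * C3)]
  · have hpos : 1 ≤ networkStates s t ℓ := by
      have := N4.source.2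
      omega
    have h3 := hR n ℓ (networkStates s t ℓ) hn h1 h2 (by exact_mod_cast hpos)
      fun k p hp hk hkl => by
        have := states_lower (W := Fin (networkStates s t ℓ)) hst hp hk N4 h41
          ⟨fun G hG => h42.1 G (hG.mono hkl), h42.2⟩
        rw [Fintype.card_fin] at this
        exact_mod_cast this
    have := hC C2 (by linarith)
    linarith
  · have hpos : 1 ≤ networkStates s t ℓ := by
      have := N4.source.2
      omega
    have h3 : networkStates s t ℓ ≤ 2 ^ (F.depth + 1) :=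
      (show networkStates s t ℓ ≤ m from Nat.sInf_le ⟨N, hNmon, hNsep⟩).trans hm
    have h4 : Real.logb 2 (networkStates s t ℓ) ≤ ((F.depth + 1 : ℕ) : ℝ) := by
      rw [← hlogpow (F.depth + 1)]
      exact Real.logb_le_logb_of_le (by norm_num) (by exact_mod_cast hpos)
        (by exact_mod_cast h3)
    push_cast at h4
    have := hC (C3 + 1) (by linarith)
    linarith

end Pool.Agent.Lib.Pe46137X
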