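import Pool.Agent.Lib.Pe46137.Defs

/-!
Monotone formulas and monotone switching networks for directed reachability, and their cost.
-/

namespace Pool.Agent.Lib.Pe46137X

open Pool.Agent.Lib.Pe46137

/-- a walk with at most `L` steps of the relation `ρ` leads from `a` to `b` -/
def JoinedIn {W : Type} (ρ : W → W → Prop) (L : ℕ) (a b : W) : Prop :=
  ∃ r ≤ L, ∃ w : ℕ → W, w 0 = a ∧ w r = b ∧ ∀ j < r, ρ (w j) (w (j + 1))

/-- the digraph with arc set `G` has a walk with at most `ℓ` arcs from `s` to `t` -/
def Within {V : Type} (G : Set (V × V)) (s t : V) (ℓ : ℕ) : Prop :=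
  JoinedIn (fun a b => (a, b) ∈ G) ℓ s t

/-- the property `f` of digraphs holds if `t` can be reached from `s` by at most `ℓ` arcs, and fails
if `t` cannot be reached from `s` at all -/
def Separates {V : Type} (f : Set (V × V) → Prop) (s t : V) (ℓ : ℕ) : Prop :=
  (∀ G, Within G s t ℓ → f G) ∧ ∀ G, ¬ Reachable G s t → ¬ f G

/-- monotone formulas with gates of fan-in two over the arc variables of digraphs on `V` -/
inductive Formula (V : Type) : Type
  | const : Bool → Formula V
  | arc : V → V → Formula V
  | and : Formula V → Formula V → Formula V
  | or : Formula V → Formula V → Formula V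

namespace Formula

variable {V : Type}

/-- the value of a formula on the digraph with arc set `G` -/
def Eval : Formula V → Set (V × V) → Prop
  | const b, _ => b = true
  | arc u v, G => (u, v) ∈ G
  | and F F', G => F.Eval G ∧ F'.Eval G
  | or F F', G => F.Eval G ∨ F'.Eval G

/-- number of leaves that carry a variable -/
def leaves : Formula V → ℕ
  | const _ => 0
  | arc _ _ => 1
  | and F F' => F.leaves + F'.leaves
  | or F F' => F.leaves + F'.leaves

/-- largest number of gates between the output and a leaf -/
def depth : Formula V → ℕ
  | const _ => 0
  | arc _ _ => 0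
  | and F F' => max F.depth F'.depth + 1
  | or F F' => max F.depth F'.depth + 1

/-- largest number of conjunction gates between the output and a leaf -/
def andDepth : Formula V → ℕ
  | const _ => 0
  | arc _ _ => 0
  | and F F' => max F.andDepth F'.andDepth + 1
  | or F F' => max F.andDepth F'.andDepth

end Formula

/-- the network has no contact labelled by a negated variable -/
def IsMonotone {E W : Type} (N : SwitchingNetwork E W) : Prop :=
  ∀ e v w, ¬ N.neg e v w

/-- on the input `G` source and sink are joined by a walk through at most `L` closed contacts
(traversed in either direction) -/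
def ConnectsIn {E W : Type} (N : SwitchingNetwork E W) (G : Set E) (L : ℕ) : Prop :=
  JoinedIn (fun a b => N.Closed G Gᶜ a b ∨ N.Closed G Gᶜ b a) L N.source N.sink

/-- least number of leaves of a monotone formula that accepts the digraphs with a walk of at most
`ℓ` arcs from `s` to `t` and rejects those in which `t` is unreachable from `s` -/
noncomputable def formulaSize {V : Type} (s t : V) (ℓ : ℕ) : ℕ :=
  sInf {m | ∃ F : Formula V, Separates F.Eval s t ℓ ∧ F.leaves = m}

/-- least depth of such a formula -/
noncomputable def formulaDepth {V : Type} (s t : V) (ℓ : ℕ) : ℕ :=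
  sInf {m | ∃ F : Formula V, Separates F.Eval s t ℓ ∧ F.depth = m}

/-- least number of states of a monotone switching network for the same task -/
noncomputable def networkStates {V : Type} (s t : V) (ℓ : ℕ) : ℕ :=
  sInf {m | ∃ N : SwitchingNetwork (V × V) (Fin m), IsMonotone N ∧
    Separates (fun G => N.Connects G Gᶜ) s t ℓ}

/-- least product `m * L`, where some monotone switching network with `m` states rejects all
digraphs in which `t` is unreachable from `s`, and joins source and sink by a walk of at most `L`
closed contacts whenever `t` can be reached from `s` by at most `ℓ` arcs -/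
noncomputable def networkCost {V : Type} (s t : V) (ℓ : ℕ) : ℕ :=
  sInf {c | ∃ (m L : ℕ) (N : SwitchingNetwork (V × V) (Fin m)), IsMonotone N ∧
    (∀ G, Within G s t ℓ → ConnectsIn N G L) ∧
    (∀ G, ¬ Reachable G s t → ¬ N.Connects G Gᶜ) ∧ m * L = c}

end Pool.Agent.Lib.Pe46137X
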