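import Pool.Agent.Lib.Pe46137X.Poly

/-!
Module Pe46137X.Coef.  The sum of the squares of the coefficients of `aa` on one level.
`Peb.lean`, `Poly.lean` are black boxes.

* `top_le`: the number of elements of `top k p i` is at most
  `{K : Finset ℕ | Reach k K ∧ K.card = k}.ncard`: the map `W ↦ (W.erase j).map Fin.valEmbedding`
  (`j` the element with `j.val = i + 1`) is injective on `top k p i` with values in that set
  (finite by `reach_finite`); then `card_reach_le`.
* `sum_ac_sq_le`.  Put `a = k + 1`, `m = 2 ^ k`, `r = (top k p i).card`.  For `T ⊆ pos` put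
  `N(T) = #{W ∈ top : W ⊆ T}`.  All `W ∈ top` have `a` elements (`top_card`), so `N(T) = 0` if
  `|T| < a`, and `N(T) ≤ C(|T|, a)`.  `ac k i T ^ 2 = 4 * 4 ^ k * N(T)^2 ≤ 4 ^ a * C(l, a) * N(T)` for
  `|T| = l = a + j`.  `∑_{|T| = l, T ⊆ pos} N(T) = ∑_{W ∈ top} #{T : W ⊆ T ⊆ pos, |T| = l}
  = r * C(m - a, j)` (`pos` has at most `m` elements, `W ⊆ pos`; `≤` suffices).  So the sum is at most
  `4 ^ a * r * C(a + j, a) * C(m - a, j)`.  Claim:
  `C(a+j, a)^2 * C(m-a, j) ≤ 4 ^ a * C(p - a, j)`, because `C(a+j,a) ≤ 2 ^ (a+j)` and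
  `4 ^ j * C(m - a, j) ≤ C(p - a, j)` (product formula `Nat.descFactorial`, `4 (m - a - i) ≤ p - a - i`
  factor by factor, as `4 m + k + 1 ≤ p`).  With `C(p, a + j) * C(a + j, a) = C(p, a) * C(p - a, j)`
  (`Nat.choose_mul`) one gets
  `C(a+j,a) * C(m-a,j) = C(a+j,a)^2 * C(m-a,j) / C(a+j,a) ≤ 4 ^ a * C(p-a, j) / C(a+j, a)
  = 4 ^ a * C(p, a+j) / C(p, a)`.  Hence the sum is at most `16 ^ a * r * C(p, l) / C(p, a)`, and
  `r ≤ k! * 2 ^ (k (k-1) / 2)`.
-/

namespace Pool.Agent.Lib.Pe46137X

open Finset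

variable {k p i : ℕ}

namespace CoefAux

theorem desc_le {m p : ℕ} (h : 4 * m ≤ p) (j : ℕ) :
    4 ^ j * m.descFactorial j ≤ p.descFactorial j := by
  induction j with
  | zero => simp
  | succ j ih =>
    rw [Nat.descFactorial_succ, Nat.descFactorial_succ, pow_succ]
    have h1 : 4 * (m - j) ≤ p - j := by omega
    calc 4 ^ j * 4 * ((m - j) * m.descFactorial j) = (4 * (m - j)) * (4 ^ j * m.descFactorial j) := by
          ring
      _ ≤ (p - j) * p.descFactorial j := Nat.mul_le_mul h1 ih

theorem choose_le {m p : ℕ} (h : 4 * m ≤ p) (j : ℕ) : 4 ^ j * m.choose j ≤ p.choose j := by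
  have h1 := desc_le h j
  rw [Nat.descFactorial_eq_factorial_mul_choose, Nat.descFactorial_eq_factorial_mul_choose] at h1
  refine le_of_mul_le_mul_left ?_ (Nat.factorial_pos j)
  calc j.factorial * (4 ^ j * m.choose j) = 4 ^ j * (j.factorial * m.choose j) := by ring
    _ ≤ _ := h1

theorem main_ineq {a j m p : ℕ} (h : 4 * (m - a) ≤ p - a) (hp : a + j ≤ p) :
    (a + j).choose a * (m - a).choose j * p.choose a ≤ 4 ^ a * p.choose (a + j) := by
  have h0 : 0 < (a + j).choose a := Nat.choose_pos (Nat.le_add_right a j)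
  refine le_of_mul_le_mul_left ?_ h0
  have h1 : p.choose (a + j) * (a + j).choose a = p.choose a * (p - a).choose j := by
    have h2 := Nat.choose_mul (n := p) (k := a + j) (s := a) (Nat.le_add_right a j)
    rw [h2, Nat.add_sub_cancel_left]
  have h3 : (a + j).choose a ≤ 2 ^ (a + j) := Nat.choose_le_two_pow _ _
  have h4 := choose_le h j
  have h5 : (a + j).choose a * (a + j).choose a * (m - a).choose j ≤ 4 ^ a * (p - a).choose j := by
    calc (a + j).choose a * (a + j).choose a * (m - a).choose j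
        ≤ 2 ^ (a + j) * 2 ^ (a + j) * (m - a).choose j :=
          Nat.mul_le_mul_right _ (Nat.mul_le_mul h3 h3)
      _ = 4 ^ a * (4 ^ j * (m - a).choose j) := by
          rw [← mul_pow, pow_add]
          ring
      _ ≤ _ := Nat.mul_le_mul_left _ h4
  calc (a + j).choose a * ((a + j).choose a * (m - a).choose j * p.choose a)
      = ((a + j).choose a * (a + j).choose a * (m - a).choose j) * p.choose a := by ring
    _ ≤ (4 ^ a * (p - a).choose j) * p.choose a := Nat.mul_le_mul_right _ h5
    _ = 4 ^ a * (p.choose a * (p - a).choose j) := by ring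
    _ = (a + j).choose a * (4 ^ a * p.choose (a + j)) := by
        rw [← h1]
        ring

theorem card_pos_le : (pos k p).card ≤ 2 ^ k := by
  have h1 : (pos k p).card = ((pos k p).map Fin.valEmbedding).card := (Finset.card_map _).symm
  rw [h1]
  have h2 : (pos k p).map Fin.valEmbedding ⊆ Finset.Icc 1 (2 ^ k) := by
    intro x hx
    rw [Finset.mem_map] at hx
    obtain ⟨j, hj, rfl⟩ := hx
    rw [pos, Finset.mem_filter] at hj
    exact Finset.mem_Icc.2 hj.2
  refine (Finset.card_le_card h2).trans ?_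
  rw [Nat.card_Icc, Nat.add_sub_cancel]

/-- the number of sets between two sets -/
theorem card_between {α : Type*} [DecidableEq α] {W P : Finset α} (hW : W ⊆ P) (j : ℕ) :
    ((powersetCard (W.card + j) P).filter (fun T => W ⊆ T)).card ≤ (P.card - W.card).choose j := by
  rw [← Finset.card_sdiff_of_subset hW, ← Finset.card_powersetCard]
  refine Finset.card_le_card_of_injOn (fun T => T \ W) ?_ ?_
  · intro T hT
    rw [Finset.coe_filter, Set.mem_ofPred_eq, Finset.mem_powersetCard] at hT
    rw [Finset.mem_coe, Finset.mem_powersetCard]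
    refine ⟨Finset.sdiff_subset_sdiff hT.1.1 (Finset.Subset.refl _), ?_⟩
    rw [Finset.card_sdiff_of_subset hT.2, hT.1.2, Nat.add_sub_cancel_left]
  · intro T hT T' hT' h
    rw [Finset.coe_filter, Set.mem_ofPred_eq] at hT hT'
    simp only at h
    rw [← Finset.sdiff_union_of_subset hT.2, h, Finset.sdiff_union_of_subset hT'.2]

end CoefAux

open CoefAux

theorem top_le : (top k p i).card ≤ k.factorial * 2 ^ (k * (k - 1) / 2) := by
  classical
  by_cases hi : i + 1 < p
  · have h1 : top k p i ⊆ ((conf k p).filter fun U => U.card = k).image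
        (fun U => insert ⟨i + 1, hi⟩ U) := by
      intro W hW
      rw [top, Finset.mem_filter] at hW
      obtain ⟨-, U, hU, hc, -, j, hj, -, rfl⟩ := hW
      rw [Finset.mem_image]
      refine ⟨U, Finset.mem_filter.2 ⟨hU, hc⟩, ?_⟩
      have h2 : j = ⟨i + 1, hi⟩ := Fin.ext hj
      rw [h2]
    refine (Finset.card_le_card h1).trans (Finset.card_image_le.trans ?_)
    have h2 : ((conf k p).filter fun U => U.card = k).card =
        (((conf k p).filter fun U => U.card = k).map
          (Finset.mapEmbedding (Fin.valEmbedding (n := p))).toEmbedding).card :=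
      (Finset.card_map _).symm
    rw [h2, ← Set.ncard_coe_finset]
    refine (Set.ncard_le_ncard ?_ ?_).trans (card_reach_le k)
    · intro K hK
      rw [Finset.mem_coe, Finset.mem_map] at hK
      obtain ⟨U, hU, rfl⟩ := hK
      rw [Finset.mem_filter, conf, Finset.mem_filter] at hU
      refine ⟨hU.1.2, ?_⟩
      have h3 := Finset.card_map (s := U) (Fin.valEmbedding (n := p))
      rw [hU.2] at h3
      exact h3
    · exact (reach_finite k).subset fun K hK => hK.1
  · have h1 : top k p i = ∅ := by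
      rw [Finset.eq_empty_iff_forall_notMem]
      intro W hW
      rw [top, Finset.mem_filter] at hW
      obtain ⟨-, U, hU, hc, -, j, hj, -, rfl⟩ := hW
      have := j.2
      omega
    rw [h1, Finset.card_empty]
    exact Nat.zero_le _

theorem sum_ac_sq_le (hp : 4 * 2 ^ k + k + 1 ≤ p) (i l : ℕ) :
    ∑ T ∈ powersetCard l (univ : Finset (Fin p)), ac k i T ^ 2 ≤ kap k p * (p.choose l : ℝ) := by
  classical
  have hch : 0 < p.choose (k + 1) := Nat.choose_pos (by omega)
  have hchR : (0 : ℝ) < p.choose (k + 1) := by exact_mod_cast hch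
  have hkap : 0 ≤ kap k p := by
    unfold kap
    positivity
  have hac : ∀ T : Finset (Fin p), T ⊆ pos k p → ac k i T ^ 2 =
      4 ^ (k + 1) * (((top k p i).filter (· ⊆ T)).card : ℝ) ^ 2 := by
    intro T hT
    rw [ac, if_pos hT]
    have h0 : ((-2 : ℝ) ^ k) ^ 2 = 4 ^ k := by
      rw [← pow_mul, mul_comm k 2, pow_mul]
      norm_num
    calc (2 * (-2) ^ k * (((top k p i).filter (· ⊆ T)).card : ℝ)) ^ 2 =
        4 * ((-2 : ℝ) ^ k) ^ 2 * (((top k p i).filter (· ⊆ T)).card : ℝ) ^ 2 := by ring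
      _ = 4 ^ (k + 1) * (((top k p i).filter (· ⊆ T)).card : ℝ) ^ 2 := by
        rw [h0, pow_succ]
        ring
  have hN : ∀ T : Finset (Fin p), T.card = l → ((top k p i).filter (· ⊆ T)).card ≤
      l.choose (k + 1) := by
    intro T hT
    rw [← hT, ← Finset.card_powersetCard]
    refine Finset.card_le_card fun W hW => ?_
    rw [Finset.mem_filter] at hW
    exact Finset.mem_powersetCard.2 ⟨hW.2, top_card hW.1⟩
  have hsub : powersetCard l (pos k p) ⊆ powersetCard l (univ : Finset (Fin p)) :=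
    Finset.powersetCard_mono (Finset.subset_univ _)
  rw [← Finset.sum_subset hsub (fun T hT hT' => by
    rw [ac, if_neg, zero_pow two_ne_zero]
    intro h
    exact hT' (Finset.mem_powersetCard.2 ⟨h, (Finset.mem_powersetCard.1 hT).2⟩))]
  have h1 : ∑ T ∈ powersetCard l (pos k p), ac k i T ^ 2 ≤
      ∑ T ∈ powersetCard l (pos k p), 4 ^ (k + 1) * (l.choose (k + 1) : ℝ) *
        (((top k p i).filter (· ⊆ T)).card : ℝ) := by
    refine Finset.sum_le_sum fun T hT => ?_
    rw [Finset.mem_powersetCard] at hT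
    rw [hac T hT.1, sq, ← mul_assoc]
    have h2 : ((((top k p i).filter (· ⊆ T)).card : ℕ) : ℝ) ≤ (l.choose (k + 1) : ℝ) := by
      exact_mod_cast hN T hT.2
    refine mul_le_mul_of_nonneg_right ?_ (Nat.cast_nonneg _)
    exact mul_le_mul_of_nonneg_left h2 (by positivity)
  refine h1.trans ?_
  rw [← Finset.mul_sum]
  rcases lt_or_ge l (k + 1) with hl | hl
  · rw [Nat.choose_eq_zero_of_lt hl]
    simp only [Nat.cast_zero, mul_zero, zero_mul]
    exact mul_nonneg hkap (Nat.cast_nonneg _)
  obtain ⟨j, rfl⟩ := Nat.exists_eq_add_of_le hl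
  have h3 : ∑ T ∈ powersetCard (k + 1 + j) (pos k p), ((top k p i).filter (· ⊆ T)).card ≤
      (k.factorial * 2 ^ (k * (k - 1) / 2)) * (2 ^ k - (k + 1)).choose j := by
    simp_rw [Finset.card_filter]
    rw [Finset.sum_comm]
    simp_rw [← Finset.card_filter]
    calc ∑ W ∈ top k p i, ((powersetCard (k + 1 + j) (pos k p)).filter (fun T => W ⊆ T)).card
        ≤ ∑ _W ∈ top k p i, (2 ^ k - (k + 1)).choose j := by
          refine Finset.sum_le_sum fun W hW => ?_
          have h4 := card_between (top_subset_pos hW) j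
          rw [top_card hW] at h4
          refine h4.trans (Nat.choose_le_choose j ?_)
          exact Nat.sub_le_sub_right card_pos_le _
      _ = (top k p i).card * (2 ^ k - (k + 1)).choose j := by
          rw [Finset.sum_const, smul_eq_mul]
      _ ≤ _ := Nat.mul_le_mul_right _ top_le
  rcases le_or_gt (k + 1 + j) p with hjp | hjp
  · have h5 := main_ineq (a := k + 1) (j := j) (m := 2 ^ k) (p := p) (by omega) hjp
    have h3R : ∑ T ∈ powersetCard (k + 1 + j) (pos k p),
        (((top k p i).filter (· ⊆ T)).card : ℝ) ≤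
        ((k.factorial : ℝ) * 2 ^ (k * (k - 1) / 2)) * ((2 ^ k - (k + 1)).choose j : ℕ) := by
      exact_mod_cast h3
    have h5R : (((k + 1 + j).choose (k + 1) : ℕ) : ℝ) * (((2 ^ k - (k + 1)).choose j : ℕ) : ℝ) *
        ((p.choose (k + 1) : ℕ) : ℝ) ≤ 4 ^ (k + 1) * ((p.choose (k + 1 + j) : ℕ) : ℝ) := by
      exact_mod_cast h5
    rw [kap, div_mul_eq_mul_div, le_div_iff₀ hchR]
    have h16 : (16 : ℝ) ^ (k + 1) = 4 ^ (k + 1) * 4 ^ (k + 1) := by
      rw [← mul_pow]
      norm_num
    set r : ℝ := (k.factorial : ℝ) * 2 ^ (k * (k - 1) / 2) with hr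
    have hr0 : 0 ≤ r := by positivity
    calc 4 ^ (k + 1) * (((k + 1 + j).choose (k + 1) : ℕ) : ℝ) *
          (∑ T ∈ powersetCard (k + 1 + j) (pos k p), (((top k p i).filter (· ⊆ T)).card : ℝ)) *
          ((p.choose (k + 1) : ℕ) : ℝ)
        ≤ 4 ^ (k + 1) * (((k + 1 + j).choose (k + 1) : ℕ) : ℝ) *
          (r * (((2 ^ k - (k + 1)).choose j : ℕ) : ℝ)) * ((p.choose (k + 1) : ℕ) : ℝ) := by
          gcongr
      _ = 4 ^ (k + 1) * r * ((((k + 1 + j).choose (k + 1) : ℕ) : ℝ) *
          (((2 ^ k - (k + 1)).choose j : ℕ) : ℝ) * ((p.choose (k + 1) : ℕ) : ℝ)) := by ring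
      _ ≤ 4 ^ (k + 1) * r * (4 ^ (k + 1) * ((p.choose (k + 1 + j) : ℕ) : ℝ)) := by gcongr
      _ = _ := by
          rw [h16, hr]
          ring
  · have h6 : powersetCard (k + 1 + j) (pos k p) = ∅ := by
      rw [Finset.powersetCard_eq_empty]
      have := Finset.card_le_univ (pos k p)
      rw [Fintype.card_fin] at this
      omega
    rw [h6, Finset.sum_empty, mul_zero]
    exact mul_nonneg hkap (Nat.cast_nonneg _)

end Pool.Agent.Lib.Pe46137X
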