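import Pool.Agent.Lib.Pe46137X.Dual

/-!
Module Pe46137X.Graph.  The digraphs of the hard family.  `vx (q, b)` are distinct vertices
different from `s`, `t`.  The path given by `π`, `ε` runs through `s`, `vx (π j, ε j)` for
`j = 1, …, 2 ^ k`, `t`.  The cut given by `y` consists of `s` and the `vx (q, y q)`; its digraph has
all arcs that do not leave the cut.

* `exists_vx`: `{v // v ≠ s ∧ v ≠ t}` has `n - 2 ≥ 2 p` elements; `Fin p × Bool` embeds.
* `within_path`: the walk `j ↦ vert j`; `vert 0 = s`, `vert (2 ^ k + 1) = t`.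
* `not_reachable_cut`: the cut is closed under arcs (a vertex reachable from `s` is `InCut`:
  induction on `ReflTransGen`), `t` is not in it (`s ≠ t`, `t` not in the range of `vx`).
* `arc_cut_iff`: for `1 ≤ j ≤ 2 ^ k`, `vert j = vx (π j, ε j)` is in the cut iff `y (π j) = ε j`
  (injectivity of `vx`, `vx _ ≠ s`) iff `zz π ε y j = -1`, and otherwise `zz π ε y j = 1`.  `vert 0 = s`
  is in the cut, `vert (2 ^ k + 1) = t` is not.
-/

namespace Pool.Agent.Lib.Pe46137X

open Pool.Agent.Lib.Pe46137 Finset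

variable {n p k : ℕ} {s t : Fin n} {vx : Fin p × Bool → Fin n}

/-- the vertices of the path -/
def vert (s t : Fin n) (vx : Fin p × Bool → Fin n) (k : ℕ) (π : Equiv.Perm (Fin p))
    (ε : Fin p → Bool) (i : ℕ) : Fin n :=
  if i = 0 then s else if h : i ≤ 2 ^ k ∧ i < p then vx (π ⟨i, h.2⟩, ε ⟨i, h.2⟩) else t

/-- the arcs of the path -/
def pathArcs (s t : Fin n) (vx : Fin p × Bool → Fin n) (k : ℕ) (π : Equiv.Perm (Fin p))
    (ε : Fin p → Bool) : Set (Fin n × Fin n) :=
  {e | ∃ i ≤ 2 ^ k, e = (vert s t vx k π ε i, vert s t vx k π ε (i + 1))}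

/-- vertices of the cut -/
def InCut (s : Fin n) (vx : Fin p × Bool → Fin n) (y : Fin p → Bool) (v : Fin n) : Prop :=
  v = s ∨ ∃ q, v = vx (q, y q)

/-- the arcs that do not leave the cut -/
def cutArcs (s : Fin n) (vx : Fin p × Bool → Fin n) (y : Fin p → Bool) : Set (Fin n × Fin n) :=
  {e | ¬ (InCut s vx y e.1 ∧ ¬ InCut s vx y e.2)}

namespace GraphAux

theorem vert_zero (π : Equiv.Perm (Fin p)) (ε : Fin p → Bool) : vert s t vx k π ε 0 = s := by
  rw [vert, if_pos rfl]

theorem vert_last (π : Equiv.Perm (Fin p)) (ε : Fin p → Bool) :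
    vert s t vx k π ε (2 ^ k + 1) = t := by
  rw [vert, if_neg (Nat.succ_ne_zero _), dif_neg]
  rintro ⟨h, -⟩
  omega

theorem vert_mid (hp : 2 ^ k < p) (π : Equiv.Perm (Fin p)) (ε : Fin p → Bool) {i : ℕ}
    (h1 : 1 ≤ i) (h2 : i ≤ 2 ^ k) : vert s t vx k π ε i =
      vx (π ⟨i, h2.trans_lt hp⟩, ε ⟨i, h2.trans_lt hp⟩) := by
  rw [vert, if_neg (by omega), dif_pos ⟨h2, h2.trans_lt hp⟩]

theorem inCut_iff (hinj : Function.Injective vx) (hvx : ∀ x, vx x ≠ s ∧ vx x ≠ t)
    (π : Equiv.Perm (Fin p)) (ε y : Fin p → Bool) (j : Fin p) :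
    InCut s vx y (vx (π j, ε j)) ↔ y (π j) = ε j := by
  constructor
  · rintro (h | ⟨q, h⟩)
    · exact absurd h (hvx _).1
    · have h1 := hinj h
      rw [Prod.mk.injEq] at h1
      rw [h1.2, h1.1]
  · intro h
    exact Or.inr ⟨π j, by rw [h]⟩

theorem zz_neg (π : Equiv.Perm (Fin p)) (ε y : Fin p → Bool) (j : Fin p) :
    zz π ε y j = -1 ↔ y (π j) = ε j := by
  unfold zz
  split_ifs with h
  · simp [h]
  · constructor
    · intro h1
      norm_num at h1
    · intro h1
      exact absurd h1 h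

theorem zz_pos (π : Equiv.Perm (Fin p)) (ε y : Fin p → Bool) (j : Fin p) :
    zz π ε y j = 1 ↔ ¬ y (π j) = ε j := by
  unfold zz
  split_ifs with h
  · constructor
    · intro h1
      norm_num at h1
    · intro h1
      exact absurd h h1
  · simp [h]

end GraphAux

open GraphAux

theorem exists_vx (h : 2 * p + 2 ≤ n) (hst : s ≠ t) : ∃ vx : Fin p × Bool → Fin n,
    Function.Injective vx ∧ ∀ x, vx x ≠ s ∧ vx x ≠ t := by
  classical
  have h1 : (univ \ {s, t} : Finset (Fin n)).card = n - 2 := by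
    rw [Finset.card_sdiff_of_subset (Finset.subset_univ _), Finset.card_univ, Fintype.card_fin,
      Finset.card_pair hst]
  have h2 : Fintype.card (Fin p × Bool) ≤ Fintype.card (univ \ {s, t} : Finset (Fin n)) := by
    rw [Fintype.card_coe, h1, Fintype.card_prod, Fintype.card_fin, Fintype.card_bool]
    omega
  obtain ⟨f⟩ := Function.Embedding.nonempty_of_card_le h2
  refine ⟨fun x => f x, fun x y hxy => f.injective (Subtype.ext hxy), fun x => ?_⟩
  have h3 := (f x).2
  rw [Finset.mem_sdiff, Finset.mem_insert, Finset.mem_singleton, not_or] at h3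
  exact h3.2

theorem within_path (hp : 2 ^ k < p) (π : Equiv.Perm (Fin p)) (ε : Fin p → Bool) :
    Within (pathArcs s t vx k π ε) s t (2 ^ k + 1) := by
  refine ⟨2 ^ k + 1, le_rfl, vert s t vx k π ε, vert_zero π ε, vert_last π ε, fun j hj => ?_⟩
  exact ⟨j, Nat.lt_succ_iff.1 hj, rfl⟩

theorem not_reachable_cut (hst : s ≠ t) (hvx : ∀ x, vx x ≠ s ∧ vx x ≠ t) (y : Fin p → Bool) :
    ¬ Reachable (cutArcs s vx y) s t := by
  intro h
  have key : ∀ v, Relation.ReflTransGen (fun a b => (a, b) ∈ cutArcs s vx y) s v →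
      InCut s vx y v := by
    intro v hv
    induction hv with
    | refl => exact Or.inl rfl
    | tail _ hbc ih =>
      by_contra hcon
      exact hbc ⟨ih, hcon⟩
  rcases key t h with h1 | ⟨q, h1⟩
  · exact hst h1.symm
  · exact (hvx _).2 h1.symm

theorem arc_cut_iff (hst : s ≠ t) (hinj : Function.Injective vx) (hvx : ∀ x, vx x ≠ s ∧ vx x ≠ t)
    (hp : 2 ^ k < p) (π : Equiv.Perm (Fin p)) (ε y : Fin p → Bool) {i : ℕ} (hi : i ≤ 2 ^ k) :
    (vert s t vx k π ε i, vert s t vx k π ε (i + 1)) ∉ cutArcs s vx y ↔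
      (i = 0 ∨ ∀ j : Fin p, j.val = i → zz π ε y j = -1) ∧
      (i = 2 ^ k ∨ ∀ j : Fin p, j.val = i + 1 → zz π ε y j = 1) := by
  have h1 : (vert s t vx k π ε i, vert s t vx k π ε (i + 1)) ∉ cutArcs s vx y ↔
      InCut s vx y (vert s t vx k π ε i) ∧ ¬ InCut s vx y (vert s t vx k π ε (i + 1)) := not_not
  rw [h1]
  refine and_congr ?_ ?_
  · by_cases h0 : i = 0
    · subst h0
      rw [vert_zero]
      exact ⟨fun _ => Or.inl rfl, fun _ => Or.inl rfl⟩
    · rw [vert_mid hp π ε (Nat.one_le_iff_ne_zero.2 h0) hi, inCut_iff hinj hvx]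
      constructor
      · intro h
        refine Or.inr fun j hj => ?_
        rw [zz_neg]
        have h2 : j = ⟨i, hi.trans_lt hp⟩ := Fin.ext hj
        rw [h2]
        exact h
      · rintro (h | h)
        · exact absurd h h0
        · exact (zz_neg π ε y _).1 (h ⟨i, hi.trans_lt hp⟩ rfl)
  · by_cases h0 : i = 2 ^ k
    · subst h0
      rw [vert_last]
      refine ⟨fun _ => Or.inl rfl, fun _ => ?_⟩
      rintro (h | ⟨q, h⟩)
      · exact hst h.symm
      · exact (hvx _).2 h.symm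
    · have h3 : i + 1 ≤ 2 ^ k := by omega
      rw [vert_mid hp π ε (Nat.le_add_left 1 i) h3, inCut_iff hinj hvx]
      constructor
      · intro h
        refine Or.inr fun j hj => ?_
        rw [zz_pos]
        have h2 : j = ⟨i + 1, h3.trans_lt hp⟩ := Fin.ext hj
        rw [h2]
        exact h
      · rintro (h | h)
        · exact absurd h h0
        · exact (zz_pos π ε y _).1 (h ⟨i + 1, h3.trans_lt hp⟩ rfl)

end Pool.Agent.Lib.Pe46137X
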