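import Pool.Agent.Lib.Pe46137X.Dual
import Pool.Agent.Lib.Pe46137.Fourier

/-!
Module Pe46137X.Norm.  The norm bound by Fourier analysis.  `Pool.Agent.Lib.Pe46137.Fourier`
(on main) has the characters `chi S x = ∏ i ∈ S, (if x i then -1 else 1)`, the average `avg`, the
coefficients `coef g S = avg (g * chi S)`, expansion, orthogonality `avg_chi_mul`, Parseval.

* `zz π ε y j = - chi {j} ε * chi {π j} y` (four cases), so
  `∏ j ∈ T, zz π ε y j = (-1) ^ |T| * chi T ε * chi (T.map π) y` (`T.map π.toEmbedding`).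
* Fix `π`.  `∑ y, (∑ T, a T * ∏ zz) * R y = 2 ^ p * ∑ T, a T * (-1)^|T| * coef R (π T) * chi T ε`.
  Summing the square over `ε`, by orthogonality of the `chi T`: `2 ^ p * (2 ^ p) ^ 2 *
  ∑ T, a T ^ 2 * coef R (π T) ^ 2`.
* For sets `T`, `V` with the same number `l` of elements the number of `π` with `π T = V` is
  `p! / C(p, l)`: it does not depend on `V` (compose with a permutation that maps `V` to `V'`; it
  exists, e.g. `Finset.exists_equiv...` or extend a bijection `V ≃ V'` by one of the complements),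
  and the sum over the `C(p, l)` sets `V` is `p!`.  Hence `∑ π, coef R (π T) ^ 2 =
  p! / C(p, l) * ∑_{|V| = l} coef R V ^ 2`.  (An inequality `≤` suffices.)
* So the left side is `2 ^ p * 4 ^ p * p! * ∑_l (∑_{|T| = l} a T ^ 2) / C(p, l) * ∑_{|V| = l}
  coef R V ^ 2 ≤ 8 ^ p * p! * κ * ∑_V coef R V ^ 2 = 8 ^ p * p! * κ * (∑ y, R y ^ 2) / 2 ^ p`
  (Parseval).  (`κ ≥ 0` follows from `ha 0` when needed: `C(p,0) = 1`.)
* `sum_zz`: `∑ y, ∏ j ∈ T, zz π ε y j = 0` for `T ≠ ∅`.
-/

namespace Pool.Agent.Lib.Pe46137X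

open Pool.Agent.Lib.Pe46137 Finset

variable {p : ℕ}

namespace NormAux

theorem prod_zz (π : Equiv.Perm (Fin p)) (ε y : Fin p → Bool) (T : Finset (Fin p)) :
    ∏ j ∈ T, zz π ε y j = (-1) ^ T.card * chi T ε * chi (T.map π.toEmbedding) y := by
  have h1 : chi (T.map π.toEmbedding) y = chi T (fun i => y (π i)) :=
    (chi_comp π.toEmbedding T y).symm
  rw [h1]
  unfold chi
  rw [← prod_const, ← prod_mul_distrib, ← prod_mul_distrib]
  refine prod_congr rfl fun j _ => ?_
  unfold zz
  cases h2 : y (π j) <;> cases h3 : ε j <;> simp [h2]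

theorem sum_chi_two (S T : Finset (Fin p)) :
    ∑ x : Fin p → Bool, chi S x * chi T x = if S = T then 2 ^ p else 0 := by
  have h := avg_chi_mul S T
  unfold avg at h
  rw [Fintype.card_fin, div_eq_iff (by positivity)] at h
  rw [h]
  split_ifs <;> simp

theorem sum_sq (b : Finset (Fin p) → ℝ) :
    ∑ ε : Fin p → Bool, (∑ T, b T * chi T ε) ^ 2 = 2 ^ p * ∑ T, b T ^ 2 := by
  have h1 : ∀ ε : Fin p → Bool, (∑ T, b T * chi T ε) ^ 2 =
      ∑ T, ∑ S, (b T * b S) * (chi T ε * chi S ε) := by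
    intro ε
    rw [sq, sum_mul_sum]
    refine sum_congr rfl fun T _ => sum_congr rfl fun S _ => ?_
    ring
  simp_rw [h1]
  rw [sum_comm, mul_sum]
  refine sum_congr rfl fun T _ => ?_
  rw [sum_comm]
  simp_rw [← mul_sum, sum_chi_two]
  simp only [mul_ite, mul_zero, sum_ite_eq, mem_univ, if_true]
  ring

theorem parseval' (R : (Fin p → Bool) → ℝ) :
    ∑ y, R y ^ 2 = 2 ^ p * ∑ T, coef R T ^ 2 := by
  rw [← sum_sq]
  refine sum_congr rfl fun y _ => ?_
  rw [← expand R y]

theorem exists_perm {T T' : Finset (Fin p)} (h : T.card = T'.card) :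
    ∃ σ : Equiv.Perm (Fin p), T.map σ.toEmbedding = T' := by
  classical
  let e : {x // x ∈ T} ≃ {x // x ∈ T'} := Finset.equivOfCardEq h
  refine ⟨e.extendSubtype, ?_⟩
  refine Finset.eq_of_subset_of_card_le ?_ ?_
  · intro x hx
    obtain ⟨y, hy, rfl⟩ := Finset.mem_map.1 hx
    exact e.extendSubtype_mem y hy
  · rw [Finset.card_map, h]

theorem perm_count (F : Finset (Fin p) → ℝ) (T : Finset (Fin p)) :
    (p.choose T.card : ℝ) * ∑ π : Equiv.Perm (Fin p), F (T.map π.toEmbedding) =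
      p.factorial * ∑ V ∈ powersetCard T.card (univ : Finset (Fin p)), F V := by
  have h1 : ∀ T' ∈ powersetCard T.card (univ : Finset (Fin p)),
      ∑ π : Equiv.Perm (Fin p), F (T'.map π.toEmbedding) =
        ∑ π : Equiv.Perm (Fin p), F (T.map π.toEmbedding) := by
    intro T' hT'
    obtain ⟨σ, hσ⟩ := exists_perm (mem_powersetCard.1 hT').2.symm
    rw [← hσ]
    refine Fintype.sum_equiv (Equiv.mulRight σ) _ _ fun π => ?_
    congr 1
    rw [Finset.map_map]
    rfl
  have h2 : ∑ T' ∈ powersetCard T.card (univ : Finset (Fin p)),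
      ∑ π : Equiv.Perm (Fin p), F (T'.map π.toEmbedding) =
      (p.choose T.card : ℝ) * ∑ π : Equiv.Perm (Fin p), F (T.map π.toEmbedding) := by
    rw [sum_congr rfl h1, sum_const, card_powersetCard, card_univ, Fintype.card_fin, nsmul_eq_mul]
  rw [← h2, sum_comm]
  have h3 : ∀ π : Equiv.Perm (Fin p), ∑ T' ∈ powersetCard T.card (univ : Finset (Fin p)),
      F (T'.map π.toEmbedding) = ∑ V ∈ powersetCard T.card (univ : Finset (Fin p)), F V := by
    intro π
    refine sum_nbij' (fun V => V.map π.toEmbedding) (fun V => V.map π.symm.toEmbedding) ?_ ?_ ?_ ?_ ?_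
    · intro V hV
      rw [mem_powersetCard] at hV ⊢
      exact ⟨subset_univ _, by rw [card_map, hV.2]⟩
    · intro V hV
      rw [mem_powersetCard] at hV ⊢
      exact ⟨subset_univ _, by rw [card_map, hV.2]⟩
    · intro V _
      rw [Finset.map_map]
      convert Finset.map_refl
      ext x
      simp
    · intro V _
      rw [Finset.map_map]
      convert Finset.map_refl
      ext x
      simp
    · intro V _
      rfl
  rw [sum_congr rfl fun π _ => h3 π, sum_const, card_univ, Fintype.card_perm, Fintype.card_fin,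
    nsmul_eq_mul]

theorem inner_eq (a : Finset (Fin p) → ℝ) (R : (Fin p → Bool) → ℝ) (π : Equiv.Perm (Fin p))
    (ε : Fin p → Bool) :
    ∑ y : Fin p → Bool, (∑ T : Finset (Fin p), a T * ∏ j ∈ T, zz π ε y j) * R y =
      2 ^ p * ∑ T, (a T * (-1) ^ T.card * coef R (T.map π.toEmbedding)) * chi T ε := by
  have h1 : ∀ T : Finset (Fin p), coef R (T.map π.toEmbedding) * 2 ^ p =
      ∑ y, R y * chi (T.map π.toEmbedding) y := by
    intro T
    unfold coef avg
    rw [Fintype.card_fin, div_mul_cancel₀ _ (by positivity)]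
  have h2 : ∀ y : Fin p → Bool, (∑ T : Finset (Fin p), a T * ∏ j ∈ T, zz π ε y j) * R y =
      ∑ T : Finset (Fin p), (a T * (-1) ^ T.card * chi T ε) *
        (R y * chi (T.map π.toEmbedding) y) := by
    intro y
    rw [sum_mul]
    refine sum_congr rfl fun T _ => ?_
    rw [prod_zz]
    ring
  simp_rw [h2]
  rw [sum_comm, mul_sum]
  refine sum_congr rfl fun T _ => ?_
  rw [← mul_sum, ← h1]
  ring

end NormAux

open NormAux

theorem norm_main (a : Finset (Fin p) → ℝ) (κ : ℝ)
    (ha : ∀ l, ∑ T ∈ powersetCard l (univ : Finset (Fin p)), a T ^ 2 ≤ κ * (p.choose l : ℝ))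
    (R : (Fin p → Bool) → ℝ) :
    ∑ π : Equiv.Perm (Fin p), ∑ ε : Fin p → Bool,
      (∑ y : Fin p → Bool, (∑ T : Finset (Fin p), a T * ∏ j ∈ T, zz π ε y j) * R y) ^ 2 ≤
    κ * ((p.factorial : ℝ) * 2 ^ p) * 2 ^ p * ∑ y, R y ^ 2 := by
  have h1 : ∀ π : Equiv.Perm (Fin p), ∑ ε : Fin p → Bool,
      (∑ y : Fin p → Bool, (∑ T : Finset (Fin p), a T * ∏ j ∈ T, zz π ε y j) * R y) ^ 2 =
      (2 ^ p) ^ 3 * ∑ T, a T ^ 2 * coef R (T.map π.toEmbedding) ^ 2 := by
    intro π
    simp_rw [inner_eq, mul_pow]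
    rw [← mul_sum, sum_sq]
    have h2 : ∀ T : Finset (Fin p), (a T * (-1) ^ T.card * coef R (T.map π.toEmbedding)) ^ 2 =
        a T ^ 2 * coef R (T.map π.toEmbedding) ^ 2 := by
      intro T
      rw [mul_pow, mul_pow, ← pow_mul, mul_comm T.card 2, pow_mul]
      norm_num
    simp_rw [h2]
    ring
  simp_rw [h1]
  rw [← mul_sum, sum_comm]
  simp_rw [← mul_sum]
  rw [parseval']
  set F : Finset (Fin p) → ℝ := fun V => coef R V ^ 2 with hF
  have h3 : ∑ T : Finset (Fin p), a T ^ 2 * ∑ π : Equiv.Perm (Fin p), F (T.map π.toEmbedding) ≤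
      κ * p.factorial * ∑ V, F V := by
    rw [← Finset.powerset_univ, sum_powerset, sum_powerset, mul_sum]
    refine sum_le_sum fun l hl => ?_
    rw [card_univ, Fintype.card_fin, mem_range] at hl
    have hC : (0 : ℝ) < p.choose l := by exact_mod_cast Nat.choose_pos (by omega)
    have hG : 0 ≤ ∑ V ∈ powersetCard l (univ : Finset (Fin p)), F V :=
      sum_nonneg fun V _ => sq_nonneg _
    have h4 : ∑ T ∈ powersetCard l (univ : Finset (Fin p)), a T ^ 2 *
        ∑ π : Equiv.Perm (Fin p), F (T.map π.toEmbedding) =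
        (∑ T ∈ powersetCard l (univ : Finset (Fin p)), a T ^ 2) *
          (p.factorial * (∑ V ∈ powersetCard l (univ : Finset (Fin p)), F V) / p.choose l) := by
      rw [sum_mul]
      refine sum_congr rfl fun T hT => ?_
      have h5 := perm_count F T
      rw [(mem_powersetCard.1 hT).2] at h5
      rw [← h5, mul_comm ((p.choose l : ℝ)), mul_div_cancel_right₀ _ hC.ne']
    rw [h4]
    calc (∑ T ∈ powersetCard l (univ : Finset (Fin p)), a T ^ 2) *
          (p.factorial * (∑ V ∈ powersetCard l (univ : Finset (Fin p)), F V) / p.choose l)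
        ≤ (κ * (p.choose l : ℝ)) *
          (p.factorial * (∑ V ∈ powersetCard l (univ : Finset (Fin p)), F V) / p.choose l) :=
          mul_le_mul_of_nonneg_right (ha l) (by positivity)
      _ = _ := by
          field_simp
  calc (2 ^ p) ^ 3 * ∑ T : Finset (Fin p), a T ^ 2 *
        ∑ π : Equiv.Perm (Fin p), coef R (T.map π.toEmbedding) ^ 2
      ≤ (2 ^ p) ^ 3 * (κ * p.factorial * ∑ V, F V) :=
        mul_le_mul_of_nonneg_left h3 (by positivity)
    _ = _ := by ring

theorem sum_zz (a : Finset (Fin p) → ℝ) (π : Equiv.Perm (Fin p)) (ε : Fin p → Bool) :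
    ∑ y : Fin p → Bool, ∑ T : Finset (Fin p), a T * ∏ j ∈ T, zz π ε y j = a ∅ * 2 ^ p := by
  have h1 : ∀ S : Finset (Fin p), ∑ y : Fin p → Bool, chi S y = if S = ∅ then 2 ^ p else 0 := by
    intro S
    have := sum_chi_two S ∅
    rw [← this]
    refine sum_congr rfl fun y _ => ?_
    unfold chi
    simp
  rw [sum_comm]
  have h2 : ∀ T : Finset (Fin p), ∑ y : Fin p → Bool, a T * ∏ j ∈ T, zz π ε y j =
      if T = ∅ then a ∅ * 2 ^ p else 0 := by
    intro T
    simp_rw [prod_zz]
    rw [← mul_sum, ← mul_sum, h1]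
    by_cases hT : T = ∅
    · subst hT
      simp [chi]
    · have h3 : T.map π.toEmbedding ≠ ∅ := by
        intro h
        exact hT (Finset.map_eq_empty.1 h)
      rw [if_neg h3, if_neg hT]
      ring
  rw [sum_congr rfl fun T _ => h2 T]
  simp

end Pool.Agent.Lib.Pe46137X
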