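import Pool.Agent.Lib.Pe46137X.Coef
import Pool.Agent.Lib.Pe46137X.Norm
import Pool.Agent.Lib.Pe46137X.Graph

/-!
Module Pe46137X.Core.  Assembly of the hard family; all imports are black boxes.

`X = Equiv.Perm (Fin p) × (Fin p → Bool)`, `Y = Fin p → Bool`, `vx` from `exists_vx`,
`gP (π, ε) = pathArcs s t vx k π ε`, `gY y = cutArcs s vx y`, `M (π, ε) y = psi k (zz π ε y)`,
`A i (π, ε) y = if i.val < 2 ^ k then aa k i (zz π ε y) else 0` for `i : Fin (2 ^ k + 1)`.
* `2 ^ k < p` from the hypothesis.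
* walks: `within_path`; rejection: `not_reachable_cut`.
* row sums: `psi_expand`, `sum_zz`, `pc_empty`, `Fintype.card Y = 2 ^ p`.
* an arc of `gP (π, ε)` is `(vert i, vert (i + 1))`, `i ≤ 2 ^ k`; take index `i`.  If it is missing in
  `gY y`, `arc_cut_iff` gives the signs; `i < 2 ^ k`: `psi_eq_aa`; `i = 2 ^ k`: `psi_last`.
* norm: `aa_expand`, `norm_main` with `a = ac k i`, `sum_ac_sq_le`; `Fintype.card X = p! * 2 ^ p`
  (`Fintype.card_perm`), sum over a product type (`Fintype.sum_prod_type`).  For `i = 2 ^ k` the left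
  side is `0` and `kap k p ≥ 0`.
-/

namespace Pool.Agent.Lib.Pe46137X

open Pool.Agent.Lib.Pe46137 Finset

theorem core {n k p : ℕ} {s t : Fin n} (hst : s ≠ t) (h1 : 2 * p + 2 ≤ n)
    (h2 : 4 * 2 ^ k + k + 1 ≤ p) : HardFor s t (2 ^ k + 1) (2 ^ k + 1) (kap k p) := by
  obtain ⟨vx, hinj, hvx⟩ := exists_vx h1 hst
  have hpow : 1 ≤ 2 ^ k := Nat.one_le_two_pow
  have hp : 2 ^ k < p := by omega
  have hkap : 0 ≤ kap k p := by
    unfold kap
    positivity
  have hcY : (Fintype.card (Fin p → Bool) : ℝ) = 2 ^ p := by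
    rw [Fintype.card_fun, Fintype.card_bool, Fintype.card_fin]
    push_cast
    rfl
  have hcX : (Fintype.card (Equiv.Perm (Fin p) × (Fin p → Bool)) : ℝ) =
      (p.factorial : ℝ) * 2 ^ p := by
    rw [Fintype.card_prod, Fintype.card_perm, Fintype.card_fin, Nat.cast_mul, hcY]
  refine ⟨Equiv.Perm (Fin p) × (Fin p → Bool), Fin p → Bool, inferInstance, inferInstance,
    fun P => pathArcs s t vx k P.1 P.2, fun y => cutArcs s vx y,
    fun P y => psi k (zz P.1 P.2 y),
    fun i P y => if i.val < 2 ^ k then aa k i.val (zz P.1 P.2 y) else 0,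
    inferInstance, inferInstance, fun P => within_path hp P.1 P.2,
    fun y => not_reachable_cut hst hvx y, ?_, ?_, ?_⟩
  · intro P
    simp_rw [psi_expand]
    rw [sum_zz, pc_empty, one_mul, hcY]
  · rintro P e ⟨i, hi, rfl⟩
    refine ⟨⟨i, Nat.lt_succ_of_le hi⟩, fun y hy => ?_⟩
    obtain ⟨h3, h4⟩ := (arc_cut_iff hst hinj hvx hp P.1 P.2 y hi).1 hy
    by_cases hlt : i < 2 ^ k
    · simp only [if_pos hlt]
      exact psi_eq_aa hp hlt _ h3 (h4.resolve_left hlt.ne)
    · simp only [if_neg hlt]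
      have h5 : i = 2 ^ k := by omega
      subst h5
      exact psi_last hp _ (h3.resolve_left (by omega))
  · intro i R
    by_cases hlt : i.val < 2 ^ k
    · simp only [if_pos hlt]
      rw [Fintype.sum_prod_type, hcX, hcY]
      simp_rw [aa_expand]
      exact norm_main (ac k i.val) (kap k p) (fun l => sum_ac_sq_le h2 i.val l) R
    · simp only [if_neg hlt, zero_mul, Finset.sum_const_zero, ne_eq, OfNat.ofNat_ne_zero,
        not_false_eq_true, zero_pow]
      refine mul_nonneg (mul_nonneg (mul_nonneg hkap (Nat.cast_nonneg _)) (Nat.cast_nonneg _)) ?_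
      exact Finset.sum_nonneg fun y _ => sq_nonneg _

end Pool.Agent.Lib.Pe46137X
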