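import Pool.Agent.Lib.Pe46137X.Walks

/-!
The dual functions of the lower bound: definitions.
-/

namespace Pool.Agent.Lib.Pe46137X

open Pool.Agent.Lib.Pe46137 Finset

/-- configurations of the reversible pebble game on the positions `1, 2, …` with `k` pebbles,
described by a recursion: a new position `q` may be added if some `p ∈ K ∪ {0}` below it is at
distance at most `2 ^ (number of pebbles that are left)` -/
inductive Reach (k : ℕ) : Finset ℕ → Prop
  | empty : Reach k ∅
  | add {K : Finset ℕ} {p q : ℕ} : Reach k K → (p = 0 ∨ p ∈ K) → q ∉ K → p < q →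
      K.card + 1 ≤ k → q ≤ p + 2 ^ (k - (K.card + 1)) → Reach k (insert q K)

open Classical in
/-- the configurations with `k` pebbles as sets of elements of `Fin p` -/
noncomputable def conf (k p : ℕ) : Finset (Finset (Fin p)) :=
  univ.filter fun U => Reach k (U.map Fin.valEmbedding)

/-- the positions `1, …, 2 ^ k` -/
def pos (k p : ℕ) : Finset (Fin p) := univ.filter fun j => 1 ≤ j.val ∧ j.val ≤ 2 ^ k

open Classical in
/-- the sets `U ∪ {i + 1}`, `U` a configuration with exactly `k` elements that contains `i` (if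
`i ≠ 0`) and not `i + 1` -/
noncomputable def top (k p i : ℕ) : Finset (Finset (Fin p)) :=
  univ.filter fun W => ∃ U ∈ conf k p, U.card = k ∧ (i = 0 ∨ ∃ j ∈ U, j.val = i) ∧
    ∃ j, j.val = i + 1 ∧ j ∉ U ∧ W = insert j U

/-- the dual function, a function of the signs `z j` (`-1` inside, `1` outside the cut) -/
noncomputable def psi (k : ℕ) {p : ℕ} (z : Fin p → ℝ) : ℝ :=
  ∑ U ∈ conf k p, (-2) ^ U.card * (∏ j ∈ U, z j) * ∏ j ∈ pos k p \ U, (1 + z j)

/-- the function that agrees with `psi` if the arc from position `i` to position `i + 1` leaves the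
cut -/
noncomputable def aa (k i : ℕ) {p : ℕ} (z : Fin p → ℝ) : ℝ :=
  2 * (-2) ^ k * ∑ W ∈ top k p i, (∏ j ∈ W, z j) * ∏ j ∈ pos k p \ W, (1 + z j)

open Classical in
/-- coefficients of `psi` -/
noncomputable def pc (k : ℕ) {p : ℕ} (T : Finset (Fin p)) : ℝ :=
  if T ⊆ pos k p then ∑ U ∈ (conf k p).filter (· ⊆ T), (-2) ^ U.card else 0

open Classical in
/-- coefficients of `aa` -/
noncomputable def ac (k i : ℕ) {p : ℕ} (T : Finset (Fin p)) : ℝ :=
  if T ⊆ pos k p then 2 * (-2) ^ k * (((top k p i).filter (· ⊆ T)).card : ℝ) else 0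

/-- the sign of position `j` for the path given by `π`, `ε` and the cut given by `y` -/
def zz {p : ℕ} (π : Equiv.Perm (Fin p)) (ε y : Fin p → Bool) (j : Fin p) : ℝ :=
  if y (π j) = ε j then -1 else 1

/-- the bound for the square of the norm -/
noncomputable def kap (k p : ℕ) : ℝ :=
  16 ^ (k + 1) * k.factorial * 2 ^ (k * (k - 1) / 2) / p.choose (k + 1)

/-- hard families: accepted digraphs `gP`, rejected digraphs `gY`, a matrix `M` with constant row
sums that agrees with one of `c` matrices `A i` of small norm wherever a given arc of `gP P` is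
missing in `gY y` -/
def HardFor {V : Type} (s t : V) (ℓ c : ℕ) (κ : ℝ) : Prop :=
  ∃ (X Y : Type) (_ : Fintype X) (_ : Fintype Y) (gP : X → Set (V × V)) (gY : Y → Set (V × V))
    (M : X → Y → ℝ) (A : Fin c → X → Y → ℝ), Nonempty X ∧ Nonempty Y ∧
    (∀ P, Within (gP P) s t ℓ) ∧ (∀ y, ¬ Reachable (gY y) s t) ∧
    (∀ P, ∑ y, M P y = Fintype.card Y) ∧
    (∀ P, ∀ e ∈ gP P, ∃ i, ∀ y, e ∉ gY y → M P y = A i P y) ∧
    ∀ (i : Fin c) (R : Y → ℝ), ∑ P, (∑ y, A i P y * R y) ^ 2 ≤
      κ * Fintype.card X * Fintype.card Y * ∑ y, R y ^ 2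

end Pool.Agent.Lib.Pe46137X
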