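import Pool.Agent.Lib.Pe46137X.Dual

/-!
Module Pe46137X.Peb.  Configurations of the pebble game: `Reach` (an inductive predicate, see
Dual.lean).  Prove the five theorems below; auxiliary lemmas are welcome.

* `Reach.card_le`: induction.
* `Reach.add_le`: induction.  For `insert q K`: card is `K.card + 1`.  The new element:
  `q ≤ p + 2 ^ (k - (|K|+1))` and `p = 0` or `p + 2 ^ (k - |K|) ≤ 2 ^ k`; as
  `2 ^ (k - |K|) = 2 * 2 ^ (k - (|K|+1))` (`|K|+1 ≤ k`), `q + 2 ^ (k-(|K|+1)) ≤ 2 ^ k`.  Old elements:
  the bound only gets weaker.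
* `Reach.erase` (removal lemma), induction on the derivation of `Reach k K`, statement for all
  `p q`.  `K = insert r K''`, `r ∉ K''`, `|K| = |K''| + 1`, `r ≤ p' + 2 ^ (k - |K|)`, `p' < r`,
  `p' = 0 ∨ p' ∈ K''`.
  - `q = r`: `(insert r K'').erase r = K''`.
  - `q ≠ r`, so `q ∈ K''`, and `(insert r K'').erase q = insert r (K''.erase q)`.
    + `p ≠ r` (so `p = 0 ∨ p ∈ K''`): `q ≤ p + 2 ^ (k-|K|) ≤ p + 2 ^ (k - |K''|)`, so `K''.erase q`
      is reachable by induction.  If `p' ≠ q` add `r` from `p'`.  If `p' = q` add `r` from `p`: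
      `r ≤ q + 2 ^ (k-|K|) ≤ p + 2 * 2 ^ (k-|K|) = p + 2 ^ (k-|K''|)` (note `|K''.erase q| + 1
      = |K''|`), `p < q < r`, and `p ≠ q`, so `p = 0 ∨ p ∈ K''.erase q`.
    + `p = r`: `q ≤ r + 2 ^ (k-|K|) ≤ p' + 2 ^ (k-|K''|)`, `p' < r < q`: by induction (with `p'`)
      `K''.erase q` is reachable; add `r` from `p'` (`p' ≠ q`).
* `Reach.step_iff`: `→` is the constructor with `p = i`; `←` is `Reach.erase` with `q = i + 1`,
  `p = i`, and `(insert (i+1) U).erase (i+1) = U`.
* `reach_finite`: all elements are `< 2 ^ k`.
* `card_reach_le`: more generally the number of reachable sets with exactly `l` elements is at most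
  `∏ j ∈ range l, (j + 1) * 2 ^ (k - (j + 1))` for `l ≤ k`: every such set (`l ≥ 1`) is
  `insert (p + d) K'` with `K'` reachable with `l - 1` elements, `p ∈ insert 0 K'` (at most `l`
  choices), `1 ≤ d ≤ 2 ^ (k - l)`.  For `l = k` the product is `k! * 2 ^ (k (k-1) / 2)`.
-/

namespace Pool.Agent.Lib.Pe46137X

open Finset

variable {k : ℕ} {K U : Finset ℕ}

theorem Reach.card_le (h : Reach k K) : K.card ≤ k := by
  induction h with
  | empty => simp
  | @add K p r hK hp hr hpr hc hd ih => rw [card_insert_of_notMem hr]; exact hc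

private theorem two_pow_sub {k c : ℕ} (hc : c + 1 ≤ k) : 2 ^ (k - c) = 2 * 2 ^ (k - (c + 1)) := by
  rw [← pow_succ', show k - c = k - (c + 1) + 1 by omega]

theorem Reach.add_le (h : Reach k K) {q : ℕ} (hq : q ∈ K) : q + 2 ^ (k - K.card) ≤ 2 ^ k := by
  induction h generalizing q with
  | empty => simp at hq
  | @add K p r hK hp hr hpr hc hd ih =>
    rw [card_insert_of_notMem hr]
    have h2 := two_pow_sub hc
    rcases mem_insert.mp hq with rfl | hq
    · rcases hp with rfl | hp
      · have : 2 ^ (k - K.card) ≤ 2 ^ k := Nat.pow_le_pow_right (by norm_num) (Nat.sub_le _ _)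
        omega
      · have := ih hp
        omega
    · have := ih hq
      omega

theorem Reach.one_le (h : Reach k K) {q : ℕ} (hq : q ∈ K) : 1 ≤ q := by
  induction h generalizing q with
  | empty => simp at hq
  | @add K p r hK hp hr hpr hc hd ih =>
    rcases mem_insert.mp hq with rfl | hq
    · omega
    · exact ih hq

theorem Reach.erase (h : Reach k K) {p q : ℕ} (hq : q ∈ K) (hp : p = 0 ∨ p ∈ K) (hpq : p < q)
    (hd : q ≤ p + 2 ^ (k - K.card)) : Reach k (K.erase q) := by
  induction h generalizing p q with
  | empty => simp at hq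
  | @add K p' r hK hp' hr hpr hc hd' ih =>
    rw [card_insert_of_notMem hr] at hd
    have h2 := two_pow_sub hc
    by_cases hqr : q = r
    · subst hqr
      rw [erase_insert hr]
      exact hK
    · have hqK : q ∈ K := (mem_insert.mp hq).resolve_left hqr
      have he : (insert r K).erase q = insert r (K.erase q) :=
        erase_insert_of_ne (Ne.symm hqr)
      have hcard : (K.erase q).card + 1 = K.card := card_erase_add_one hqK
      have hr' : r ∉ K.erase q := fun h => hr (mem_of_mem_erase h)
      rw [he]
      by_cases hpr' : p = r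
      · subst hpr'
        have h3 : Reach k (K.erase q) := ih hqK hp' (by omega) (by omega)
        refine Reach.add h3 (p := p') ?_ hr' hpr (by omega) ?_
        · rcases hp' with h | h
          · exact Or.inl h
          · exact Or.inr (mem_erase.mpr ⟨by omega, h⟩)
        · rw [hcard]
          omega
      · have hpK : p = 0 ∨ p ∈ K := by
          rcases hp with h | h
          · exact Or.inl h
          · exact Or.inr ((mem_insert.mp h).resolve_left hpr')
        have h3 : Reach k (K.erase q) := ih hqK hpK hpq (by omega)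
        by_cases hp'q : p' = q
        · subst hp'q
          refine Reach.add h3 (p := p) ?_ hr' (by omega) (by omega) ?_
          · rcases hpK with h | h
            · exact Or.inl h
            · exact Or.inr (mem_erase.mpr ⟨by omega, h⟩)
          · rw [hcard]
            omega
        · refine Reach.add h3 (p := p') ?_ hr' hpr (by omega) ?_
          · rcases hp' with h | h
            · exact Or.inl h
            · exact Or.inr (mem_erase.mpr ⟨hp'q, h⟩)
          · rw [hcard]
            omega

theorem Reach.step_iff {i : ℕ} (hi : i = 0 ∨ i ∈ U) (hi' : i + 1 ∉ U) (hc : U.card + 1 ≤ k) :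
    Reach k U ↔ Reach k (insert (i + 1) U) := by
  have h1 : 1 ≤ 2 ^ (k - (U.card + 1)) := Nat.one_le_two_pow
  constructor
  · intro h
    exact Reach.add h hi hi' (Nat.lt_succ_self i) hc (by omega)
  · intro h
    have h2 := Reach.erase h (mem_insert_self (i + 1) U) (p := i)
      (hi.imp id (fun h => mem_insert_of_mem h)) (Nat.lt_succ_self i)
      (by rw [card_insert_of_notMem hi']; omega)
    rwa [erase_insert hi'] at h2

theorem reach_finite (k : ℕ) : {K : Finset ℕ | Reach k K}.Finite := by
  refine (Finset.finite_toSet ((range (2 ^ k)).powerset)).subset ?_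
  intro K hK
  rw [mem_coe, mem_powerset]
  intro q hq
  have h1 := Reach.add_le hK hq
  have h2 : 1 ≤ 2 ^ (k - K.card) := Nat.one_le_two_pow
  rw [mem_range]
  omega

private theorem card_reach_aux (k : ℕ) : ∀ l ≤ k,
    {K : Finset ℕ | Reach k K ∧ K.card = l}.ncard ≤
      ∏ j ∈ range l, ((j + 1) * 2 ^ (k - (j + 1))) := by
  classical
  have hfin : ∀ l, {K : Finset ℕ | Reach k K ∧ K.card = l}.Finite := fun l =>
    (reach_finite k).subset fun K hK => hK.1
  intro l
  induction l with
  | zero =>
    intro _
    have : {K : Finset ℕ | Reach k K ∧ K.card = 0} ⊆ {∅} := by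
      rintro K ⟨-, h⟩
      rw [card_eq_zero] at h
      simp [h]
    refine (Set.ncard_le_ncard this).trans ?_
    simp
  | succ l ih =>
    intro hl
    have h1 := ih (by omega)
    set F : Finset (Finset ℕ) := (hfin l).toFinset with hF
    set G : Finset (Finset ℕ) := (hfin (l + 1)).toFinset with hG
    rw [Set.ncard_eq_toFinset_card _ (hfin l)] at h1
    rw [Set.ncard_eq_toFinset_card _ (hfin (l + 1)), prod_range_succ]
    have hsub : G ⊆ F.biUnion fun K' =>
        ((insert 0 K') ×ˢ range (2 ^ (k - (l + 1)))).image
          (fun x : ℕ × ℕ => insert (x.1 + (x.2 + 1)) K') := by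
      intro K hK
      rw [hG, Set.Finite.mem_toFinset] at hK
      obtain ⟨hK1, hK2⟩ := hK
      cases hK1 with
      | empty => simp at hK2
      | @add K' p q hK' hp hq hpq hc hd =>
        rw [card_insert_of_notMem hq] at hK2
        have hcl : K'.card = l := by omega
        rw [mem_biUnion]
        refine ⟨K', ?_, ?_⟩
        · rw [hF, Set.Finite.mem_toFinset]
          exact ⟨hK', hcl⟩
        · rw [mem_image]
          refine ⟨(p, q - p - 1), ?_, ?_⟩
          · rw [mem_product]
            refine ⟨?_, ?_⟩
            · rcases hp with h | h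
              · rw [h]; exact mem_insert_self _ _
              · exact mem_insert_of_mem h
            · rw [mem_range]
              rw [hcl] at hd
              omega
          · have : p + (q - p - 1 + 1) = q := by omega
            simp only [this]
    calc G.card ≤ _ := card_le_card hsub
      _ ≤ F.card * ((l + 1) * 2 ^ (k - (l + 1))) := by
        refine card_biUnion_le_card_mul _ _ _ fun K' hK' => ?_
        refine card_image_le.trans ?_
        rw [card_product, card_range]
        rw [hF, Set.Finite.mem_toFinset] at hK'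
        have := card_insert_le 0 K'
        rw [hK'.2] at this
        exact Nat.mul_le_mul_right _ this
      _ ≤ _ := Nat.mul_le_mul_right _ h1

theorem card_reach_le (k : ℕ) : {K : Finset ℕ | Reach k K ∧ K.card = k}.ncard ≤
    k.factorial * 2 ^ (k * (k - 1) / 2) := by
  refine (card_reach_aux k k le_rfl).trans (le_of_eq ?_)
  rw [prod_mul_distrib, prod_range_add_one_eq_factorial, prod_pow_eq_pow_sum]
  congr 2
  rw [← sum_range_id, ← sum_range_reflect (fun j => j) k]
  exact sum_congr rfl fun j _ => by omega

end Pool.Agent.Lib.Pe46137X
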