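import Pool.Agent.Lib.Pe46137X.Peb

/-!
Module Pe46137X.Poly.  The two facts about `psi` and `aa` (Dual.lean) and their expansions.
`Peb.lean` is a black box (use `Reach.step_iff`, `Reach.card_le`, `Reach.add_le`, `Reach.one_le`).
All of this was checked by computer for `k = 1, 2`.

* `conf_subset_pos`: elements of a configuration are `≥ 1` and `< 2 ^ k` (`Reach.add_le`, the power
  `2 ^ (k - card)` is at least 1).  Even `j.val ≠ 2 ^ k`.
* `conf_step`: `Reach.step_iff` transported along `Finset.map_insert`, for `j` with `j.val = i + 1`,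
  `j ∉ U`, and `i = 0 ∨ ∃ j ∈ U, j.val = i`, `U.card + 1 ≤ k`: `U ∈ conf ↔ insert j U ∈ conf`.
* `psi_last`: let `j` be the position `2 ^ k` (`⟨2 ^ k, hp⟩`).  It belongs to no configuration, so
  every summand of `psi` has the factor `1 + z j = 0`.
* `psi_eq_aa`: let `j1 = ⟨i + 1, _⟩`, `z j1 = 1`, and if `i ≠ 0` let `j0` be position `i`, `z j0 = -1`.
  Summands `U` with `i ≠ 0`, `j0 ∉ U` vanish (factor `1 + z j0`, `j0 ∈ pos k p`).  For the rest
  (call `U` good if `i = 0 ∨ j0 ∈ U`) split by `j1 ∈ U`: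
  if `j1 ∉ U`: the product over `pos \ U` has the factor `1 + z j1 = 2`, rest `pos \ insert j1 U`;
  if `U = insert j1 U'`: `(-2) ^ (|U'|+1) * z j1 = (-2) * (-2) ^ |U'|`, product over
  `pos \ insert j1 U'`.
  So with `r(U) = (-2) ^ |U| * ∏_{U} z * ∏_{pos \ insert j1 U} (1 + z)` for good `U` without `j1`:
  `psi = ∑ 2 * ([U ∈ conf] - [insert j1 U ∈ conf]) * r(U)` (sum over all good `U ⊆ univ` without
  `j1`).  The bracket is `0` unless `U ∈ conf` and `|U| = k`: if `|U| + 1 ≤ k` by `conf_step`; if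
  `|U| ≥ k` then `insert j1 U ∉ conf` by `Reach.card_le`, and `U ∈ conf` forces `|U| = k`.
  Finally `∏_{U} z = ∏_{insert j1 U} z` since `z j1 = 1`, and `U ↦ insert j1 U` is a bijection from
  these `U` to `top k p i`.
* `psi_expand`, `aa_expand`: for `W ⊆ pos`, `(∏_{W} z) * ∏_{pos \ W} (1 + z) = ∑_{W ⊆ T ⊆ pos} ∏_T z`
  (`Finset.prod_one_add` / `Finset.prod_add`), exchange sums.  Elements of `top k p i` are subsets
  of `pos` if `i < 2 ^ k`; if `i ≥ 2 ^ k` then `top k p i` is empty for `i ≥ 1` since `i` would be an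
  element of a configuration.
-/

namespace Pool.Agent.Lib.Pe46137X

open Finset

variable {k p i : ℕ}

namespace PolyAux

theorem mem_conf {U : Finset (Fin p)} : U ∈ conf k p ↔ Reach k (U.map Fin.valEmbedding) := by
  classical
  unfold conf
  simp

theorem mem_pos {j : Fin p} : j ∈ pos k p ↔ 1 ≤ j.val ∧ j.val ≤ 2 ^ k := by
  unfold pos
  simp

theorem conf_bounds {U : Finset (Fin p)} (hU : U ∈ conf k p) {j : Fin p} (hj : j ∈ U) :
    1 ≤ j.val ∧ j.val < 2 ^ k := by
  have h := mem_conf.1 hU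
  have hj' : j.val ∈ U.map Fin.valEmbedding := Finset.mem_map_of_mem Fin.valEmbedding hj
  have h1 := Reach.one_le h hj'
  have h2 := Reach.add_le h hj'
  have h3 : 0 < 2 ^ (k - (U.map Fin.valEmbedding).card) := Nat.pow_pos (by norm_num)
  exact ⟨h1, by omega⟩

theorem conf_card {U : Finset (Fin p)} (hU : U ∈ conf k p) : U.card ≤ k := by
  have h := Reach.card_le (mem_conf.1 hU)
  rwa [Finset.card_map] at h

open Classical in
theorem mem_top {W : Finset (Fin p)} : W ∈ top k p i ↔ ∃ U ∈ conf k p, U.card = k ∧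
    (i = 0 ∨ ∃ j ∈ U, j.val = i) ∧ ∃ j, j.val = i + 1 ∧ j ∉ U ∧ W = insert j U := by
  unfold top
  simp

open Classical in
/-- the expansion of a product -/
theorem expand (P W : Finset (Fin p)) (hW : W ⊆ P) (z : Fin p → ℝ) :
    (∏ j ∈ W, z j) * ∏ j ∈ P \ W, (1 + z j) =
      ∑ T : Finset (Fin p), if W ⊆ T ∧ T ⊆ P then ∏ j ∈ T, z j else 0 := by
  rw [Finset.prod_one_add, Finset.mul_sum, ← Finset.sum_filter]
  refine Finset.sum_bij' (fun t _ => W ∪ t) (fun T _ => T \ W) ?_ ?_ ?_ ?_ ?_
  · intro t ht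
    rw [Finset.mem_powerset] at ht
    rw [Finset.mem_filter]
    exact ⟨Finset.mem_univ _, Finset.subset_union_left,
      Finset.union_subset hW (ht.trans Finset.sdiff_subset)⟩
  · intro T hT
    rw [Finset.mem_filter] at hT
    rw [Finset.mem_powerset]
    exact Finset.sdiff_subset_sdiff hT.2.2 (Finset.Subset.refl W)
  · intro t ht
    rw [Finset.mem_powerset] at ht
    rw [Finset.union_sdiff_cancel_left]
    rw [Finset.disjoint_left]
    intro x hx hx'
    exact (Finset.mem_sdiff.1 (ht hx')).2 hx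
  · intro T hT
    rw [Finset.mem_filter] at hT
    exact Finset.union_sdiff_of_subset hT.2.1
  · intro t ht
    rw [Finset.mem_powerset] at ht
    rw [Finset.prod_union]
    rw [Finset.disjoint_left]
    intro x hx hx'
    exact (Finset.mem_sdiff.1 (ht hx')).2 hx

end PolyAux

open PolyAux

theorem conf_subset_pos {U : Finset (Fin p)} (hU : U ∈ conf k p) : U ⊆ pos k p := by
  intro j hj
  have h := conf_bounds hU hj
  exact mem_pos.2 ⟨h.1, h.2.le⟩

theorem top_subset_pos {W : Finset (Fin p)} (hW : W ∈ top k p i) : W ⊆ pos k p := by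
  classical
  obtain ⟨U, hU, hc, hi, j, hj, hjU, hWU⟩ := mem_top.1 hW
  intro x hx
  rw [hWU, Finset.mem_insert] at hx
  rcases hx with rfl | hx
  · rw [mem_pos, hj]
    refine ⟨by omega, ?_⟩
    rcases hi with rfl | ⟨j', hj', rfl⟩
    · have : 0 < 2 ^ k := Nat.pow_pos (by norm_num)
      omega
    · have := (conf_bounds hU hj').2
      omega
  · exact conf_subset_pos hU hx

theorem top_card {W : Finset (Fin p)} (hW : W ∈ top k p i) : W.card = k + 1 := by
  classical
  obtain ⟨U, hU, hc, hi, j, hj, hjU, hWU⟩ := mem_top.1 hW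
  rw [hWU, Finset.card_insert_of_notMem hjU, hc]

theorem psi_last (hp : 2 ^ k < p) (z : Fin p → ℝ) (h : ∀ j : Fin p, j.val = 2 ^ k → z j = -1) :
    psi k z = 0 := by
  unfold psi
  refine Finset.sum_eq_zero fun U hU => ?_
  have h1 : ∏ j ∈ pos k p \ U, (1 + z j) = 0 := by
    refine Finset.prod_eq_zero (i := (⟨2 ^ k, hp⟩ : Fin p)) ?_ ?_
    · rw [Finset.mem_sdiff, mem_pos]
      refine ⟨⟨Nat.one_le_two_pow, le_rfl⟩, fun hj => ?_⟩
      exact absurd (conf_bounds hU hj).2 (lt_irrefl _)
    · rw [h _ rfl]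
      norm_num
  rw [h1, mul_zero]

namespace PolyAux

/-- the sum over the sets that contain position `i` -/
def good (i : ℕ) (U : Finset (Fin p)) : Prop := i = 0 ∨ ∃ j ∈ U, j.val = i

theorem good_insert {j1 : Fin p} (hj : j1.val = i + 1) {U : Finset (Fin p)} :
    good i (insert j1 U) ↔ good i U := by
  unfold good
  constructor
  · rintro (h | ⟨j, hjU, hji⟩)
    · exact Or.inl h
    · rw [Finset.mem_insert] at hjU
      rcases hjU with rfl | hjU
      · omega
      · exact Or.inr ⟨j, hjU, hji⟩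
  · rintro (h | ⟨j, hjU, hji⟩)
    · exact Or.inl h
    · exact Or.inr ⟨j, Finset.mem_insert_of_mem hjU, hji⟩

theorem conf_step {j1 : Fin p} (hj : j1.val = i + 1) {U : Finset (Fin p)} (hg : good i U)
    (hjU : j1 ∉ U) (hc : U.card + 1 ≤ k) : U ∈ conf k p ↔ insert j1 U ∈ conf k p := by
  rw [mem_conf, mem_conf, Finset.map_insert]
  have e : Fin.valEmbedding j1 = i + 1 := hj
  rw [e]
  refine Reach.step_iff ?_ ?_ ?_
  · rcases hg with h | ⟨j, hjU, hji⟩
    · exact Or.inl h
    · right
      rw [← hji]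
      exact Finset.mem_map_of_mem Fin.valEmbedding hjU
  · intro h
    rw [Finset.mem_map] at h
    obtain ⟨x, hx, hx2⟩ := h
    have : x = j1 := Fin.ext (by rw [hj]; exact hx2)
    exact hjU (this ▸ hx)
  · rw [Finset.card_map]
    exact hc

end PolyAux

theorem psi_eq_aa (hp : 2 ^ k < p) (hi : i < 2 ^ k) (z : Fin p → ℝ)
    (h0 : i = 0 ∨ ∀ j : Fin p, j.val = i → z j = -1)
    (h1 : ∀ j : Fin p, j.val = i + 1 → z j = 1) : psi k z = aa k i z := by
  classical
  obtain ⟨j1, hj1⟩ : ∃ j1 : Fin p, j1.val = i + 1 := ⟨⟨i + 1, by omega⟩, rfl⟩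
  have hz1 : z j1 = 1 := h1 j1 hj1
  have hj1p : j1 ∈ pos k p := mem_pos.2 ⟨by omega, by omega⟩
  set f : Finset (Fin p) → ℝ := fun U =>
    (-2) ^ U.card * (∏ j ∈ U, z j) * ∏ j ∈ pos k p \ U, (1 + z j) with hf
  set r : Finset (Fin p) → ℝ := fun U =>
    (-2) ^ U.card * (∏ j ∈ U, z j) * ∏ j ∈ pos k p \ insert j1 U, (1 + z j) with hr
  have hbad : ∀ U : Finset (Fin p), ¬ good i U → f U = 0 := by
    intro U hU
    unfold good at hU
    push Not at hU
    obtain ⟨hi0, hU⟩ := hU
    obtain ⟨j0, hj0⟩ : ∃ j0 : Fin p, j0.val = i := ⟨⟨i, by omega⟩, rfl⟩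
    have hz0 : z j0 = -1 := (h0.resolve_left hi0) j0 hj0
    have h2 : ∏ j ∈ pos k p \ U, (1 + z j) = 0 := by
      refine Finset.prod_eq_zero (i := j0) ?_ (by rw [hz0]; norm_num)
      rw [Finset.mem_sdiff, mem_pos]
      exact ⟨⟨by omega, by omega⟩, fun h => hU j0 h hj0⟩
    rw [hf]
    simp only
    rw [h2, mul_zero]
  have hf0 : ∀ U : Finset (Fin p), j1 ∉ U → f U = 2 * r U := by
    intro U hU
    rw [hf, hr]
    simp only
    have e : pos k p \ U = insert j1 (pos k p \ insert j1 U) := by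
      ext x
      simp only [Finset.mem_sdiff, Finset.mem_insert, not_or]
      constructor
      · rintro ⟨h2, h3⟩
        by_cases hx : x = j1
        · exact Or.inl hx
        · exact Or.inr ⟨h2, hx, h3⟩
      · rintro (rfl | ⟨h2, h3, h4⟩)
        · exact ⟨hj1p, hU⟩
        · exact ⟨h2, h4⟩
    rw [e, Finset.prod_insert (by simp), hz1]
    ring
  have hf1 : ∀ U : Finset (Fin p), j1 ∉ U → f (insert j1 U) = -2 * r U := by
    intro U hU
    rw [hf, hr]
    simp only
    rw [Finset.card_insert_of_notMem hU, Finset.prod_insert hU, hz1, pow_succ]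
    ring
  -- the sum as a sum over all sets without `j1`
  have hsum : psi k z = ∑ U : Finset (Fin p), if j1 ∉ U ∧ good i U then
      ((if U ∈ conf k p then 2 * r U else 0) + (if insert j1 U ∈ conf k p then -2 * r U else 0))
      else 0 := by
    have e1 : psi k z = ∑ U : Finset (Fin p), if U ∈ conf k p ∧ good i U then f U else 0 := by
      unfold psi
      rw [← Finset.sum_filter_add_sum_filter_not (conf k p) (good i)]
      have e2 : ∑ U ∈ (conf k p).filter (fun U => ¬ good i U), f U = 0 :=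
        Finset.sum_eq_zero fun U hU => hbad U (Finset.mem_filter.1 hU).2
      rw [e2, add_zero, ← Finset.sum_filter]
      refine Finset.sum_congr ?_ fun _ _ => rfl
      ext U
      simp
    rw [e1, ← Finset.sum_filter_add_sum_filter_not Finset.univ (fun U : Finset (Fin p) => j1 ∉ U)]
    have e3 : ∑ U ∈ (Finset.univ : Finset (Finset (Fin p))).filter (fun U => ¬ j1 ∉ U),
        (if U ∈ conf k p ∧ good i U then f U else 0) =
        ∑ U ∈ (Finset.univ : Finset (Finset (Fin p))).filter (fun U => j1 ∉ U),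
          (if insert j1 U ∈ conf k p ∧ good i U then -2 * r U else 0) := by
      symm
      refine Finset.sum_bij' (fun U _ => insert j1 U) (fun U _ => U.erase j1) ?_ ?_ ?_ ?_ ?_
      · intro U _
        simp
      · intro U _
        simp
      · intro U hU
        exact Finset.erase_insert (Finset.mem_filter.1 hU).2
      · intro U hU
        have := (Finset.mem_filter.1 hU).2
        push Not at this
        exact Finset.insert_erase this
      · intro U hU
        have hjU := (Finset.mem_filter.1 hU).2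
        rw [hf1 U hjU]
        simp only [good_insert hj1]
    rw [e3, ← Finset.sum_add_distrib, Finset.sum_filter]
    refine Finset.sum_congr rfl fun U _ => ?_
    by_cases hjU : j1 ∉ U
    · rw [if_pos hjU]
      rw [hf0 U hjU]
      by_cases hg : good i U
      · simp only [hg, hjU, and_true, not_false_eq_true, if_true]
      · simp only [hg, and_false, if_false, add_zero]
    · rw [if_neg hjU, if_neg (fun h => hjU h.1)]
  -- only the configurations with `k` elements remain
  have hterm : ∀ U : Finset (Fin p), (if j1 ∉ U ∧ good i U then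
      ((if U ∈ conf k p then 2 * r U else 0) + (if insert j1 U ∈ conf k p then -2 * r U else 0))
      else 0) = if U ∈ conf k p ∧ U.card = k ∧ good i U ∧ j1 ∉ U then 2 * r U else 0 := by
    intro U
    by_cases hjU : j1 ∉ U
    · by_cases hg : good i U
      · rw [if_pos ⟨hjU, hg⟩]
        by_cases hc : U.card + 1 ≤ k
        · have hst := conf_step hj1 hg hjU hc
          rw [if_neg (fun h : U ∈ conf k p ∧ U.card = k ∧ good i U ∧ j1 ∉ U => by omega)]
          by_cases hUc : U ∈ conf k p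
          · rw [if_pos hUc, if_pos (hst.1 hUc)]
            ring
          · rw [if_neg hUc, if_neg (fun h => hUc (hst.2 h)), add_zero]
        · have h2 : insert j1 U ∉ conf k p := by
            intro h
            have := conf_card h
            rw [Finset.card_insert_of_notMem hjU] at this
            omega
          rw [if_neg h2, add_zero]
          by_cases hUc : U ∈ conf k p
          · have h3 := conf_card hUc
            rw [if_pos hUc, if_pos ⟨hUc, by omega, hg, hjU⟩]
          · rw [if_neg hUc, if_neg (fun h => hUc h.1)]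
      · rw [if_neg (fun h => hg h.2), if_neg (fun h => hg h.2.2.1)]
    · rw [if_neg (fun h => hjU h.1), if_neg (fun h => hjU h.2.2.2)]
  rw [hsum, Finset.sum_congr rfl fun U _ => hterm U, ← Finset.sum_filter]
  unfold aa
  rw [Finset.mul_sum]
  refine Finset.sum_bij' (fun U _ => insert j1 U) (fun W _ => W.erase j1) ?_ ?_ ?_ ?_ ?_
  · intro U hU
    obtain ⟨-, hUc, hk, hg, hjU⟩ := Finset.mem_filter.1 hU
    exact mem_top.2 ⟨U, hUc, hk, hg, j1, hj1, hjU, rfl⟩
  · intro W hW
    obtain ⟨U, hUc, hk, hg, j, hj, hjU, rfl⟩ := mem_top.1 hW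
    have hjj : j = j1 := Fin.ext (by rw [hj, hj1])
    subst hjj
    rw [Finset.erase_insert hjU, Finset.mem_filter]
    exact ⟨Finset.mem_univ _, hUc, hk, hg, hjU⟩
  · intro U hU
    exact Finset.erase_insert (Finset.mem_filter.1 hU).2.2.2.2
  · intro W hW
    obtain ⟨U, hUc, hk, hg, j, hj, hjU, rfl⟩ := mem_top.1 hW
    have hjj : j = j1 := Fin.ext (by rw [hj, hj1])
    subst hjj
    exact Finset.insert_erase (Finset.mem_insert_self _ _)
  · intro U hU
    obtain ⟨-, hUc, hk, hg, hjU⟩ := Finset.mem_filter.1 hU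
    rw [hr]
    simp only
    rw [Finset.prod_insert hjU, hz1, hk]
    ring

theorem psi_expand (z : Fin p → ℝ) :
    psi k z = ∑ T : Finset (Fin p), pc k T * ∏ j ∈ T, z j := by
  classical
  unfold psi
  have h1 : ∀ U ∈ conf k p, (-2 : ℝ) ^ U.card * (∏ j ∈ U, z j) * ∏ j ∈ pos k p \ U, (1 + z j) =
      ∑ T : Finset (Fin p), if U ⊆ T ∧ T ⊆ pos k p then (-2 : ℝ) ^ U.card * ∏ j ∈ T, z j else 0 := by
    intro U hU
    rw [mul_assoc]
    have h2 := expand (pos k p) U (conf_subset_pos hU) z
    have h3 : (∏ j ∈ U, z j) * ∏ j ∈ pos k p \ U, (1 + z j) =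
      ∑ T : Finset (Fin p), if U ⊆ T ∧ T ⊆ pos k p then ∏ j ∈ T, z j else 0 := by
      exact h2
    rw [h3, Finset.mul_sum]
    refine Finset.sum_congr rfl fun T _ => ?_
    rw [mul_ite, mul_zero]
  rw [Finset.sum_congr rfl h1, Finset.sum_comm]
  refine Finset.sum_congr rfl fun T _ => ?_
  unfold pc
  by_cases hT : T ⊆ pos k p
  · rw [if_pos hT, Finset.sum_mul, Finset.sum_filter]
    refine Finset.sum_congr rfl fun U _ => ?_
    by_cases hUT : U ⊆ T
    · rw [if_pos ⟨hUT, hT⟩, if_pos hUT]
    · rw [if_neg (fun h => hUT h.1), if_neg hUT]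
  · rw [if_neg hT, zero_mul]
    exact Finset.sum_eq_zero fun U _ => if_neg (fun h => hT h.2)

theorem aa_expand (z : Fin p → ℝ) :
    aa k i z = ∑ T : Finset (Fin p), ac k i T * ∏ j ∈ T, z j := by
  classical
  unfold aa
  have h1 : ∀ W ∈ top k p i, (∏ j ∈ W, z j) * ∏ j ∈ pos k p \ W, (1 + z j) =
      ∑ T : Finset (Fin p), if W ⊆ T ∧ T ⊆ pos k p then ∏ j ∈ T, z j else 0 := by
    intro W hW
    have h2 := expand (pos k p) W (top_subset_pos hW) z
    exact h2
  rw [Finset.sum_congr rfl h1, Finset.sum_comm, Finset.mul_sum]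
  refine Finset.sum_congr rfl fun T _ => ?_
  unfold ac
  by_cases hT : T ⊆ pos k p
  · rw [if_pos hT]
    have h3 : ∑ W ∈ top k p i, (if W ⊆ T ∧ T ⊆ pos k p then ∏ j ∈ T, z j else 0) =
        (((top k p i).filter (· ⊆ T)).card : ℝ) * ∏ j ∈ T, z j := by
      rw [← nsmul_eq_mul, ← Finset.sum_const, Finset.sum_filter]
      refine Finset.sum_congr rfl fun W _ => ?_
      by_cases hWT : W ⊆ T
      · rw [if_pos ⟨hWT, hT⟩, if_pos hWT]
      · rw [if_neg (fun h => hWT h.1), if_neg hWT]
    rw [h3, ← mul_assoc]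
  · rw [if_neg hT, zero_mul]
    have : ∑ W ∈ top k p i, (if W ⊆ T ∧ T ⊆ pos k p then ∏ j ∈ T, z j else 0) = 0 :=
      Finset.sum_eq_zero fun W _ => if_neg (fun h => hT h.2)
    rw [this, mul_zero]

theorem pc_empty : pc k (∅ : Finset (Fin p)) = 1 := by
  classical
  unfold pc
  rw [if_pos (Finset.empty_subset _)]
  rw [Finset.sum_eq_single ∅]
  · simp
  · intro U hU hne
    exact absurd (Finset.subset_empty.1 (Finset.mem_filter.1 hU).2) hne
  · intro h
    exfalso
    apply h
    rw [Finset.mem_filter]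
    refine ⟨mem_conf.2 ?_, Finset.Subset.refl _⟩
    rw [Finset.map_empty]
    exact Reach.empty

end Pool.Agent.Lib.Pe46137X
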