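import Mathlib

/-!
Module Pe46137X.Seeds.  A few sequences of vertices that hit all windows of every walk at all
scales.  No imports from the project.

A seed is a function `Fin H → Fin n`, `H = sup of the h i, i < K` (extend it to `ℕ → Fin n`; if
`h i = 0`.. cannot happen).  Call the seed bad for `v` if for some `i < K` and some `a` with
`a + om i ≤ n`, `v` injective on `[a, a + om i)`, none of the first `h i` entries lies in
`{v b : a ≤ b < a + om i}`.
* For fixed `i`, `a` the number of such seeds is `(n - om i) ^ (h i) * n ^ (H - h i)`.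
* `2 * (n - w) ^ N ≤ n ^ N` for `1 ≤ w ≤ n`, `N = n / w + 1` (so `N * w ≥ n`): `n ^ N = ((n-w) + w) ^ N ≥
  (n-w) ^ N + N * w * (n-w) ^ (N-1) ≥ (n-w) ^ N + n * (n-w) ^ (N-1) ≥ 2 * (n-w) ^ N` (binomial /
  Bernoulli; by induction on `N`: `n ^ N ≥ (n-w) ^ N + N * w * (n-w) ^ (N-1)`).  So with
  `h i ≥ (2q+1) * N`: `(n - w) ^ (h i) * 2 ^ (2q+1) ≤ n ^ (h i)`.
* Union over `i < K ≤ q + 1 ≤ 2 ^ q` and `a < n ≤ 2 ^ q` (note `om i ≥ 1`): the number of bad seeds
  times `2 ^ (2q+1)` is at most `2 ^ (2q) * n ^ H`, i.e. at most half of all seeds are bad for `v`.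
* `T = q * n + 1` seeds chosen independently: the number of `T`-tuples all bad for a given `v`
  (only `v` restricted to `Fin n` matters: `n ^ n ≤ 2 ^ (q n)` functions) is at most
  `(n ^ H) ^ T / 2 ^ T`, and `n ^ n < 2 ^ T`, so some tuple works for all `v`.
Handle `n = 1`, `K = 0` separately if needed.
-/

namespace Pool.Agent.Lib.Pe46137X

open Finset

namespace SeedsAux

theorem bern (a w N : ℕ) : a ^ N * (a + N * w) ≤ a * (a + w) ^ N := by
  induction N with
  | zero => simp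
  | succ N ih =>
    calc a ^ (N + 1) * (a + (N + 1) * w) = a ^ N * (a * a + (N + 1) * w * a) := by ring
      _ ≤ a ^ N * ((a + N * w) * (a + w)) := by
        refine Nat.mul_le_mul_left _ ?_
        nlinarith [Nat.zero_le (N * w * w)]
      _ = a ^ N * (a + N * w) * (a + w) := by ring
      _ ≤ a * (a + w) ^ N * (a + w) := Nat.mul_le_mul_right _ ih
      _ = a * (a + w) ^ (N + 1) := by ring

theorem two_pow_le {n w : ℕ} (hw : 1 ≤ w) (hwn : w ≤ n) :
    2 * (n - w) ^ (n / w + 1) ≤ n ^ (n / w + 1) := by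
  obtain ⟨a, rfl⟩ : ∃ a, n = a + w := ⟨n - w, by omega⟩
  rw [Nat.add_sub_cancel]
  have h2 : a + w < w * ((a + w) / w + 1) := Nat.lt_mul_div_succ _ (by omega)
  generalize (a + w) / w + 1 = N at h2 ⊢
  have hN : N ≠ 0 := by
    rintro rfl
    omega
  rcases Nat.eq_zero_or_pos a with rfl | ha
  · rw [zero_pow hN, mul_zero]
    exact Nat.zero_le _
  · have h1 := bern a w N
    have h3 : a * (2 * a ^ N) ≤ a * (a + w) ^ N := by
      calc a * (2 * a ^ N) = a ^ N * (a + a) := by ring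
        _ ≤ a ^ N * (a + N * w) := by
          refine Nat.mul_le_mul_left _ ?_
          have : w * N = N * w := mul_comm _ _
          omega
        _ ≤ _ := h1
    exact Nat.le_of_mul_le_mul_left h3 ha

theorem pow_le {n w q h : ℕ} (hw : 1 ≤ w) (hwn : w ≤ n) (hh : (2 * q + 1) * (n / w + 1) ≤ h) :
    (n - w) ^ h * 2 ^ (2 * q + 1) ≤ n ^ h := by
  obtain ⟨c, rfl⟩ := Nat.exists_eq_add_of_le hh
  have h1 := Nat.pow_le_pow_left (two_pow_le hw hwn) (2 * q + 1)
  have h2 : (n - w) ^ c ≤ n ^ c := Nat.pow_le_pow_left (Nat.sub_le _ _) c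
  calc (n - w) ^ ((2 * q + 1) * (n / w + 1) + c) * 2 ^ (2 * q + 1)
      = (2 * (n - w) ^ (n / w + 1)) ^ (2 * q + 1) * (n - w) ^ c := by
        rw [mul_pow, pow_add, ← pow_mul, mul_comm (2 * q + 1) (n / w + 1)]
        ring
    _ ≤ (n ^ (n / w + 1)) ^ (2 * q + 1) * n ^ c := Nat.mul_le_mul h1 h2
    _ = _ := by
        rw [← pow_mul, ← pow_add, mul_comm (2 * q + 1) (n / w + 1)]

theorem count {n H h : ℕ} (hH : h ≤ H) (W : Finset (Fin n)) :
    (univ.filter (fun x : Fin H → Fin n => ∀ j : Fin H, (j : ℕ) < h → x j ∉ W)).card =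
      (n - W.card) ^ h * n ^ (H - h) := by
  have e : (univ.filter (fun x : Fin H → Fin n => ∀ j : Fin H, (j : ℕ) < h → x j ∉ W)) =
      Fintype.piFinset (fun j : Fin H => if (j : ℕ) < h then Wᶜ else univ) := by
    ext x
    simp only [mem_filter, mem_univ, true_and, Fintype.mem_piFinset]
    refine forall_congr' fun j => ?_
    split_ifs with hj
    · simp [hj]
    · simp [hj]
  rw [e, Fintype.card_piFinset]
  have e2 : ∀ j : Fin H, (if (j : ℕ) < h then Wᶜ else (univ : Finset (Fin n))).card =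
      (fun k : ℕ => if k < h then n - W.card else n) j := by
    intro j
    simp only
    split_ifs
    · rw [card_compl, Fintype.card_fin]
    · rw [card_univ, Fintype.card_fin]
  rw [Finset.prod_congr rfl fun j _ => e2 j,
    Fin.prod_univ_eq_prod_range (fun k : ℕ => if k < h then n - W.card else n) H,
    ← Finset.prod_range_mul_prod_Ico _ hH]
  have e3 : ∏ k ∈ range h, (if k < h then n - W.card else n) = (n - W.card) ^ h := by
    rw [Finset.prod_congr rfl (g := fun _ => n - W.card) fun k hk => if_pos (mem_range.1 hk),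
      prod_const, card_range]
  have e4 : ∏ k ∈ Ico h H, (if k < h then n - W.card else n) = n ^ (H - h) := by
    rw [Finset.prod_congr rfl (g := fun _ => n) fun k hk => if_neg (not_lt.2 (mem_Ico.1 hk).1),
      prod_const, Nat.card_Ico]
  rw [e3, e4]

/-- seeds which miss a window of `v` -/
def BadS (n H K : ℕ) (om h : ℕ → ℕ) (v : ℕ → Fin n) (x : Fin H → Fin n) : Prop :=
  ∃ i < K, ∃ a, a + om i ≤ n ∧ Set.InjOn v (Set.Ico a (a + om i)) ∧
    ∀ b, a ≤ b → b < a + om i → ∀ j : Fin H, (j : ℕ) < h i → x j ≠ v b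

open Classical in
theorem card_bad {n q K H : ℕ} (hq : n ≤ 2 ^ q) (hK : K ≤ q + 1) {om h : ℕ → ℕ}
    (hom : ∀ i < K, 1 ≤ om i) (hh : ∀ i < K, (2 * q + 1) * (n / om i + 1) ≤ h i)
    (hH : ∀ i < K, h i ≤ H) (v : ℕ → Fin n) :
    2 * (univ.filter (BadS n H K om h v)).card ≤ n ^ H := by
  set B : ℕ → ℕ → Finset (Fin H → Fin n) := fun i a =>
    if a + om i ≤ n ∧ Set.InjOn v (Set.Ico a (a + om i)) then
      univ.filter (fun x : Fin H → Fin n => ∀ j : Fin H, (j : ℕ) < h i →
        x j ∉ (Ico a (a + om i)).image v) else ∅ with hB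
  have hcard : ∀ i < K, ∀ a, (B i a).card * 2 ^ (2 * q + 1) ≤ n ^ H := by
    intro i hi a
    simp only [hB]
    split_ifs with hc
    · rw [count (hH i hi), card_image_of_injOn (by rw [coe_Ico]; exact hc.2), Nat.card_Ico,
        Nat.add_sub_cancel_left]
      have h1 := pow_le (hom i hi) (show om i ≤ n by omega) (hh i hi)
      calc (n - om i) ^ h i * n ^ (H - h i) * 2 ^ (2 * q + 1)
          = (n - om i) ^ h i * 2 ^ (2 * q + 1) * n ^ (H - h i) := by ring
        _ ≤ n ^ h i * n ^ (H - h i) := Nat.mul_le_mul_right _ h1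
        _ = n ^ H := by
          rw [← pow_add]
          congr 1
          have := hH i hi
          omega
    · rw [card_empty, zero_mul]
      exact Nat.zero_le _
  have hsub : univ.filter (BadS n H K om h v) ⊆
      (range K).biUnion fun i => (range n).biUnion fun a => B i a := by
    intro x hx
    rw [mem_filter] at hx
    obtain ⟨-, i, hi, a, ha, hinj, hb⟩ := hx
    rw [mem_biUnion]
    refine ⟨i, mem_range.2 hi, ?_⟩
    rw [mem_biUnion]
    have := hom i hi
    refine ⟨a, mem_range.2 (by omega), ?_⟩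
    simp only [hB]
    rw [if_pos ⟨ha, hinj⟩, mem_filter]
    refine ⟨mem_univ _, fun j hj hmem => ?_⟩
    rw [mem_image] at hmem
    obtain ⟨b, hb1, hb2⟩ := hmem
    rw [mem_Ico] at hb1
    exact hb b hb1.1 hb1.2 j hj hb2.symm
  have h1 : (univ.filter (BadS n H K om h v)).card ≤ ∑ i ∈ range K, ∑ a ∈ range n, (B i a).card :=
    (card_le_card hsub).trans (card_biUnion_le.trans (sum_le_sum fun i _ => card_biUnion_le))
  have h2 : (∑ i ∈ range K, ∑ a ∈ range n, (B i a).card) * 2 ^ (2 * q + 1) ≤ K * (n * n ^ H) := by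
    rw [sum_mul]
    calc ∑ i ∈ range K, (∑ a ∈ range n, (B i a).card) * 2 ^ (2 * q + 1)
        ≤ ∑ _i ∈ range K, n * n ^ H := by
          refine sum_le_sum fun i hi => ?_
          rw [sum_mul]
          calc ∑ a ∈ range n, (B i a).card * 2 ^ (2 * q + 1) ≤ ∑ _a ∈ range n, n ^ H :=
                sum_le_sum fun a _ => hcard i (mem_range.1 hi) a
            _ = n * n ^ H := by rw [sum_const, card_range, smul_eq_mul]
      _ = K * (n * n ^ H) := by rw [sum_const, card_range, smul_eq_mul]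
  have h3 : K ≤ 2 ^ q := hK.trans Nat.lt_two_pow_self
  have h4 : K * (n * n ^ H) ≤ 2 ^ q * (2 ^ q * n ^ H) :=
    Nat.mul_le_mul h3 (Nat.mul_le_mul_right _ hq)
  have h5 : 2 ^ (2 * q) * (2 * (univ.filter (BadS n H K om h v)).card) ≤ 2 ^ (2 * q) * n ^ H := by
    calc 2 ^ (2 * q) * (2 * (univ.filter (BadS n H K om h v)).card)
        = (univ.filter (BadS n H K om h v)).card * 2 ^ (2 * q + 1) := by ring
      _ ≤ (∑ i ∈ range K, ∑ a ∈ range n, (B i a).card) * 2 ^ (2 * q + 1) :=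
        Nat.mul_le_mul_right _ h1
      _ ≤ 2 ^ q * (2 ^ q * n ^ H) := h2.trans h4
      _ = 2 ^ (2 * q) * n ^ H := by ring
  exact Nat.le_of_mul_le_mul_left h5 (by positivity)

open Classical in
theorem exists_tuple {n q H T : ℕ} (hn : 1 ≤ n) (hq : n ≤ 2 ^ q) (hT : T = q * n + 1)
    (Bad : (Fin n → Fin n) → Finset (Fin H → Fin n)) (hB : ∀ v, 2 * (Bad v).card ≤ n ^ H) :
    ∃ x : Fin T → Fin H → Fin n, ∀ v, ∃ τ, x τ ∉ Bad v := by
  by_contra hcon
  push Not at hcon
  set BT : (Fin n → Fin n) → Finset (Fin T → Fin H → Fin n) := fun v =>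
    Fintype.piFinset fun _ => Bad v with hBT
  have hsub : (univ : Finset (Fin T → Fin H → Fin n)) ⊆ univ.biUnion BT := by
    intro x _
    obtain ⟨v, hv⟩ := hcon x
    rw [mem_biUnion]
    refine ⟨v, mem_univ _, ?_⟩
    simp only [hBT, Fintype.mem_piFinset]
    exact hv
  have h1 : (n ^ H) ^ T ≤ ∑ v, (BT v).card := by
    have := (card_le_card hsub).trans card_biUnion_le
    rwa [card_univ, Fintype.card_fun, Fintype.card_fun, Fintype.card_fin, Fintype.card_fin,
      Fintype.card_fin] at this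
  have h2 : ∀ v, 2 ^ T * (BT v).card ≤ (n ^ H) ^ T := by
    intro v
    simp only [hBT]
    rw [Fintype.card_piFinset, prod_const, card_univ, Fintype.card_fin, ← mul_pow]
    exact Nat.pow_le_pow_left (hB v) T
  have h3 : 2 ^ T * (n ^ H) ^ T ≤ n ^ n * (n ^ H) ^ T := by
    calc 2 ^ T * (n ^ H) ^ T ≤ 2 ^ T * ∑ v, (BT v).card := Nat.mul_le_mul_left _ h1
      _ = ∑ v, 2 ^ T * (BT v).card := mul_sum _ _ _
      _ ≤ ∑ _v : Fin n → Fin n, (n ^ H) ^ T := sum_le_sum fun v _ => h2 v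
      _ = n ^ n * (n ^ H) ^ T := by
        rw [sum_const, card_univ, Fintype.card_fun, Fintype.card_fin, smul_eq_mul]
  have h4 : 2 ^ T ≤ n ^ n := Nat.le_of_mul_le_mul_right h3 (by positivity)
  have h5 : n ^ n ≤ (2 ^ q) ^ n := Nat.pow_le_pow_left hq n
  rw [← pow_mul] at h5
  have h6 : 2 ^ (q * n) < 2 ^ T := Nat.pow_lt_pow_right (by norm_num) (by omega)
  omega

end SeedsAux

open SeedsAux

theorem exists_seeds (n q K : ℕ) (hn : 1 ≤ n) (hq : n ≤ 2 ^ q) (hK : K ≤ q + 1) (om h : ℕ → ℕ)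
    (hom : ∀ i < K, 1 ≤ om i) (hh : ∀ i < K, (2 * q + 1) * (n / om i + 1) ≤ h i) :
    ∃ x : Fin (q * n + 1) → ℕ → Fin n, ∀ v : ℕ → Fin n, ∃ τ, ∀ i < K, ∀ a, a + om i ≤ n →
      Set.InjOn v (Set.Ico a (a + om i)) → ∃ b, a ≤ b ∧ b < a + om i ∧
        ∃ j < h i, x τ j = v b := by
  classical
  set H : ℕ := (range K).sup h with hHd
  have hH : ∀ i < K, h i ≤ H := fun i hi => Finset.le_sup (mem_range.2 hi)
  set ext : (Fin n → Fin n) → ℕ → Fin n := fun v k => if hk : k < n then v ⟨k, hk⟩ else ⟨0, hn⟩ with hext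
  obtain ⟨x, hx⟩ := exists_tuple (T := q * n + 1) hn hq rfl
    (fun v : Fin n → Fin n => univ.filter (BadS n H K om h (ext v)))
    (fun v => card_bad hq hK hom hh hH (ext v))
  refine ⟨fun τ j => if hj : j < H then x τ ⟨j, hj⟩ else ⟨0, hn⟩, fun v => ?_⟩
  obtain ⟨τ, hτ⟩ := hx fun k => v k
  refine ⟨τ, fun i hi a ha hinj => ?_⟩
  have hagree : ∀ k < n, ext (fun k => v k) k = v k := by
    intro k hk
    simp only [hext]
    rw [dif_pos hk]
  by_contra hcon
  push Not at hcon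
  apply hτ
  rw [mem_filter]
  refine ⟨mem_univ _, i, hi, a, ha, ?_, ?_⟩
  · intro b hb c hc hbc
    rw [hagree b (lt_of_lt_of_le hb.2 ha), hagree c (lt_of_lt_of_le hc.2 ha)] at hbc
    exact hinj hb hc hbc
  · intro b hb1 hb2 j hj hjb
    have h1 := hcon b hb1 hb2 j hj
    rw [dif_pos j.2] at h1
    apply h1
    rw [← hagree b (lt_of_lt_of_le hb2 ha)]
    exact hjb

end Pool.Agent.Lib.Pe46137X
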